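import Mathlib

/-!
# Division closure of a ring homomorphism

Let `ρ : 𝒜 → Q` be a ring homomorphism and `Good` a family of square matrices over `𝒜` which become
invertible over `Q`, closed under block triangular sums and such that every bordered matrix
`[[A, b], [c, 0]]` with `A` good is good or has zero Schur complement.  Then the entries
`c ρ(A)⁻¹ b`, `A` good, form a division ring.
-/

namespace Pool.Agent.H7

open Matrix

variable {𝒜 Q : Type} [Ring 𝒜] [Ring Q]

/-- The bordered matrix `[[A, b], [c, 0]]`. -/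
def border {ι : Type} (A : Matrix ι ι 𝒜) (c b : ι → 𝒜) : Matrix (ι ⊕ Unit) (ι ⊕ Unit) 𝒜 :=
  fromBlocks A (of fun i _ => b i) (of fun _ i => c i) 0

/-- Closure properties of a family of matrices. -/
structure GoodFam (ρ : 𝒜 →+* Q)
    (Good : ∀ (ι : Type) [Fintype ι] [DecidableEq ι], Matrix ι ι 𝒜 → Prop) : Prop where
  good_one : Good Unit 1
  unit : ∀ (ι : Type) [Fintype ι] [DecidableEq ι] (A : Matrix ι ι 𝒜), Good ι A →
    ∃ X : Matrix ι ι Q, A.map ρ * X = 1 ∧ X * A.map ρ = 1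
  blocks : ∀ (ι κ : Type) [Fintype ι] [DecidableEq ι] [Fintype κ] [DecidableEq κ]
    (A : Matrix ι ι 𝒜) (B : Matrix ι κ 𝒜) (D : Matrix κ κ 𝒜), Good ι A → Good κ D →
    Good (ι ⊕ κ) (fromBlocks A B 0 D)
  bord : ∀ (ι : Type) [Fintype ι] [DecidableEq ι] (A : Matrix ι ι 𝒜) (c b : ι → 𝒜),
    Good ι A → ¬ Good (ι ⊕ Unit) (border A c b) →
    ∀ X : Matrix ι ι Q, A.map ρ * X = 1 → X * A.map ρ = 1 →
      (fun i => ρ (c i)) ⬝ᵥ (X *ᵥ fun i => ρ (b i)) = 0

/-- `q = c ρ(A)⁻¹ b` for some good `A`. -/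
def IsEntry (ρ : 𝒜 →+* Q)
    (Good : ∀ (ι : Type) [Fintype ι] [DecidableEq ι], Matrix ι ι 𝒜 → Prop) (q : Q) : Prop :=
  ∃ (ι : Type) (_ : Fintype ι) (_ : DecidableEq ι) (A : Matrix ι ι 𝒜) (c b : ι → 𝒜)
    (X : Matrix ι ι Q), Good ι A ∧ A.map ρ * X = 1 ∧ X * A.map ρ = 1 ∧
      q = (fun i => ρ (c i)) ⬝ᵥ (X *ᵥ fun i => ρ (b i))

section

variable {ρ : 𝒜 →+* Q}
  {Good : ∀ (ι : Type) [Fintype ι] [DecidableEq ι], Matrix ι ι 𝒜 → Prop}

theorem isEntry_map (h : GoodFam ρ Good) (a : 𝒜) : IsEntry ρ Good (ρ a) := by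
  refine ⟨Unit, inferInstance, inferInstance, 1, fun _ => a, fun _ => 1, 1, h.good_one, ?_, ?_, ?_⟩
  · simp [Matrix.map_one]
  · simp [Matrix.map_one]
  · simp [dotProduct]

theorem isEntry_neg {q : Q} (hq : IsEntry ρ Good q) : IsEntry ρ Good (-q) := by
  obtain ⟨ι, _, _, A, c, b, X, hA, h1, h2, rfl⟩ := hq
  refine ⟨ι, inferInstance, inferInstance, A, fun i => - c i, b, X, hA, h1, h2, ?_⟩
  simp only [map_neg]
  rw [← neg_dotProduct]
  rfl

theorem elim_comp {ι κ : Type} (f : ι → 𝒜) (g : κ → 𝒜) :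
    (fun i => ρ (Sum.elim f g i)) = Sum.elim (fun i => ρ (f i)) (fun i => ρ (g i)) := by
  funext i
  cases i <;> rfl

theorem isEntry_add (h : GoodFam ρ Good) {q q' : Q} (hq : IsEntry ρ Good q)
    (hq' : IsEntry ρ Good q') : IsEntry ρ Good (q + q') := by
  obtain ⟨ι, _, _, A, c, b, X, hA, h1, h2, rfl⟩ := hq
  obtain ⟨κ, _, _, A', c', b', X', hA', h1', h2', rfl⟩ := hq'
  refine ⟨ι ⊕ κ, inferInstance, inferInstance, fromBlocks A 0 0 A', Sum.elim c c', Sum.elim b b',
    fromBlocks X 0 0 X', h.blocks _ _ _ _ _ hA hA', ?_, ?_, ?_⟩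
  · rw [fromBlocks_map, fromBlocks_multiply]
    simp [Matrix.map_zero, h1, h1']
  · rw [fromBlocks_map, fromBlocks_multiply]
    simp [Matrix.map_zero, h2, h2']
  · rw [elim_comp, elim_comp, fromBlocks_mulVec, sumElim_dotProduct_sumElim]
    simp

theorem isEntry_mul (h : GoodFam ρ Good) {q q' : Q} (hq : IsEntry ρ Good q)
    (hq' : IsEntry ρ Good q') : IsEntry ρ Good (q * q') := by
  obtain ⟨ι, _, _, A, c, b, X, hA, h1, h2, rfl⟩ := hq
  obtain ⟨κ, _, _, A', c', b', X', hA', h1', h2', rfl⟩ := hq'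
  obtain ⟨M, hM⟩ : ∃ M : Matrix ι κ Q, M = of fun i k => ρ (b i * c' k) := ⟨_, rfl⟩
  have hm : (of fun i k => - (b i * c' k)).map ρ = - M := by
    rw [hM]
    ext i k
    simp
  refine ⟨ι ⊕ κ, inferInstance, inferInstance, fromBlocks A (of fun i k => - (b i * c' k)) 0 A',
    Sum.elim c 0, Sum.elim 0 b',
    fromBlocks X (X * M * X') 0 X', h.blocks _ _ _ _ _ hA hA',
    ?_, ?_, ?_⟩
  · rw [fromBlocks_map, fromBlocks_multiply, hm]
    simp [Matrix.map_zero, h1, h1', ← Matrix.mul_assoc]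
  · rw [fromBlocks_map, fromBlocks_multiply, hm]
    simp [Matrix.map_zero, h2, h2', Matrix.mul_assoc]
  · rw [elim_comp, elim_comp, fromBlocks_mulVec, sumElim_dotProduct_sumElim]
    have hz : (fun i : ι => ρ ((0 : ι → 𝒜) i)) = 0 := by ext; simp
    have hz' : (fun i : κ => ρ ((0 : κ → 𝒜) i)) = 0 := by ext; simp
    rw [hz, hz']
    simp only [Sum.elim_comp_inl, Sum.elim_comp_inr, mulVec_zero, zero_add, zero_dotProduct,
      add_zero]
    rw [← mulVec_mulVec, ← mulVec_mulVec]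
    have : M *ᵥ (X' *ᵥ fun i => ρ (b' i)) =
        fun i => ρ (b i) * ((fun i => ρ (c' i)) ⬝ᵥ (X' *ᵥ fun i => ρ (b' i))) := by
      rw [hM]
      ext i
      simp [mulVec, dotProduct, Finset.mul_sum, mul_assoc]
    rw [this]
    simp only [dotProduct, mulVec, Finset.sum_mul, mul_assoc]

theorem isEntry_inv (h : GoodFam ρ Good) {q : Q} (hq : IsEntry ρ Good q) :
    q = 0 ∨ ∃ q', IsEntry ρ Good q' ∧ q * q' = 1 ∧ q' * q = 1 := by
  obtain ⟨ι, _, _, A, c, b, X, hA, h1, h2, rfl⟩ := hq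
  by_cases hB : Good (ι ⊕ Unit) (border A c b)
  · right
    obtain ⟨Y, hY1, hY2⟩ := h.unit _ _ hB
    refine ⟨- Y (Sum.inr ()) (Sum.inr ()), ?_, ?_, ?_⟩
    · refine ⟨ι ⊕ Unit, inferInstance, inferInstance, border A c b, Sum.elim 0 (fun _ => -1),
        Sum.elim 0 (fun _ => 1), Y, hB, hY1, hY2, ?_⟩
      simp [dotProduct, mulVec]
    · have e1 : ∀ i, ∑ k, ρ (A i k) * Y (Sum.inl k) (Sum.inr ()) +
          ρ (b i) * Y (Sum.inr ()) (Sum.inr ()) = 0 := by
        intro i
        have := congrFun (congrFun hY1 (Sum.inl i)) (Sum.inr ())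
        simpa [Matrix.mul_apply, border] using this
      have e2 : ∑ k, ρ (c k) * Y (Sum.inl k) (Sum.inr ()) = 1 := by
        have := congrFun (congrFun hY1 (Sum.inr ())) (Sum.inr ())
        simpa [Matrix.mul_apply, border] using this
      -- `Y₁₂ = - X b Y₂₂`
      have e3 : (fun k => Y (Sum.inl k) (Sum.inr ())) =
          - (X *ᵥ fun i => ρ (b i) * Y (Sum.inr ()) (Sum.inr ())) := by
        have e4 : A.map ρ *ᵥ (fun k => Y (Sum.inl k) (Sum.inr ())) =
            - fun i => ρ (b i) * Y (Sum.inr ()) (Sum.inr ()) := by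
          ext i
          have := e1 i
          simp only [mulVec, dotProduct, Matrix.map_apply, Pi.neg_apply]
          exact eq_neg_of_add_eq_zero_left this
        have e5 := congrArg (fun v => X *ᵥ v) e4
        simp only [mulVec_mulVec, h2, one_mulVec, mulVec_neg] at e5
        exact e5
      have e6 : (fun i => ρ (c i)) ⬝ᵥ (fun k => Y (Sum.inl k) (Sum.inr ())) = 1 := e2
      rw [e3, dotProduct_neg] at e6
      rw [mul_neg, ← e6]
      congr 1
      simp only [dotProduct, mulVec, Finset.sum_mul, mul_assoc]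
    · have e1 : ∀ i, ∑ k, Y (Sum.inr ()) (Sum.inl k) * ρ (A k i) +
          Y (Sum.inr ()) (Sum.inr ()) * ρ (c i) = 0 := by
        intro i
        have := congrFun (congrFun hY2 (Sum.inr ())) (Sum.inl i)
        simpa [Matrix.mul_apply, border] using this
      have e2 : ∑ k, Y (Sum.inr ()) (Sum.inl k) * ρ (b k) = 1 := by
        have := congrFun (congrFun hY2 (Sum.inr ())) (Sum.inr ())
        simpa [Matrix.mul_apply, border] using this
      have e3 : (fun k => Y (Sum.inr ()) (Sum.inl k)) =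
          - ((fun i => Y (Sum.inr ()) (Sum.inr ()) * ρ (c i)) ᵥ* X) := by
        have e4 : (fun k => Y (Sum.inr ()) (Sum.inl k)) ᵥ* A.map ρ =
            - fun i => Y (Sum.inr ()) (Sum.inr ()) * ρ (c i) := by
          ext i
          have := e1 i
          simp only [vecMul, dotProduct, Matrix.map_apply, Pi.neg_apply]
          exact eq_neg_of_add_eq_zero_left this
        have e5 := congrArg (fun v => v ᵥ* X) e4
        simp only [vecMul_vecMul, h1, vecMul_one, neg_vecMul] at e5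
        exact e5
      have e6 : (fun k => Y (Sum.inr ()) (Sum.inl k)) ⬝ᵥ (fun i => ρ (b i)) = 1 := e2
      rw [e3, neg_dotProduct, ← dotProduct_mulVec] at e6
      rw [neg_mul, ← e6]
      congr 1
      simp only [dotProduct, mulVec, Finset.mul_sum, mul_assoc]
  · left
    exact h.bord _ _ _ _ hA hB X h1 h2

/-- The division closure as a subring. -/
def entrySubring (h : GoodFam ρ Good) : Subring Q where
  carrier := {q | IsEntry ρ Good q}
  mul_mem' := fun ha hb => isEntry_mul h ha hb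
  one_mem' := by
    have := isEntry_map h 1
    rwa [map_one] at this
  add_mem' := fun ha hb => isEntry_add h ha hb
  zero_mem' := by
    have := isEntry_map h 0
    rwa [map_zero] at this
  neg_mem' := fun ha => isEntry_neg ha

theorem mem_entrySubring (h : GoodFam ρ Good) {q : Q} :
    q ∈ entrySubring h ↔ IsEntry ρ Good q := Iff.rfl

end

/-- Stability of entries under an involution. -/
theorem isEntry_star [StarRing Q] {ρ : 𝒜 →+* Q}
    {Good : ∀ (ι : Type) [Fintype ι] [DecidableEq ι], Matrix ι ι 𝒜 → Prop}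
    (s : 𝒜 → 𝒜) (hs : ∀ a, ρ (s a) = star (ρ a))
    (hgood : ∀ (ι : Type) [Fintype ι] [DecidableEq ι] (A : Matrix ι ι 𝒜), Good ι A →
      Good ι (of fun i k => s (A k i))) {q : Q} (hq : IsEntry ρ Good q) :
    IsEntry ρ Good (star q) := by
  obtain ⟨ι, _, _, A, c, b, X, hA, h1, h2, rfl⟩ := hq
  have hm : (of fun i k => s (A k i)).map ρ = star (A.map ρ) := by
    ext i k
    simp [hs, Matrix.star_apply]
  refine ⟨ι, inferInstance, inferInstance, of fun i k => s (A k i), fun i => s (b i),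
    fun i => s (c i), star X, hgood _ _ hA, ?_, ?_, ?_⟩
  · rw [hm, ← star_mul, h2, star_one]
  · rw [hm, ← star_mul, h1, star_one]
  · simp only [hs]
    simp only [dotProduct, mulVec, star_sum, star_mul, Matrix.star_apply, Finset.mul_sum,
      Finset.sum_mul]
    rw [Finset.sum_comm]
    simp only [mul_assoc]

end Pool.Agent.H7
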