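import Mathlib

/-!
# Matrices over the free ring evaluated at pairs of matrices
-/

namespace Pool.Agent.H7

open Matrix

noncomputable section

/-- The free ring on two generators. -/
abbrev FA : Type := FreeAlgebra ℤ (Fin 2)

/-- Evaluation of the free ring at a pair of elements. -/
def evM {S : Type*} [Ring S] (x y : S) : FA →+* S := (FreeAlgebra.lift ℤ ![x, y]).toRingHom

@[simp] theorem evM_zero {S : Type*} [Ring S] (x y : S) : evM x y (FreeAlgebra.ι ℤ 0) = x := by
  simp [evM]

@[simp] theorem evM_one {S : Type*} [Ring S] (x y : S) : evM x y (FreeAlgebra.ι ℤ 1) = y := by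
  simp [evM]

theorem FA_hom_ext {S : Type*} [Ring S] {f g : FA →+* S}
    (h0 : f (FreeAlgebra.ι ℤ 0) = g (FreeAlgebra.ι ℤ 0))
    (h1 : f (FreeAlgebra.ι ℤ 1) = g (FreeAlgebra.ι ℤ 1)) : f = g := by
  have h : f.toIntAlgHom = g.toIntAlgHom := by
    apply FreeAlgebra.hom_ext
    funext i
    fin_cases i
    · exact h0
    · exact h1
  ext a
  exact congrArg (fun z : FA →ₐ[ℤ] S => z a) h

theorem comp_evM {S T : Type*} [Ring S] [Ring T] (f : S →+* T) (x y : S) :
    f.comp (evM x y) = evM (f x) (f y) := by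
  apply FA_hom_ext <;> simp

theorem map_evM {S T : Type*} [Ring S] [Ring T] (f : S →+* T) (x y : S) (a : FA) :
    f (evM x y a) = evM (f x) (f y) a := by
  rw [← comp_evM]
  rfl

/-- The swapping anti-automorphism. -/
def sw : FA →+* FAᵐᵒᵖ :=
  evM (MulOpposite.op (FreeAlgebra.ι ℤ 1)) (MulOpposite.op (FreeAlgebra.ι ℤ 0))

/-- The swapping anti-automorphism, as a map. -/
def sF (a : FA) : FA := (sw a).unop

theorem evM_sF {S : Type*} [Ring S] [StarRing S] (x y : S) (a : FA) :
    evM (star y) (star x) (sF a) = star (evM x y a) := by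
  have h : ((RingHom.op (evM (star y) (star x))).comp sw : FA →+* Sᵐᵒᵖ) =
      (starRingEquiv : S ≃+* Sᵐᵒᵖ).toRingHom.comp (evM x y) := by
    apply FA_hom_ext
    · simp [sw]
    · simp [sw]
  exact congrArg (fun z : FA →+* Sᵐᵒᵖ => (z a).unop) h

section dd

variable {ι κ n m : Type} [Fintype ι] [DecidableEq ι] [Fintype κ] [DecidableEq κ]
  [Fintype n] [DecidableEq n] [Fintype m] [DecidableEq m] {R : Type*} [CommRing R]

/-- The determinant of `A` evaluated at a pair of matrices. -/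
def dd (A : Matrix ι ι FA) (X Y : Matrix n n R) : R :=
  (Matrix.comp ι ι n n R (A.map (evM X Y))).det

theorem isUnit_dd_iff (A : Matrix ι ι FA) (X Y : Matrix n n R) :
    IsUnit (dd A X Y) ↔ IsUnit (A.map (evM X Y)) := by
  rw [dd, ← Matrix.isUnit_iff_isUnit_det, Matrix.isUnit_comp_iff]

theorem dd_map {R' : Type*} [CommRing R'] (f : R →+* R') (A : Matrix ι ι FA) (X Y : Matrix n n R) :
    dd A (X.map f) (Y.map f) = f (dd A X Y) := by
  unfold dd
  rw [RingHom.map_det]
  congr 1
  ext ⟨i, k⟩ ⟨j, l⟩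
  simp only [Matrix.comp_apply, Matrix.map_apply, RingHom.mapMatrix_apply]
  have := map_evM (f.mapMatrix (m := n)) X Y (A i j)
  simp only [RingHom.mapMatrix_apply] at this
  rw [← this]
  rfl

/-- The block sum. -/
abbrev bsum (X : Matrix n n R) (Y : Matrix m m R) : Matrix (n ⊕ m) (n ⊕ m) R := fromBlocks X 0 0 Y

/-- The block sum as a ring homomorphism. -/
def bsumHom (n m : Type) [Fintype n] [DecidableEq n] [Fintype m] [DecidableEq m] (R : Type*)
    [CommRing R] : Matrix n n R × Matrix m m R →+* Matrix (n ⊕ m) (n ⊕ m) R where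
  toFun p := bsum p.1 p.2
  map_one' := fromBlocks_one
  map_mul' p q := by simp [bsum, fromBlocks_multiply]
  map_zero' := fromBlocks_zero
  map_add' p q := by simp [bsum, fromBlocks_add]

theorem evM_bsum (X Y : Matrix n n R) (X' Y' : Matrix m m R) (a : FA) :
    evM (bsum X X') (bsum Y Y') a = bsum (evM X Y a) (evM X' Y' a) := by
  have h := map_evM (bsumHom n m R) (X, X') (Y, Y') a
  have h1 : (evM (X, X') (Y, Y') a).1 = evM X Y a :=
    map_evM (RingHom.fst (Matrix n n R) (Matrix m m R)) (X, X') (Y, Y') a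
  have h2 : (evM (X, X') (Y, Y') a).2 = evM X' Y' a :=
    map_evM (RingHom.snd (Matrix n n R) (Matrix m m R)) (X, X') (Y, Y') a
  rw [← h1, ← h2]
  exact h.symm

theorem dd_bsum (A : Matrix ι ι FA) (X Y : Matrix n n R) (X' Y' : Matrix m m R) :
    dd A (bsum X X') (bsum Y Y') = dd A X Y * dd A X' Y' := by
  unfold dd
  rw [← Matrix.det_fromBlocks_zero₂₁ _ 0 _, ← Matrix.det_reindex_self (Equiv.prodSumDistrib ι n m)]
  congr 1
  ext (⟨i, k⟩ | ⟨i, k⟩) (⟨j, l⟩ | ⟨j, l⟩) <;>
  simp [Matrix.comp_apply, evM_bsum]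

theorem evM_reindex (e : n ≃ m) (X Y : Matrix n n R) (a : FA) :
    evM (reindex e e X) (reindex e e Y) a = reindex e e (evM X Y a) :=
  (map_evM (Matrix.reindexAlgEquiv R R e).toAlgHom.toRingHom X Y a).symm

theorem dd_reindex (e : n ≃ m) (A : Matrix ι ι FA) (X Y : Matrix n n R) :
    dd A (reindex e e X) (reindex e e Y) = dd A X Y := by
  unfold dd
  rw [← Matrix.det_reindex_self (Equiv.prodCongr (Equiv.refl ι) e)
    (Matrix.comp ι ι n n R (A.map (evM X Y)))]
  congr 1
  ext ⟨i, k⟩ ⟨j, l⟩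
  simp only [Matrix.comp_apply, Matrix.map_apply, evM_reindex]
  rfl

theorem dd_reindex_left (e : ι ≃ κ) (A : Matrix ι ι FA) (X Y : Matrix n n R) :
    dd (reindex e e A) X Y = dd A X Y := by
  unfold dd
  rw [← Matrix.det_reindex_self (Equiv.prodCongr e (Equiv.refl n))
    (Matrix.comp ι ι n n R (A.map (evM X Y)))]
  rfl

theorem dd_fromBlocks (A : Matrix ι ι FA) (B : Matrix ι κ FA) (D : Matrix κ κ FA)
    (X Y : Matrix n n R) : dd (fromBlocks A B 0 D) X Y = dd A X Y * dd D X Y := by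
  unfold dd
  rw [← Matrix.det_fromBlocks_zero₂₁ _ (Matrix.comp ι κ n n R (B.map (evM X Y))) _,
    ← Matrix.det_reindex_self (Equiv.sumProdDistrib ι κ n)]
  congr 1
  ext (⟨i, k⟩ | ⟨i, k⟩) (⟨j, l⟩ | ⟨j, l⟩) <;>
  simp [Matrix.comp_apply]

theorem dd_one (X Y : Matrix n n R) : dd (1 : Matrix ι ι FA) X Y = 1 := by
  unfold dd
  rw [Matrix.map_one _ (map_zero _) (map_one _), Matrix.comp_one, det_one]

theorem dd_of_isEmpty [IsEmpty n] (A : Matrix ι ι FA) (X Y : Matrix n n R) : dd A X Y = 1 := by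
  unfold dd
  exact det_isEmpty

end dd

section Full

variable {ι κ n m : Type} [Fintype ι] [DecidableEq ι] [Fintype κ] [DecidableEq κ]
  [Fintype n] [DecidableEq n] [Fintype m] [DecidableEq m]

/-- `A` is invertible at some pair of complex matrices with index type `n`. -/
def Full (n : Type) [Fintype n] [DecidableEq n] (A : Matrix ι ι FA) : Prop :=
  ∃ X Y : Matrix n n ℂ, dd A X Y ≠ 0

/-- The generic matrices. -/
def GX (n : Type) (b : Fin 2) : Matrix n n (MvPolynomial (Fin 2 × n × n) ℂ) :=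
  of fun i k => MvPolynomial.X (b, i, k)

/-- The generic determinant. -/
def ddG (n : Type) [Fintype n] [DecidableEq n] (A : Matrix ι ι FA) :
    MvPolynomial (Fin 2 × n × n) ℂ := dd A (GX n 0) (GX n 1)

theorem eval_ddG (A : Matrix ι ι FA) (p : Fin 2 × n × n → ℂ) :
    MvPolynomial.eval p (ddG n A) = dd A (of fun i k => p (0, i, k)) (of fun i k => p (1, i, k)) := by
  unfold ddG
  rw [← dd_map]
  congr 1 <;>
  · ext i k
    simp [GX]

theorem full_iff (A : Matrix ι ι FA) : Full n A ↔ ddG n A ≠ 0 := by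
  constructor
  · rintro ⟨X, Y, h⟩ h0
    have h1 := eval_ddG A (fun p : Fin 2 × n × n => if p.1 = 0 then X p.2.1 p.2.2 else
      Y p.2.1 p.2.2)
    rw [h0, map_zero] at h1
    apply h
    have e1 : (of fun i k => if (0 : Fin 2) = 0 then X i k else Y i k) = X := by
      ext i k
      simp
    have e2 : (of fun i k => if (1 : Fin 2) = 0 then X i k else Y i k) = Y := by
      ext i k
      simp
    simp only [e1, e2] at h1
    exact h1.symm
  · intro h
    by_contra hcon
    apply h
    apply MvPolynomial.funext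
    intro p
    rw [eval_ddG, map_zero]
    by_contra h1
    exact hcon ⟨_, _, h1⟩

theorem full_fromBlocks {A : Matrix ι ι FA} {B : Matrix ι κ FA} {D : Matrix κ κ FA}
    (hA : Full n A) (hD : Full n D) : Full n (fromBlocks A B 0 D) := by
  rw [full_iff] at *
  unfold ddG at *
  rw [dd_fromBlocks]
  exact mul_ne_zero hA hD

theorem full_sum {A : Matrix ι ι FA} (h : Full n A) (h' : Full m A) : Full (n ⊕ m) A := by
  obtain ⟨X, Y, h⟩ := h
  obtain ⟨X', Y', h'⟩ := h'
  exact ⟨bsum X X', bsum Y Y', by rw [dd_bsum]; exact mul_ne_zero h h'⟩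

theorem full_equiv (e : n ≃ m) {A : Matrix ι ι FA} (h : Full n A) : Full m A := by
  obtain ⟨X, Y, h⟩ := h
  exact ⟨reindex e e X, reindex e e Y, by rwa [dd_reindex]⟩

theorem full_add {A : Matrix ι ι FA} {a b : ℕ} (h : Full (Fin a) A) (h' : Full (Fin b) A) :
    Full (Fin (a + b)) A := full_equiv finSumFinEquiv (full_sum h h')

theorem full_zero (A : Matrix ι ι FA) : Full (Fin 0) A :=
  ⟨0, 0, by rw [dd_of_isEmpty]; exact one_ne_zero⟩

theorem full_mul {A : Matrix ι ι FA} {a : ℕ} (h : Full (Fin a) A) (b : ℕ) :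
    Full (Fin (a * b)) A := by
  induction b with
  | zero => exact full_zero A
  | succ b ih =>
    rw [Nat.mul_succ]
    exact full_add ih h

theorem full_dvd {A : Matrix ι ι FA} {a b : ℕ} (h : Full (Fin a) A) (hab : a ∣ b) :
    Full (Fin b) A := by
  obtain ⟨c, rfl⟩ := hab
  exact full_mul h c

theorem full_reindex_left (e : ι ≃ κ) {A : Matrix ι ι FA} :
    Full n (reindex e e A) ↔ Full n A := by
  unfold Full
  simp only [dd_reindex_left]

/-- `A` is invertible at some pair of complex matrices of positive size. -/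
def Good (ι : Type) [Fintype ι] [DecidableEq ι] (A : Matrix ι ι FA) : Prop :=
  ∃ N : ℕ, 0 < N ∧ Full (Fin N) A

theorem good_one : Good Unit 1 := ⟨1, one_pos, 0, 0, by rw [dd_one]; exact one_ne_zero⟩

theorem good_fromBlocks {A : Matrix ι ι FA} {B : Matrix ι κ FA} {D : Matrix κ κ FA}
    (hA : Good ι A) (hD : Good κ D) : Good (ι ⊕ κ) (fromBlocks A B 0 D) := by
  obtain ⟨a, ha, hA⟩ := hA
  obtain ⟨b, hb, hD⟩ := hD
  refine ⟨a * b, Nat.mul_pos ha hb, full_fromBlocks (full_mul hA b) ?_⟩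
  rw [mul_comm]
  exact full_mul hD a

theorem dd_star {A : Matrix ι ι FA} (X Y : Matrix n n ℂ) (h : dd A X Y ≠ 0) :
    dd (of fun i k => sF (A k i)) (star Y) (star X) ≠ 0 := by
  rw [← isUnit_iff_ne_zero, isUnit_dd_iff] at *
  have h1 : (of fun i k => sF (A k i)).map (evM (star Y) (star X)) = star (A.map (evM X Y)) := by
    ext1 i k
    simp only [Matrix.map_apply, Matrix.of_apply, evM_sF, Matrix.star_apply]
  rw [h1]
  exact h.star

theorem good_star {A : Matrix ι ι FA} (h : Good ι A) : Good ι (of fun i k => sF (A k i)) := by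
  obtain ⟨N, hN, X, Y, h⟩ := h
  exact ⟨N, hN, star Y, star X, dd_star X Y h⟩

theorem good_reindex_left (e : ι ≃ κ) {A : Matrix ι ι FA} :
    Good κ (reindex e e A) ↔ Good ι A := by
  unfold Good
  simp only [full_reindex_left]

end Full

end

end Pool.Agent.H7
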