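import Mathlib
import Pool.Agent.GE.Div
import Pool.Agent.GE.Generic
import Pool.Agent.H7.Full
import Pool.Agent.H7.DivClosure

/-!
# Rational expressions in generic matrices are zero or invertible
-/

namespace Pool.Agent.H7

open Matrix Pool.Agent.GE

noncomputable section

variable (N : ℕ)

/-- The field of rational functions. -/
abbrev KF : Type := FR ℂ 2 N

/-- Matrices acting on vectors. -/
def mu : Matrix (Fin (N + 1)) (Fin (N + 1)) (KF N) →+* AddMonoid.End (Fin (N + 1) → KF N) where
  toFun M :=
    { toFun := fun v => M *ᵥ v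
      map_zero' := mulVec_zero _
      map_add' := mulVec_add _ }
  map_one' := by
    ext1 v
    exact one_mulVec v
  map_mul' M M' := by
    ext1 v
    exact (mulVec_mulVec v M M').symm
  map_zero' := by
    ext1 v
    exact zero_mulVec v
  map_add' M M' := by
    ext1 v
    exact add_mulVec M M' v

theorem mu_apply (M : Matrix (Fin (N + 1)) (Fin (N + 1)) (KF N)) (v : Fin (N + 1) → KF N) :
    mu N M v = M *ᵥ v := rfl

/-- The semilinear operator as an element of the endomorphism ring. -/
def UE : AddMonoid.End (Fin (N + 1) → KF N) := Usem ℂ 2 N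

/-- The generic matrices over the field. -/
def XF (j : Fin 2) : Matrix (Fin (N + 1)) (Fin (N + 1)) (KF N) :=
  (XG ℂ 2 N j).map (algebraMap _ (FR ℂ 2 N))

theorem commute_XF (j : Fin 2) : Commute (mu N (XF N j)) (UE N) := by
  show _ = _
  ext1 v
  exact (Usem_comm ℂ 2 N j v).symm

theorem commute_ev (a : FA) : Commute (mu N (evM (XF N 0) (XF N 1) a)) (UE N) := by
  rw [map_evM]
  induction a using FreeAlgebra.induction with
  | grade0 r =>
    have : evM (mu N (XF N 0)) (mu N (XF N 1)) (algebraMap ℤ FA r) = (r : AddMonoid.End _) := by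
      rw [eq_intCast (algebraMap ℤ FA) r, map_intCast]
    rw [this]
    exact Int.cast_commute r _
  | grade1 x =>
    fin_cases x
    · simpa using commute_XF N 0
    · simpa using commute_XF N 1
  | mul a b ha hb => rw [map_mul]; exact ha.mul_left hb
  | add a b ha hb => rw [map_add]; exact ha.add_left hb

variable {ι : Type} [Fintype ι] [DecidableEq ι]

theorem commute_inv {E : Type} [Ring E] (U : E) (A Z : Matrix ι ι E) (h1 : A * Z = 1)
    (h2 : Z * A = 1) (hA : ∀ i k, Commute (A i k) U) (i k : ι) : Commute (Z i k) U := by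
  have hU : A * Matrix.diagonal (fun _ => U) = Matrix.diagonal (fun _ => U) * A := by
    ext i k
    rw [mul_diagonal, diagonal_mul]
    exact hA i k
  have hZ : Z * Matrix.diagonal (fun _ => U) = Matrix.diagonal (fun _ => U) * Z := by
    calc Z * Matrix.diagonal (fun _ => U)
        = Z * Matrix.diagonal (fun _ => U) * (A * Z) := by rw [h1, mul_one]
      _ = Z * (Matrix.diagonal (fun _ => U) * A) * Z := by simp only [Matrix.mul_assoc]
      _ = Z * A * Matrix.diagonal (fun _ => U) * Z := by rw [← hU]; simp only [Matrix.mul_assoc]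
      _ = Matrix.diagonal (fun _ => U) * Z := by rw [h2, one_mul]
  have := congrFun (congrFun hZ i) k
  rw [mul_diagonal, diagonal_mul] at this
  exact this

/-- An endomorphism commuting with the semilinear operator is zero or invertible. -/
theorem zero_or_isUnit (f : Matrix (Fin (N + 1)) (Fin (N + 1)) (KF N))
    (hf : Commute (mu N f) (UE N)) : f = 0 ∨ IsUnit f := by
  let W : Submodule (KF N) (Fin (N + 1) → KF N) := LinearMap.ker f.mulVecLin
  have hW : ∀ v, v ∈ W ↔ f *ᵥ v = 0 := fun v => Iff.rfl
  have hUW : ∀ v ∈ W, Usem ℂ 2 N v ∈ W := by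
    intro v hv
    rw [hW] at *
    have h := congrArg (fun T : AddMonoid.End (Fin (N + 1) → KF N) => T v) hf.eq
    have h' : f *ᵥ (Usem ℂ 2 N v) = Usem ℂ 2 N (f *ᵥ v) := h
    rw [h', hv, map_zero]
  let U : W →+ W :=
    { toFun := fun w => ⟨Usem ℂ 2 N w.1, hUW _ w.2⟩
      map_zero' := Subtype.ext (map_zero _)
      map_add' := fun w w' => Subtype.ext (map_add _ _ _) }
  have hiter : ∀ (i : ℕ) (w : W), (U^[i] w).1 = (Usem ℂ 2 N)^[i] w.1 := by
    intro i w
    induction i with
    | zero => rfl
    | succ i ih =>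
      rw [Function.iterate_succ_apply', Function.iterate_succ_apply', ← ih]
      rfl
  have hdvd := dvd_finrank_of_semilinear (sigF ℂ 2 N) (tau ℂ 2 N) (N + 1)
    (fun θ d h => norm_dvd ℂ 2 N θ d h) (W := W) U
    (fun r w => Subtype.ext (Usem_smul ℂ 2 N r w.1))
    (fun w => Subtype.ext (by
      rw [hiter, Usem_iter_N]
      rfl))
  have hle : Module.finrank (KF N) W ≤ N + 1 := by
    have := Submodule.finrank_le W
    simpa using this
  rcases Nat.eq_zero_or_pos (Module.finrank (KF N) W) with h0 | h0
  · right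
    rw [Submodule.finrank_eq_zero, LinearMap.ker_eq_bot] at h0
    exact (Matrix.mulVec_injective_iff_isUnit (A := f)).1 h0
  · left
    have h1 : Module.finrank (KF N) W = N + 1 := le_antisymm hle (Nat.le_of_dvd h0 hdvd)
    have h2 : W = ⊤ := Submodule.eq_top_of_finrank_eq (by simpa using h1)
    have h3 : f.mulVecLin = 0 := LinearMap.ker_eq_top.1 h2
    have h4 : Matrix.toLin' f = 0 := h3
    exact Matrix.toLin'.injective (by rw [h4, map_zero])

section Adj

variable {n : Type} [Fintype n] [DecidableEq n] {R : Type} [CommRing R]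

/-- The adjugate of `A` evaluated at a pair of matrices, as a matrix of matrices. -/
def adjM (A : Matrix ι ι FA) (X Y : Matrix n n R) : Matrix ι ι (Matrix n n R) :=
  (Matrix.comp ι ι n n R).symm (Matrix.comp ι ι n n R (A.map (evM X Y))).adjugate

theorem mul_adjM (A : Matrix ι ι FA) (X Y : Matrix n n R) :
    A.map (evM X Y) * adjM A X Y = dd A X Y • (1 : Matrix ι ι (Matrix n n R)) := by
  apply (Matrix.compRingEquiv ι n R).injective
  rw [map_mul]
  have h1 : Matrix.compRingEquiv ι n R (adjM A X Y) =
    (Matrix.comp ι ι n n R (A.map (evM X Y))).adjugate := by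
    rw [Matrix.compRingEquiv_apply, adjM, Equiv.apply_symm_apply]
  rw [h1, Matrix.compRingEquiv_apply, Matrix.mul_adjugate, Matrix.compRingEquiv_apply]
  have h2 : Matrix.comp ι ι n n R (dd A X Y • (1 : Matrix ι ι (Matrix n n R))) =
    dd A X Y • Matrix.comp ι ι n n R (1 : Matrix ι ι (Matrix n n R)) := rfl
  rw [h2, Matrix.comp_one]
  rfl

theorem adjM_mul (A : Matrix ι ι FA) (X Y : Matrix n n R) :
    adjM A X Y * A.map (evM X Y) = dd A X Y • (1 : Matrix ι ι (Matrix n n R)) := by
  apply (Matrix.compRingEquiv ι n R).injective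
  rw [map_mul]
  have h1 : Matrix.compRingEquiv ι n R (adjM A X Y) =
    (Matrix.comp ι ι n n R (A.map (evM X Y))).adjugate := by
    rw [Matrix.compRingEquiv_apply, adjM, Equiv.apply_symm_apply]
  rw [h1, Matrix.compRingEquiv_apply, Matrix.adjugate_mul, Matrix.compRingEquiv_apply]
  have h2 : Matrix.comp ι ι n n R (dd A X Y • (1 : Matrix ι ι (Matrix n n R))) =
    dd A X Y • Matrix.comp ι ι n n R (1 : Matrix ι ι (Matrix n n R)) := rfl
  rw [h2, Matrix.comp_one]
  rfl

theorem adjM_map {R' : Type} [CommRing R'] (f : R →+* R') (A : Matrix ι ι FA)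
    (X Y : Matrix n n R) :
    (adjM A X Y).map (f.mapMatrix (m := n)) = adjM A (X.map f) (Y.map f) := by
  have h1 : Matrix.comp ι ι n n R' (A.map (evM (X.map f) (Y.map f))) =
      (Matrix.comp ι ι n n R (A.map (evM X Y))).map f := by
    ext ⟨i, k⟩ ⟨j, l⟩
    simp only [Matrix.comp_apply, Matrix.map_apply]
    have := map_evM (f.mapMatrix (m := n)) X Y (A i j)
    simp only [RingHom.mapMatrix_apply] at this
    rw [← this]
    rfl
  unfold adjM
  rw [h1]
  have h2 := RingHom.map_adjugate f (Matrix.comp ι ι n n R (A.map (evM X Y)))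
  simp only [RingHom.mapMatrix_apply] at h2
  rw [← h2]
  rfl

/-- The element `c adj(A) b`. -/
def sch (A : Matrix ι ι FA) (c b : ι → FA) (X Y : Matrix n n R) : Matrix n n R :=
  (fun i => evM X Y (c i)) ⬝ᵥ (adjM A X Y *ᵥ fun i => evM X Y (b i))

theorem sch_map {R' : Type} [CommRing R'] (f : R →+* R') (A : Matrix ι ι FA) (c b : ι → FA)
    (X Y : Matrix n n R) :
    (sch A c b X Y).map f = sch A c b (X.map f) (Y.map f) := by
  have h0 : ∀ a, (evM X Y a).map f = evM (X.map f) (Y.map f) a := fun a => by
    have := map_evM (f.mapMatrix (m := n)) X Y a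
    simpa only [RingHom.mapMatrix_apply] using this
  have h1 : ∀ i k, (adjM A X Y i k).map f = adjM A (X.map f) (Y.map f) i k := by
    intro i k
    rw [← adjM_map]
    rfl
  show f.mapMatrix (m := n) (sch A c b X Y) = _
  unfold sch
  simp only [dotProduct, mulVec, map_sum, map_mul, RingHom.mapMatrix_apply, h0, h1]

end Adj

/-- Invertibility of a bordered matrix. -/
theorem isUnit_border {E : Type} [Ring E] (A Z : Matrix ι ι E) (c : Matrix Unit ι E)
    (b : Matrix ι Unit E) (g : Matrix Unit Unit E) (h1 : A * Z = 1) (h2 : Z * A = 1)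
    (h3 : c * Z * b * g = 1) (h4 : g * (c * Z * b) = 1) :
    IsUnit (fromBlocks A b c 0) := by
  refine ⟨⟨fromBlocks A b c 0, fromBlocks (Z - Z * b * g * (c * Z)) (Z * b * g) (g * (c * Z)) (-g),
    ?_, ?_⟩, rfl⟩
  · rw [fromBlocks_multiply, ← fromBlocks_one]
    congr 1
    · rw [mul_sub, h1]
      simp only [← Matrix.mul_assoc]
      rw [h1, Matrix.one_mul]
      abel
    · simp only [← Matrix.mul_assoc, h1, Matrix.one_mul]
      rw [Matrix.mul_neg]
      exact add_neg_cancel _
    · rw [Matrix.mul_sub]
      have : c * (Z * b * g * (c * Z)) = c * Z * b * g * (c * Z) := by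
        simp only [Matrix.mul_assoc]
      rw [this, h3, Matrix.one_mul, Matrix.zero_mul, add_zero, sub_self]
    · have : c * (Z * b * g) = c * Z * b * g := by simp only [Matrix.mul_assoc]
      rw [this, h3, Matrix.zero_mul, add_zero]
  · rw [fromBlocks_multiply, ← fromBlocks_one]
    congr 1
    · rw [sub_mul, h2]
      have : Z * b * g * (c * Z) * A = Z * b * g * c := by
        simp only [Matrix.mul_assoc]
        rw [h2, Matrix.mul_one]
      rw [this]
      abel
    · rw [Matrix.sub_mul, Matrix.mul_zero, add_zero]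
      have : Z * b * g * (c * Z) * b = Z * b := by
        calc Z * b * g * (c * Z) * b = Z * b * (g * (c * Z * b)) := by simp only [Matrix.mul_assoc]
          _ = Z * b := by rw [h4, Matrix.mul_one]
      rw [this, sub_self]
    · have : g * (c * Z) * A = g * c := by
        simp only [Matrix.mul_assoc]
        rw [h2, Matrix.mul_one]
      rw [this]
      rw [Matrix.neg_mul]
      exact add_neg_cancel _
    · have : g * (c * Z) * b = 1 := by
        rw [← h4]
        simp only [Matrix.mul_assoc]
      rw [this, Matrix.mul_zero, add_zero]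

section Spec

variable {N} {R : Type} [CommRing R] [Algebra ℂ R]

/-- Specialisation of the generic matrices. -/
def spec (X Y : Matrix (Fin (N + 1)) (Fin (N + 1)) R) : CR ℂ 2 N →+* R :=
  (MvPolynomial.aeval (fun o : Idx 2 N => match o with
    | none => (1 : R)
    | some (j, l, m) => if j = 0 then X l m else Y l m)).toRingHom

theorem XG_spec_zero (X Y : Matrix (Fin (N + 1)) (Fin (N + 1)) R) :
    (XG ℂ 2 N 0).map (spec X Y) = X := by
  ext l m
  simp only [XG, spec, Matrix.map_apply, Matrix.of_apply]
  split_ifs <;> simp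

theorem XG_spec_one (X Y : Matrix (Fin (N + 1)) (Fin (N + 1)) R) :
    (XG ℂ 2 N 1).map (spec X Y) = Y := by
  ext l m
  simp only [XG, spec, Matrix.map_apply, Matrix.of_apply]
  split_ifs <;> simp

theorem full_iff_XG (A : Matrix ι ι FA) :
    Full (Fin (N + 1)) A ↔ dd A (XG ℂ 2 N 0) (XG ℂ 2 N 1) ≠ 0 := by
  constructor
  · rintro ⟨X, Y, h⟩ h0
    apply h
    have h1 := dd_map (spec X Y) A (XG ℂ 2 N 0) (XG ℂ 2 N 1)
    rw [XG_spec_zero, XG_spec_one, h0, map_zero] at h1
    exact h1
  · intro h
    by_contra hcon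
    apply h
    apply MvPolynomial.funext
    intro p
    rw [← dd_map, map_zero]
    by_contra h1
    exact hcon ⟨_, _, h1⟩

end Spec

theorem map_map_XG (j : Fin 2) : (XG ℂ 2 N j).map (algebraMap (CR ℂ 2 N) (KF N)) = XF N j := rfl

/-- **Rational expressions in generic matrices are zero or invertible**: if `A` is invertible at
generic matrices of size `N + 1` and the bordered matrix is not, then the Schur complement
vanishes identically. -/
theorem sch_eq_zero (A : Matrix ι ι FA) (c b : ι → FA) (hA : Full (Fin (N + 1)) A)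
    (hB : ¬ Full (Fin (N + 1)) (border A c b)) {R : Type} [CommRing R] [Algebra ℂ R]
    (X Y : Matrix (Fin (N + 1)) (Fin (N + 1)) R) : sch A c b X Y = 0 := by
  have hinj := IsFractionRing.injective (CR ℂ 2 N) (KF N)
  -- over the field
  have hA1 : dd A (XF N 0) (XF N 1) ≠ 0 := by
    rw [← map_map_XG, ← map_map_XG, dd_map]
    intro h0
    exact (full_iff_XG A).1 hA (hinj (by rw [h0, map_zero]))
  have hB1 : dd (border A c b) (XF N 0) (XF N 1) = 0 := by
    rw [← map_map_XG, ← map_map_XG, dd_map]
    by_contra h0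
    exact hB ((full_iff_XG _).2 (fun h => h0 (by rw [h, map_zero])))
  have hAu : IsUnit (A.map (evM (XF N 0) (XF N 1))) :=
    (isUnit_dd_iff A _ _).1 (isUnit_iff_ne_zero.2 hA1)
  obtain ⟨⟨A', Z, h1, h2⟩, rfl'⟩ := hAu
  have hA' : A' = A.map (evM (XF N 0) (XF N 1)) := rfl'
  subst hA'
  obtain ⟨f, hf⟩ : ∃ f, f = (fun i => evM (XF N 0) (XF N 1) (c i)) ⬝ᵥ
    (Z *ᵥ fun i => evM (XF N 0) (XF N 1) (b i)) := ⟨_, rfl⟩
  have hZc : ∀ i k, Commute (mu N (Z i k)) (UE N) := by
    have e1 : (A.map (evM (XF N 0) (XF N 1))).map (mu N) * Z.map (mu N) = 1 := by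
      have := congrArg (RingHom.mapMatrix (mu N)) h1
      rw [map_mul, map_one] at this
      exact this
    have e2 : Z.map (mu N) * (A.map (evM (XF N 0) (XF N 1))).map (mu N) = 1 := by
      have := congrArg (RingHom.mapMatrix (mu N)) h2
      rw [map_mul, map_one] at this
      exact this
    exact commute_inv (UE N) _ _ e1 e2 (fun i k => commute_ev N (A i k))
  have hfc : Commute (mu N f) (UE N) := by
    rw [hf]
    simp only [dotProduct, mulVec, map_sum, map_mul]
    refine Commute.sum_left _ _ _ fun i _ => ?_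
    refine (commute_ev N (c i)).mul_left (Commute.sum_left _ _ _ fun k _ => ?_)
    exact (hZc i k).mul_left (commute_ev N (b k))
  have hf0 : f = 0 := by
    rcases zero_or_isUnit N f hfc with h0 | ⟨⟨f', g, hfg, hgf⟩, rfl⟩
    · exact h0
    · exfalso
      have hu := isUnit_border (A.map (evM (XF N 0) (XF N 1))) Z
        (of fun _ i => evM (XF N 0) (XF N 1) (c i)) (of fun i _ => evM (XF N 0) (XF N 1) (b i))
        (of fun _ _ => g) h1 h2
        (by
          ext1 _ _
          simp only [Matrix.mul_assoc]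
          rw [← Matrix.mul_assoc, ← Matrix.mul_assoc, Matrix.mul_apply]
          simp only [Finset.univ_unique, Finset.sum_singleton, Matrix.one_apply_eq]
          rw [← hfg]
          congr 1
          rw [Matrix.mul_assoc, Matrix.mul_apply]
          exact hf.symm)
        (by
          ext1 _ _
          rw [Matrix.mul_apply]
          simp only [Finset.univ_unique, Finset.sum_singleton, Matrix.one_apply_eq]
          rw [← hgf]
          congr 1
          rw [Matrix.mul_assoc, Matrix.mul_apply]
          exact hf.symm)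
      have hu2 : IsUnit ((border A c b).map (evM (XF N 0) (XF N 1))) := by
        convert hu using 1
        unfold border
        rw [fromBlocks_map]
        congr 1
        ext1 i k
        simp
      rw [← isUnit_dd_iff, hB1] at hu2
      exact not_isUnit_zero hu2
  have hsF : sch A c b (XF N 0) (XF N 1) = 0 := by
    have e : adjM A (XF N 0) (XF N 1) = dd A (XF N 0) (XF N 1) • Z := by
      calc adjM A (XF N 0) (XF N 1)
          = adjM A (XF N 0) (XF N 1) * (A.map (evM (XF N 0) (XF N 1)) * Z) := by
            rw [h1, mul_one]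
        _ = dd A (XF N 0) (XF N 1) • Z := by
            rw [← Matrix.mul_assoc, adjM_mul, smul_mul_assoc, one_mul]
    unfold sch
    rw [e, smul_mulVec, dotProduct_smul, ← hf, hf0, smul_zero]
  have hsC : sch A c b (XG ℂ 2 N 0) (XG ℂ 2 N 1) = 0 := by
    have e := sch_map (algebraMap (CR ℂ 2 N) (KF N)) A c b (XG ℂ 2 N 0) (XG ℂ 2 N 1)
    rw [map_map_XG, map_map_XG, hsF] at e
    ext1 i k
    apply hinj
    have := congrFun (congrFun e i) k
    simpa using this
  have e := sch_map (spec X Y) A c b (XG ℂ 2 N 0) (XG ℂ 2 N 1)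
  rw [hsC, XG_spec_zero, XG_spec_one] at e
  rw [← e]
  ext i k
  simp

end

end Pool.Agent.H7
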