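import Mathlib
import Pool.Agent.H7.Full

/-!
# Minimal exponents
-/

namespace Pool.Agent.H7

open Matrix Polynomial

set_option linter.unusedSectionVars false

noncomputable section

section Form

variable {n m : Type} [Fintype n] [DecidableEq n] [Fintype m] [DecidableEq m]

section NC

variable {R S T : Type} [Ring R] [Ring S] [Ring T]

/-- The diagonal matrix with `w` in place `i₀` and `1` elsewhere. -/
def Dl (i₀ : n) (w : R) : Matrix n n R := diagonal (Function.update 1 i₀ w)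

theorem Dl_one (i₀ : n) : Dl i₀ (1 : R) = 1 := by
  unfold Dl
  rw [show (1 : R) = (1 : n → R) i₀ from rfl, Function.update_eq_self]
  exact diagonal_one

theorem Dl_map (f : R →+* S) (i₀ : n) (w : R) : (Dl i₀ w).map f = Dl i₀ (f w) := by
  unfold Dl
  rw [diagonal_map (map_zero f)]
  congr 1
  funext i
  by_cases h : i = i₀
  · subst h
    simp
  · simp [Function.update_of_ne h]

/-- `G Δ(w) G'`. -/
def Form (i₀ : n) (w : S) (f : R →+* S) (G G' : Matrix n n R) : Matrix n n S :=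
  G.map f * Dl i₀ w * G'.map f

theorem Form_map (g : S →+* T) (i₀ : n) (w : S) (f : R →+* S) (G G' : Matrix n n R) :
    (Form i₀ w f G G').map g = Form i₀ (g w) (g.comp f) G G' := by
  unfold Form
  rw [Matrix.map_mul, Matrix.map_mul, Dl_map]
  rfl

theorem Form_comp (g : T →+* R) (i₀ : n) (w : S) (f : R →+* S) (G G' : Matrix n n T) :
    Form i₀ w f (G.map g) (G'.map g) = Form i₀ w (f.comp g) G G' := rfl

theorem Form_const (i₀ : n) (c : R) (f : R →+* S) (G G' : Matrix n n R) :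
    Form i₀ (f c) f G G' = (G * Dl i₀ c * G').map f := by
  unfold Form
  rw [Matrix.map_mul, Matrix.map_mul, Dl_map]

theorem Form_one (i₀ : n) (f : R →+* S) (G G' : Matrix n n R) :
    Form i₀ 1 f G G' = (G * G').map f := by
  unfold Form
  rw [Dl_one, Matrix.map_mul, mul_one]

theorem Form_reindex (e : n ≃ m) (i₀ : n) (w : S) (f : R →+* S) (G G' : Matrix n n R) :
    reindex e e (Form i₀ w f G G') = Form (e i₀) w f (reindex e e G) (reindex e e G') := by
  unfold Form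
  have h1 : (reindex e e G).map f = reindex e e (G.map f) := rfl
  have h2 : (reindex e e G').map f = reindex e e (G'.map f) := rfl
  have h3 : Dl (e i₀) w = reindex e e (Dl i₀ w) := by
    ext i k
    simp only [Dl, reindex_apply, submatrix_apply, diagonal_apply, Function.update_apply,
      EmbeddingLike.apply_eq_iff_eq, Equiv.symm_apply_eq]
    split_ifs <;> simp_all
  rw [h1, h2, h3]
  simp only [reindex_apply, submatrix_mul_equiv]

theorem Form_swap (i₀ z : n) (w : S) (f : R →+* S) (G G' : Matrix n n R) :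
    Form i₀ w f G G' = Form z w f (G.submatrix id (Equiv.swap i₀ z))
      (G'.submatrix (Equiv.swap i₀ z) id) := by
  unfold Form Dl
  ext i k
  rw [Matrix.mul_apply, Matrix.mul_apply, ← Equiv.sum_comp (Equiv.swap i₀ z)]
  refine Finset.sum_congr rfl fun l _ => ?_
  rw [mul_diagonal, mul_diagonal]
  simp only [Matrix.map_apply, submatrix_apply, id]
  congr 2
  simp only [Function.update_apply, Pi.one_apply]
  have h : Equiv.swap i₀ z l = i₀ ↔ l = z := by
    rw [Equiv.swap_apply_eq_iff, Equiv.swap_apply_left]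
  simp only [h]

end NC

variable {R S T : Type} [CommRing R] [CommRing S] [CommRing T]

theorem Dl_inl (i₀ : n) (w : R) : Dl (Sum.inl i₀ : n ⊕ m) w = bsum (Dl i₀ w) 1 := by
  unfold Dl bsum
  rw [← diagonal_one, fromBlocks_diagonal]
  congr 1
  funext i
  rcases i with i | i
  · simp [Function.update_apply]
  · simp [Function.update_apply]

theorem Dl_inr (i₀ : m) (w : R) : Dl (Sum.inr i₀ : n ⊕ m) w = bsum 1 (Dl i₀ w) := by
  unfold Dl bsum
  rw [← diagonal_one, fromBlocks_diagonal]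
  congr 1
  funext i
  rcases i with i | i
  · simp [Function.update_apply]
  · simp [Function.update_apply]

theorem bsum_map (f : R →+* S) (X : Matrix n n R) (Y : Matrix m m R) :
    (bsum X Y).map f = bsum (X.map f) (Y.map f) := by
  unfold bsum
  rw [fromBlocks_map, Matrix.map_zero _ (map_zero f), Matrix.map_zero _ (map_zero f)]

theorem bsum_mul (X X' : Matrix n n R) (Y Y' : Matrix m m R) :
    bsum X Y * bsum X' Y' = bsum (X * X') (Y * Y') := by
  unfold bsum
  rw [fromBlocks_multiply]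
  simp

theorem Form_inl (i₀ : n) (w : S) (f : R →+* S) (G G' : Matrix n n R) (X : Matrix m m R) :
    Form (Sum.inl i₀ : n ⊕ m) w f (bsum G X) (bsum G' 1) = bsum (Form i₀ w f G G') (X.map f) := by
  unfold Form
  rw [Dl_inl, bsum_map, bsum_map, bsum_mul, bsum_mul]
  simp [Matrix.map_one]

theorem Form_inr (i₀ : m) (w : S) (f : R →+* S) (G G' : Matrix m m R) (X : Matrix n n R) :
    Form (Sum.inr i₀ : n ⊕ m) w f (bsum X G) (bsum 1 G') = bsum (X.map f) (Form i₀ w f G G') := by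
  unfold Form
  rw [Dl_inr, bsum_map, bsum_map, bsum_mul, bsum_mul]
  simp [Matrix.map_one]

end Form

section KL

variable {ι : Type} [Fintype ι] [DecidableEq ι] {n m : Type} [Fintype n] [DecidableEq n]
  [Fintype m] [DecidableEq m] {R : Type} [CommRing R]

/-- Constants in `R[u'][u]`. -/
abbrev CC (R : Type) [CommRing R] : R →+* R[X][X] := (C : R[X] →+* R[X][X]).comp C

/-- The polynomial `det A(G Δ(u) G', H Δ(u') H')`. -/
def DD (A : Matrix ι ι FA) (i₀ i₁ : n) (G G' H H' : Matrix n n R) : R[X][X] :=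
  dd A (Form i₀ X (CC R) G G') (Form i₁ (C X) (CC R) H H')

/-- The coefficient of `u^i u'^j`. -/
def cf (p : R[X][X]) (i j : ℕ) : R := (p.coeff i).coeff j

theorem DD_map {R' : Type} [CommRing R'] (f : R →+* R') (A : Matrix ι ι FA) (i₀ i₁ : n)
    (G G' H H' : Matrix n n R) :
    DD A i₀ i₁ (G.map f) (G'.map f) (H.map f) (H'.map f) =
      mapRingHom (mapRingHom f) (DD A i₀ i₁ G G' H H') := by
  have h1 : (mapRingHom (mapRingHom f)).comp (CC R) = (CC R').comp f := by
    ext a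
    simp
  have e1 : Form i₀ X (CC R') (G.map f) (G'.map f) =
      (Form i₀ X (CC R) G G').map (mapRingHom (mapRingHom f)) := by
    rw [Form_map, h1, coe_mapRingHom, map_X]
    rfl
  have e2 : Form i₁ (C X) (CC R') (H.map f) (H'.map f) =
      (Form i₁ (C X) (CC R) H H').map (mapRingHom (mapRingHom f)) := by
    rw [Form_map, h1, coe_mapRingHom, map_C, coe_mapRingHom, map_X]
    rfl
  show dd A (Form i₀ X (CC R') (G.map f) (G'.map f))
    (Form i₁ (C X) (CC R') (H.map f) (H'.map f)) = _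
  rw [e1, e2]
  exact dd_map _ _ _ _

theorem cf_DD_map {R' : Type} [CommRing R'] (f : R →+* R') (A : Matrix ι ι FA) (i₀ i₁ : n)
    (G G' H H' : Matrix n n R) (i j : ℕ) :
    cf (DD A i₀ i₁ (G.map f) (G'.map f) (H.map f) (H'.map f)) i j =
      f (cf (DD A i₀ i₁ G G' H H') i j) := by
  rw [DD_map]
  simp [cf]

/-- Specialisation at `u' = c`. -/
theorem DD_eval_inner (c : R) (A : Matrix ι ι FA) (i₀ i₁ : n) (G G' H H' : Matrix n n R) :
    mapRingHom (evalRingHom c) (DD A i₀ i₁ G G' H H') =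
      dd A (Form i₀ X C G G') ((H * Dl i₁ c * H').map C) := by
  unfold DD
  rw [← dd_map, Form_map, Form_map]
  have h1 : (mapRingHom (evalRingHom c)).comp (CC R) = C := by
    ext a
    simp
  rw [h1]
  congr 1
  · rw [coe_mapRingHom, map_X]
  · rw [coe_mapRingHom, map_C, coe_evalRingHom, eval_X, Form_const]

/-- Specialisation at `u = c`. -/
theorem DD_eval_outer (c : R) (A : Matrix ι ι FA) (i₀ i₁ : n) (G G' H H' : Matrix n n R) :
    evalRingHom (C c) (DD A i₀ i₁ G G' H H') =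
      dd A ((G * Dl i₀ c * G').map C) (Form i₁ X C H H') := by
  unfold DD
  rw [← dd_map, Form_map, Form_map]
  have h1 : (evalRingHom (C c : R[X])).comp (CC R) = C := by
    ext a
    simp
  rw [h1]
  congr 1
  · rw [coe_evalRingHom, eval_X, Form_const]
  · rw [coe_evalRingHom, eval_C]

/-- One-sided attainment of exponents. -/
def AttU (n : Type) [Fintype n] [DecidableEq n] (A : Matrix ι ι FA) (a : ℕ) : Prop :=
  ∃ (i₀ : n) (G G' Y : Matrix n n ℂ), (dd A (Form i₀ X C G G') (Y.map C) : ℂ[X]).coeff a ≠ 0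

/-- One-sided attainment of exponents. -/
def AttV (n : Type) [Fintype n] [DecidableEq n] (A : Matrix ι ι FA) (b : ℕ) : Prop :=
  ∃ (i₁ : n) (H H' Y : Matrix n n ℂ), (dd A (Y.map C) (Form i₁ X C H H') : ℂ[X]).coeff b ≠ 0

/-- Two-sided attainment of exponents. -/
def Att (n : Type) [Fintype n] [DecidableEq n] (A : Matrix ι ι FA) (a b : ℕ) : Prop :=
  ∃ (i₀ i₁ : n) (G G' H H' : Matrix n n ℂ), cf (DD A i₀ i₁ G G' H H') a b ≠ 0

theorem attU_of {A : Matrix ι ι FA} {a b : ℕ} (h : Att n A a b) : AttU n A a := by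
  obtain ⟨i₀, i₁, G, G', H, H', h⟩ := h
  have h1 : (DD A i₀ i₁ G G' H H').coeff a ≠ 0 := by
    intro h0
    apply h
    rw [cf, h0, coeff_zero]
  obtain ⟨c, hc⟩ : ∃ c, eval c ((DD A i₀ i₁ G G' H H').coeff a) ≠ 0 := by
    by_contra hcon
    push Not at hcon
    exact h1 (Polynomial.funext fun c => by rw [hcon c, eval_zero])
  refine ⟨i₀, G, G', H * Dl i₁ c * H', ?_⟩
  rw [← DD_eval_inner, coe_mapRingHom, coeff_map]
  exact hc

theorem attV_of {A : Matrix ι ι FA} {a b : ℕ} (h : Att n A a b) : AttV n A b := by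
  obtain ⟨i₀, i₁, G, G', H, H', h⟩ := h
  obtain ⟨D, hD⟩ : ∃ D, D = DD A i₀ i₁ G G' H H' := ⟨_, rfl⟩
  rw [← hD] at h
  obtain ⟨q, hq⟩ : ∃ q : ℂ[X], ∀ i, q.coeff i = cf D i b := by
    refine ⟨∑ i ∈ Finset.range (D.natDegree + 1), monomial i (cf D i b), fun i => ?_⟩
    rw [finsetSum_coeff]
    simp only [coeff_monomial]
    rw [Finset.sum_ite_eq']
    split_ifs with hi
    · rfl
    · have h0 : D.coeff i = 0 := coeff_eq_zero_of_natDegree_lt (by simpa using hi)
      rw [cf, h0, coeff_zero]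
  have hq0 : q ≠ 0 := by
    intro h0
    apply h
    rw [← hq, h0, coeff_zero]
  obtain ⟨c, hc⟩ : ∃ c, eval c q ≠ 0 := by
    by_contra hcon
    push Not at hcon
    exact hq0 (Polynomial.funext fun c => by rw [hcon c, eval_zero])
  refine ⟨i₁, H, H', G * Dl i₀ c * G', ?_⟩
  rw [← DD_eval_outer, coe_evalRingHom, ← hD]
  have h2 : (eval (C c) D).coeff b = eval c q := by
    rw [eval_eq_sum_range' (n := max D.natDegree q.natDegree + 1) (by omega),
      eval_eq_sum_range' (n := max D.natDegree q.natDegree + 1) (by omega), finsetSum_coeff]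
    refine Finset.sum_congr rfl fun i _ => ?_
    rw [← C_pow, coeff_mul_C, hq]
    rfl
  rw [h2]
  exact hc

theorem full_of_attU {A : Matrix ι ι FA} {a : ℕ} (h : AttU n A a) : Full n A := by
  obtain ⟨i₀, G, G', Y, h⟩ := h
  have h1 : (dd A (Form i₀ X C G G') (Y.map C) : ℂ[X]) ≠ 0 := by
    intro h0
    apply h
    rw [h0, coeff_zero]
  obtain ⟨c, hc⟩ : ∃ c, eval c (dd A (Form i₀ X C G G') (Y.map C) : ℂ[X]) ≠ 0 := by
    by_contra hcon
    push Not at hcon
    exact h1 (Polynomial.funext fun c => by rw [hcon c, eval_zero])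
  rw [← coe_evalRingHom, ← dd_map] at hc
  exact ⟨_, _, hc⟩

theorem full_of_attV {A : Matrix ι ι FA} {a : ℕ} (h : AttV n A a) : Full n A := by
  obtain ⟨i₀, G, G', Y, h⟩ := h
  have h1 : (dd A (Y.map C) (Form i₀ X C G G') : ℂ[X]) ≠ 0 := by
    intro h0
    apply h
    rw [h0, coeff_zero]
  obtain ⟨c, hc⟩ : ∃ c, eval c (dd A (Y.map C) (Form i₀ X C G G') : ℂ[X]) ≠ 0 := by
    by_contra hcon
    push Not at hcon
    exact h1 (Polynomial.funext fun c => by rw [hcon c, eval_zero])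
  rw [← coe_evalRingHom, ← dd_map] at hc
  exact ⟨_, _, hc⟩

theorem dd_map_C (A : Matrix ι ι FA) (X Y : Matrix n n ℂ) :
    dd A (X.map (C : ℂ →+* ℂ[X])) (Y.map (C : ℂ →+* ℂ[X])) = C (dd A X Y) := dd_map _ _ _ _

theorem attU_add {A : Matrix ι ι FA} {a : ℕ} (h : AttU n A a) (h' : Full m A) :
    AttU (n ⊕ m) A a := by
  obtain ⟨i₀, G, G', Y, h⟩ := h
  obtain ⟨X', Y', h'⟩ := h'
  refine ⟨Sum.inl i₀, bsum G X', bsum G' 1, bsum Y Y', ?_⟩
  rw [Form_inl, bsum_map, dd_bsum, dd_map_C, coeff_mul_C]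
  exact mul_ne_zero h h'

theorem attV_add {A : Matrix ι ι FA} {a : ℕ} (h : AttV n A a) (h' : Full m A) :
    AttV (n ⊕ m) A a := by
  obtain ⟨i₀, G, G', Y, h⟩ := h
  obtain ⟨X', Y', h'⟩ := h'
  refine ⟨Sum.inl i₀, bsum G Y', bsum G' 1, bsum Y X', ?_⟩
  rw [Form_inl, bsum_map, dd_bsum, dd_map_C, coeff_mul_C]
  exact mul_ne_zero h h'

theorem Form_CC_left (i₀ : n) (G G' : Matrix n n ℂ) :
    Form i₀ X (CC ℂ) G G' = (Form i₀ X C G G').map (mapRingHom (C : ℂ →+* ℂ[X])) := by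
  have h : (mapRingHom (C : ℂ →+* ℂ[X])).comp C = CC ℂ := by
    ext a
    simp
  rw [Form_map, h, coe_mapRingHom, map_X]

theorem Form_CC_right (i₀ : n) (G G' : Matrix n n ℂ) :
    Form i₀ (C X) (CC ℂ) G G' = (Form i₀ X C G G').map (C : ℂ[X] →+* ℂ[X][X]) := by
  rw [Form_map]

theorem map_CC_left (Y : Matrix n n ℂ) :
    Y.map (CC ℂ) = (Y.map (C : ℂ →+* ℂ[X])).map (mapRingHom (C : ℂ →+* ℂ[X])) := by
  ext1 i k
  simp only [Matrix.map_apply, coe_mapRingHom, map_C]
  rfl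

theorem map_CC_right (Y : Matrix n n ℂ) :
    Y.map (CC ℂ) = (Y.map (C : ℂ →+* ℂ[X])).map (C : ℂ[X] →+* ℂ[X][X]) := rfl

theorem att_add {A : Matrix ι ι FA} {a b : ℕ} (h : AttU n A a) (h' : AttV m A b) :
    Att (n ⊕ m) A a b := by
  obtain ⟨i₀, G, G', Y, h⟩ := h
  obtain ⟨i₁, H, H', Y', h'⟩ := h'
  refine ⟨Sum.inl i₀, Sum.inr i₁, bsum G Y', bsum G' 1, bsum Y H, bsum 1 H', ?_⟩
  have e : DD A (Sum.inl i₀) (Sum.inr i₁) (bsum G Y') (bsum G' 1) (bsum Y H) (bsum 1 H') =
      mapRingHom (C : ℂ →+* ℂ[X]) (dd A (Form i₀ X C G G') (Y.map C)) *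
        C (dd A (Y'.map C) (Form i₁ X C H H')) := by
    unfold DD
    rw [Form_inl, Form_inr, dd_bsum, Form_CC_left, map_CC_left Y, dd_map, Form_CC_right,
      map_CC_right Y', dd_map]
  rw [e, cf, coeff_mul_C, coe_mapRingHom, coeff_map, coeff_C_mul]
  exact mul_ne_zero h h'

theorem attU_equiv (e : n ≃ m) {A : Matrix ι ι FA} {a : ℕ} (h : AttU n A a) : AttU m A a := by
  obtain ⟨i₀, G, G', Y, h⟩ := h
  refine ⟨e i₀, reindex e e G, reindex e e G', reindex e e Y, ?_⟩
  rw [← Form_reindex]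
  have h1 : (reindex e e Y).map (C : ℂ →+* ℂ[X]) = reindex e e (Y.map C) := rfl
  rw [h1, dd_reindex]
  exact h

theorem attV_equiv (e : n ≃ m) {A : Matrix ι ι FA} {a : ℕ} (h : AttV n A a) : AttV m A a := by
  obtain ⟨i₀, G, G', Y, h⟩ := h
  refine ⟨e i₀, reindex e e G, reindex e e G', reindex e e Y, ?_⟩
  rw [← Form_reindex]
  have h1 : (reindex e e Y).map (C : ℂ →+* ℂ[X]) = reindex e e (Y.map C) := rfl
  rw [h1, dd_reindex]
  exact h

theorem att_equiv (e : n ≃ m) {A : Matrix ι ι FA} {a b : ℕ} (h : Att n A a b) : Att m A a b := by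
  obtain ⟨i₀, i₁, G, G', H, H', h⟩ := h
  refine ⟨e i₀, e i₁, reindex e e G, reindex e e G', reindex e e H, reindex e e H', ?_⟩
  unfold DD
  rw [← Form_reindex, ← Form_reindex, dd_reindex]
  exact h

theorem attU_mul {A : Matrix ι ι FA} {a N : ℕ} (h : AttU (Fin N) A a) (k : ℕ) :
    AttU (Fin (N * (k + 1))) A a := by
  have h1 := attU_add h (full_mul (full_of_attU h) k)
  have e : Fin N ⊕ Fin (N * k) ≃ Fin (N * (k + 1)) :=
    finSumFinEquiv.trans (finCongr (by ring))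
  exact attU_equiv e h1

theorem attV_mul {A : Matrix ι ι FA} {a N : ℕ} (h : AttV (Fin N) A a) (k : ℕ) :
    AttV (Fin (N * (k + 1))) A a := by
  have h1 := attV_add h (full_mul (full_of_attV h) k)
  have e : Fin N ⊕ Fin (N * k) ≃ Fin (N * (k + 1)) :=
    finSumFinEquiv.trans (finCongr (by ring))
  exact attV_equiv e h1

/-- **Key lemma**: the minimal exponents of `u` and `u'` are attained simultaneously, in all sizes
divisible by a certain number and large enough. -/
theorem exists_min {A : Matrix ι ι FA} (hA : Good ι A) : ∃ a b s : ℕ, 0 < s ∧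
    (∀ (N : ℕ) (i₀ i₁ : Fin N) (G G' H H' : Matrix (Fin N) (Fin N) ℂ) (i j : ℕ),
      (i < a ∨ j < b) → cf (DD A i₀ i₁ G G' H H') i j = 0) ∧
    ∀ N, s ∣ N → 2 * s ≤ N → Att (Fin N) A a b := by
  classical
  -- some coefficient is nonzero
  obtain ⟨N, hN, Y, Y', hY⟩ := hA
  have hex : ∃ (a b : ℕ), Att (Fin N) A a b := by
    by_contra hcon
    push Not at hcon
    let z : Fin N := ⟨0, hN⟩
    have h0 : DD A z z Y 1 Y' 1 = 0 := by
      ext i j
      by_contra h
      exact hcon i j ⟨z, z, Y, 1, Y', 1, h⟩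
    have h1 := DD_eval_outer 1 A z z Y 1 Y' 1
    rw [h0, map_zero, Dl_one] at h1
    have h2 := congrArg (evalRingHom (1 : ℂ)) h1
    rw [map_zero, ← dd_map, Form_map] at h2
    apply hY
    rw [h2]
    congr 1
    · ext i k
      simp
    · rw [coe_evalRingHom, eval_X]
      have h3 : (evalRingHom (1 : ℂ)).comp C = RingHom.id ℂ := by
        ext a
        simp
      rw [h3, Form_one]
      ext i k
      simp
  obtain ⟨a₀, b₀, hab⟩ := hex
  have ea : ∃ a, ∃ (N b : ℕ), Att (Fin N) A a b := ⟨a₀, N, b₀, hab⟩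
  have eb : ∃ b, ∃ (N a : ℕ), Att (Fin N) A a b := ⟨b₀, N, a₀, hab⟩
  obtain ⟨N₁, b₁, h1⟩ := Nat.find_spec ea
  obtain ⟨N₂, a₂, h2⟩ := Nat.find_spec eb
  have hN₁ : 0 < N₁ := by
    obtain ⟨i₀, _⟩ := h1
    exact Fin.pos i₀
  have hN₂ : 0 < N₂ := by
    obtain ⟨i₀, _⟩ := h2
    exact Fin.pos i₀
  refine ⟨Nat.find ea, Nat.find eb, N₁ * N₂, Nat.mul_pos hN₁ hN₂, ?_, ?_⟩
  · intro M i₀ i₁ G G' H H' i j hij
    by_contra hne
    rcases hij with hi | hj
    · exact Nat.find_min ea hi ⟨M, j, i₀, i₁, G, G', H, H', hne⟩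
    · exact Nat.find_min eb hj ⟨M, i, i₀, i₁, G, G', H, H', hne⟩
  · rintro M ⟨r, rfl⟩ hM
    have hU := attU_of h1
    have hV := attV_of h2
    have hr : 2 ≤ r := by
      by_contra hr
      have h3 : r ≤ 1 := by omega
      have h4 : N₁ * N₂ * r ≤ N₁ * N₂ * 1 := Nat.mul_le_mul_left _ h3
      have h5 : 0 < N₁ * N₂ := Nat.mul_pos hN₁ hN₂
      omega
    obtain ⟨k₁, hk₁⟩ : ∃ k₁, N₂ * (r - 1) = k₁ + 1 :=
      ⟨N₂ * (r - 1) - 1, (Nat.succ_pred_eq_of_pos (Nat.mul_pos hN₂ (by omega))).symm⟩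
    obtain ⟨k₂, hk₂⟩ : ∃ k₂, N₁ = k₂ + 1 := ⟨N₁ - 1, by omega⟩
    have h3 := att_add (attU_mul hU k₁) (attV_mul hV k₂)
    rw [← hk₁, ← hk₂] at h3
    have e : N₁ * (N₂ * (r - 1)) + N₂ * N₁ = N₁ * N₂ * r := by
      obtain ⟨r', rfl⟩ : ∃ r', r = r' + 1 := ⟨r - 1, by omega⟩
      simp only [Nat.add_sub_cancel]
      ring
    exact att_equiv (finSumFinEquiv.trans (finCongr e)) h3

end KL

end

end Pool.Agent.H7
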