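import Mathlib

/-!
# The ideal generated by a rank one projection is regular
-/

namespace Pool.Agent.H7

open Matrix

section

variable {E : Type} [Ring E]

/-- `x` is a finite sum of elements `a * e * b`. -/
def InI (e x : E) : Prop :=
  ∃ (ι : Type) (_ : Fintype ι) (a b : ι → E), x = ∑ i, a i * e * b i

theorem InI.zero (e : E) : InI e 0 := ⟨Empty, inferInstance, Empty.elim, Empty.elim, by simp⟩

theorem InI.add {e x y : E} (hx : InI e x) (hy : InI e y) : InI e (x + y) := by
  obtain ⟨ι, _, a, b, rfl⟩ := hx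
  obtain ⟨κ, _, c, d, rfl⟩ := hy
  refine ⟨ι ⊕ κ, inferInstance, Sum.elim a c, Sum.elim b d, ?_⟩
  rw [Fintype.sum_sum_type]
  simp

theorem InI.mul_left {e x : E} (hx : InI e x) (y : E) : InI e (y * x) := by
  obtain ⟨ι, _, a, b, rfl⟩ := hx
  refine ⟨ι, inferInstance, fun i => y * a i, b, ?_⟩
  rw [Finset.mul_sum]
  simp only [mul_assoc]

theorem InI.mul_right {e x : E} (hx : InI e x) (y : E) : InI e (x * y) := by
  obtain ⟨ι, _, a, b, rfl⟩ := hx
  refine ⟨ι, inferInstance, a, fun i => b i * y, ?_⟩
  rw [Finset.sum_mul]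
  simp only [mul_assoc]

theorem InI.star [StarRing E] {e x : E} (he : star e = e) (hx : InI e x) :
    InI e (star x) := by
  obtain ⟨ι, _, a, b, rfl⟩ := hx
  refine ⟨ι, inferInstance, fun i => Star.star (b i), fun i => Star.star (a i), ?_⟩
  rw [star_sum]
  simp only [star_mul, he, mul_assoc]

theorem InI.self (e : E) : InI e e :=
  ⟨Unit, inferInstance, fun _ => 1, fun _ => 1, by simp⟩

/-- The two-sided ideal of all `x` with `InI e x`. -/
def idealE (e : E) : Ideal E where
  carrier := {x | InI e x}
  add_mem' := fun ha hb => ha.add hb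
  zero_mem' := InI.zero e
  smul_mem' := fun c _ hx => hx.mul_left c

theorem mem_idealE {e x : E} : x ∈ idealE e ↔ InI e x := Iff.rfl

instance (e : E) : (idealE e).IsTwoSided where
  mul_mem_of_left := fun {_} b ha => InI.mul_right ha b

variable {k : Type} [Field k] [Algebra k E] [StarRing E]

/-- Every element of the ideal generated by a rank one projection has a quasi-inverse in this
ideal. -/
theorem exists_quasi_inverse {e : E} (he : e * e = e) (hes : star e = e)
    (hrk : ∀ x : E, ∃ c : k, e * x * e = c • e) (hprop : ∀ x : E, star x * x = 0 → x = 0) :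
    ∀ {f : E}, InI e f → ∃ g, InI e g ∧ f * g * f = f := by
  suffices H : ∀ (n : ℕ) (ι : Type) [Fintype ι], Fintype.card ι = n → ∀ (a b : ι → E),
      ∃ g, InI e g ∧ (∑ i, a i * e * b i) * g * (∑ i, a i * e * b i) = ∑ i, a i * e * b i by
    rintro f ⟨ι, _, a, b, rfl⟩
    exact H _ ι rfl a b
  intro n
  induction n with
  | zero =>
    intro ι _ hι a b
    have : IsEmpty ι := Fintype.card_eq_zero_iff.1 hι
    exact ⟨0, InI.zero e, by simp⟩
  | succ n ih =>
    intro ι _ hι a b
    classical
    obtain ⟨f, hf⟩ : ∃ f, f = ∑ i, a i * e * b i := ⟨_, rfl⟩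
    rw [← hf]
    by_cases hf0 : ∀ x, f * x * e = 0
    · have h1 : f * star f = 0 := by
        have : star f = ∑ i, star (b i) * e * star (a i) := by
          rw [hf, star_sum]
          simp only [star_mul, hes, mul_assoc]
        rw [this, Finset.mul_sum]
        refine Finset.sum_eq_zero fun i _ => ?_
        rw [← mul_assoc, ← mul_assoc, hf0, zero_mul]
      have h2 : star f = 0 := hprop _ (by rw [star_star, h1])
      have h3 : f = 0 := by rw [← star_star f, h2, star_zero]
      exact ⟨0, InI.zero e, by simp [h3]⟩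
    · push Not at hf0
      obtain ⟨x, hx⟩ := hf0
      obtain ⟨w, hw⟩ : ∃ w, w = f * x * e := ⟨_, rfl⟩
      rw [← hw] at hx
      have hwe : w * e = w := by rw [hw, mul_assoc, he]
      have hew : e * star w = star w := by
        have h := congrArg star hwe
        rwa [star_mul, hes] at h
      obtain ⟨c, hc⟩ := hrk (star w * w)
      have hc' : star w * w = c • e := by
        rw [← hc, mul_assoc, mul_assoc, hwe, ← mul_assoc, hew]
      have hc0 : c ≠ 0 := by
        rintro rfl
        rw [zero_smul] at hc'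
        exact hx (hprop w hc')
      choose κ hκ using fun i => hrk (b i * x)
      have hwsum : w = ∑ i, κ i • (a i * e) := by
        rw [hw, hf, Finset.sum_mul, Finset.sum_mul]
        refine Finset.sum_congr rfl fun i _ => ?_
        have := hκ i
        calc a i * e * b i * x * e = a i * (e * (b i * x) * e) := by simp only [mul_assoc]
          _ = κ i • (a i * e) := by rw [this, mul_smul_comm]
      obtain ⟨i₀, hi₀⟩ : ∃ i, κ i ≠ 0 := by
        by_contra hcon
        push Not at hcon
        exact hx (by rw [hwsum]; simp [hcon])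
      -- the projection onto the line of `w`
      obtain ⟨g₁, hg₁⟩ : ∃ g₁, g₁ = c⁻¹ • (x * e * star w) := ⟨_, rfl⟩
      have hg₁I : InI e g₁ := by
        rw [hg₁]
        refine ⟨Unit, inferInstance, fun _ => c⁻¹ • x, fun _ => star w, ?_⟩
        simp
      have hfg₁ : f * g₁ = c⁻¹ • (w * star w) := by
        rw [hg₁, hw]
        simp only [mul_smul_comm, mul_assoc]
      have hpw : (1 - f * g₁) * w = 0 := by
        rw [sub_mul, one_mul, hfg₁, smul_mul_assoc, mul_assoc, hc', mul_smul_comm, smul_smul,
          inv_mul_cancel₀ hc0, one_smul, hwe, sub_self]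
      have hrel : ∑ i, κ i • ((1 - f * g₁) * a i * e) = 0 := by
        rw [← hpw, hwsum, Finset.mul_sum]
        refine Finset.sum_congr rfl fun i _ => ?_
        rw [mul_smul_comm, mul_assoc]
      -- the new element is a sum of fewer terms
      have hf1 : f - f * g₁ * f = ∑ i : {i // i ≠ i₀},
          ((1 - f * g₁) * a i) * e * (b i - (κ i₀)⁻¹ • κ i • b i₀) := by
        have h1 : f - f * g₁ * f = ∑ i, (1 - f * g₁) * a i * e * b i := by
          have h0 : f - f * g₁ * f = (1 - f * g₁) * f := by rw [sub_mul, one_mul]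
          have h00 : (1 - f * g₁) * f = (1 - f * g₁) * ∑ i, a i * e * b i :=
            congrArg (fun z => (1 - f * g₁) * z) hf
          rw [h0, h00, Finset.mul_sum]
          refine Finset.sum_congr rfl fun i _ => ?_
          simp only [mul_assoc]
        rw [h1, Fintype.sum_eq_add_sum_subtype_ne _ i₀]
        rw [Fintype.sum_eq_add_sum_subtype_ne _ i₀] at hrel
        have h2 : (1 - f * g₁) * a i₀ * e =
            - ∑ i : {i // i ≠ i₀}, (κ i₀)⁻¹ • κ i • ((1 - f * g₁) * a i * e) := by
          have h3 := eq_neg_of_add_eq_zero_left hrel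
          rw [← Finset.smul_sum, ← smul_neg, ← h3, smul_smul, inv_mul_cancel₀ hi₀, one_smul]
        rw [h2, neg_mul, Finset.sum_mul, ← Finset.sum_neg_distrib, ← Finset.sum_add_distrib]
        refine Finset.sum_congr rfl fun i _ => ?_
        simp only [smul_mul_assoc, mul_sub, mul_smul_comm]
        abel
      obtain ⟨g₂, hg₂I, hg₂⟩ := ih {i // i ≠ i₀} (by
        rw [Fintype.card_subtype_compl, hι]
        simp) (fun i => (1 - f * g₁) * a i) (fun i => b i - (κ i₀)⁻¹ • κ i • b i₀)
      rw [← hf1] at hg₂
      refine ⟨g₁ + (1 - g₁ * f) * g₂ * (1 - f * g₁), ?_, ?_⟩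
      · exact hg₁I.add ((hg₂I.mul_left _).mul_right _)
      · have e : f * (g₁ + (1 - g₁ * f) * g₂ * (1 - f * g₁)) * f =
            f * g₁ * f + (f - f * g₁ * f) * g₂ * (f - f * g₁ * f) := by noncomm_ring
        rw [e, hg₂]
        abel

end

section Mat

variable {B : Type} [Ring B] [StarRing B] {n : Type} [Fintype n] [DecidableEq n]

theorem InI.of_single {e : B} (i₀ : n) {g : Matrix n n B} (hg : InI (Matrix.single i₀ i₀ e) g)
    (i k : n) : InI e (g i k) := by
  obtain ⟨ι, _, a, b, rfl⟩ := hg
  refine ⟨ι, inferInstance, fun m => a m i i₀, fun m => b m i₀ k, ?_⟩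
  rw [Matrix.sum_apply]
  refine Finset.sum_congr rfl fun m _ => ?_
  simp [Matrix.mul_apply, Matrix.single_apply, Finset.sum_ite_eq, ite_and]

theorem InI.single {e : B} (i₀ i k : n) {x : B} (hx : InI e x) :
    InI (Matrix.single i₀ i₀ e) (Matrix.single i k x) := by
  obtain ⟨ι, _, a, b, rfl⟩ := hx
  refine ⟨ι, inferInstance, fun m => Matrix.single i i₀ (a m), fun m => Matrix.single i₀ k (b m),
    ?_⟩
  simp only [Matrix.single_mul_single_same]
  ext p q
  rw [Matrix.sum_apply]
  simp only [Matrix.single_apply]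
  split_ifs with h
  · rfl
  · simp

theorem InI.sum {E : Type} [Ring E] {e : E} {κ : Type} (s : Finset κ) (f : κ → E)
    (h : ∀ i, InI e (f i)) : InI e (∑ i ∈ s, f i) := by
  classical
  induction s using Finset.induction_on with
  | empty => simpa using InI.zero e
  | insert a s ha ih =>
    rw [Finset.sum_insert ha]
    exact (h a).add ih

theorem InI.to_single {e : B} (i₀ : n) {g : Matrix n n B} (hg : ∀ i k, InI e (g i k)) :
    InI (Matrix.single i₀ i₀ e) g := by
  rw [Matrix.matrix_eq_sum_single g]
  exact InI.sum _ _ fun i => InI.sum _ _ fun k => InI.single i₀ i k (hg i k)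

variable {k : Type} [Field k] [Algebra k B]

theorem matrix_proper (hprop : ∀ (ι : Type) [Fintype ι] (a : ι → B), ∑ i, star (a i) * a i = 0 →
    ∀ i, a i = 0) (x : Matrix n n B) (hx : star x * x = 0) : x = 0 := by
  ext i k
  have := congrFun (congrFun hx k) k
  rw [Matrix.mul_apply] at this
  simp only [Matrix.star_apply] at this
  exact hprop n (fun i => x i k) this i

/-- Regularity of the kernel of `M_n(B) → M_n(B/BeB)`. -/
theorem matrix_quasi_inverse [Nonempty n] {e : B} (he : e * e = e) (hes : star e = e)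
    (hrk : ∀ x : B, ∃ c : k, e * x * e = c • e)
    (hprop : ∀ (ι : Type) [Fintype ι] (a : ι → B), ∑ i, star (a i) * a i = 0 →
      ∀ i, a i = 0) {f : Matrix n n B} (hf : ∀ i k, f i k ∈ idealE e) :
    ∃ g : Matrix n n B, (∀ i k, g i k ∈ idealE e) ∧ f * g * f = f := by
  obtain ⟨i₀⟩ := ‹Nonempty n›
  obtain ⟨g, hg, hfg⟩ := exists_quasi_inverse (k := k) (E := Matrix n n B)
    (e := Matrix.single i₀ i₀ e) (by rw [Matrix.single_mul_single_same, he])
    (by
      ext p q
      simp only [Matrix.star_apply, Matrix.single_apply]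
      by_cases h : i₀ = q ∧ i₀ = p
      · rw [if_pos h, if_pos h.symm, hes]
      · rw [if_neg h, if_neg (fun h' => h h'.symm), star_zero])
    (by
      intro x
      obtain ⟨c, hc⟩ := hrk (x i₀ i₀)
      refine ⟨c, ?_⟩
      rw [Matrix.single_mul_mul_single, hc]
      ext p q
      simp only [Matrix.smul_apply, Matrix.single_apply]
      split_ifs
      · rfl
      · rw [smul_zero])
    (matrix_proper hprop) (InI.to_single i₀ hf)
  exact ⟨g, InI.of_single i₀ hg, hfg⟩

end Mat

end Pool.Agent.H7
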