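import Mathlib
import Pool.Agent.H7.RegIdeal

/-!
# The unilateral shift
-/

namespace Pool.Agent.H7

open scoped InnerProductSpace lp

noncomputable section

/-- The Hilbert space `ℓ²(ℕ)`. -/
abbrev Hs : Type := lp (fun _ : ℕ => ℂ) 2

/-- The ring of bounded operators on `ℓ²(ℕ)`. -/
abbrev Bd : Type := Hs →L[ℂ] Hs

/-- The standard basis. -/
def bs : HilbertBasis ℕ ℂ Hs := ⟨LinearIsometryEquiv.refl ℂ Hs⟩

theorem orthonormal_succ : Orthonormal ℂ (fun n : ℕ => bs (n + 1)) :=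
  bs.orthonormal.comp _ (add_left_injective 1)

/-- The shift as a linear isometry. -/
def shiftI : Hs →ₗᵢ[ℂ] Hs := orthonormal_succ.orthogonalFamily.linearIsometry

theorem shiftI_bs (n : ℕ) : shiftI (bs n) = bs (n + 1) := by
  have h : (bs n : Hs) = lp.single 2 n (1 : ℂ) := by
    rw [← bs.repr_self n]
    rfl
  rw [h, shiftI, OrthogonalFamily.linearIsometry_apply_single]
  simp

/-- The shift. -/
def Sh : Bd := shiftI.toContinuousLinearMap

theorem Sh_bs (n : ℕ) : Sh (bs n) = bs (n + 1) := shiftI_bs n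

theorem star_Sh_mul_Sh : star Sh * Sh = 1 := by
  ext1 x
  apply ext_inner_right ℂ
  intro y
  show ⟪(ContinuousLinearMap.adjoint Sh) (Sh x), y⟫_ℂ = ⟪x, y⟫_ℂ
  rw [ContinuousLinearMap.adjoint_inner_left]
  exact shiftI.inner_map_map x y

/-- The projection onto the cokernel. -/
def eS : Bd := 1 - Sh * star Sh

theorem star_eS : star eS = eS := by
  simp [eS]

theorem eS_mul_eS : eS * eS = eS := by
  have h : Sh * star Sh * (Sh * star Sh) = Sh * star Sh := by
    calc Sh * star Sh * (Sh * star Sh) = Sh * (star Sh * Sh) * star Sh := by noncomm_ring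
      _ = Sh * star Sh := by rw [star_Sh_mul_Sh, mul_one]
  unfold eS
  calc (1 - Sh * star Sh) * (1 - Sh * star Sh)
      = 1 - Sh * star Sh - Sh * star Sh + Sh * star Sh * (Sh * star Sh) := by noncomm_ring
    _ = 1 - Sh * star Sh := by rw [h]; abel

theorem eS_mul_Sh : eS * Sh = 0 := by
  unfold eS
  calc (1 - Sh * star Sh) * Sh = Sh - Sh * (star Sh * Sh) := by noncomm_ring
    _ = 0 := by rw [star_Sh_mul_Sh, mul_one, sub_self]

theorem star_Sh_bs_zero : star Sh (bs 0) = 0 := by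
  apply bs.repr.injective
  rw [map_zero bs.repr]
  ext i
  rw [bs.repr_apply_apply]
  show ⟪bs i, (ContinuousLinearMap.adjoint Sh) (bs 0)⟫_ℂ = 0
  rw [ContinuousLinearMap.adjoint_inner_right, Sh_bs]
  exact bs.orthonormal.2 (by omega)

theorem eS_bs_zero : eS (bs 0) = bs 0 := by
  show (bs 0 : Hs) - Sh (star Sh (bs 0)) = bs 0
  rw [star_Sh_bs_zero, map_zero Sh, sub_zero]

theorem eS_bs_succ (n : ℕ) : eS (bs (n + 1)) = 0 := by
  have h := congrArg (fun T : Bd => T (bs n)) eS_mul_Sh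
  rw [← Sh_bs]
  exact h

theorem eS_apply (x : Hs) : eS x = ⟪bs 0, x⟫_ℂ • bs 0 := by
  have h : eS = (innerSL ℂ (bs 0)).smulRight (bs 0) := by
    apply ContinuousLinearMap.ext_on (s := Set.range bs)
    · have := bs.dense_span
      rw [Submodule.dense_iff_topologicalClosure_eq_top]
      exact this
    · rintro _ ⟨n, rfl⟩
      rcases n with _ | n
      · rw [eS_bs_zero]
        simp [bs.orthonormal.1]
      · rw [eS_bs_succ]
        simp [bs.orthonormal.2 (Nat.succ_ne_zero n).symm]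
  rw [h]
  rfl

theorem eS_rank_one (x : Bd) : ∃ c : ℂ, eS * x * eS = c • eS := by
  refine ⟨⟪bs 0, x (bs 0)⟫_ℂ, ?_⟩
  ext1 v
  show eS (x (eS v)) = ⟪bs 0, x (bs 0)⟫_ℂ • eS v
  rw [eS_apply v, map_smul, map_smul, eS_apply (x (bs 0)), smul_comm]

theorem eS_ne_zero : eS ≠ 0 := by
  intro h
  have h1 := eS_bs_zero
  rw [h] at h1
  have h2 := bs.orthonormal.1 0
  rw [← h1] at h2
  simp at h2

theorem Sh_not_right_inv (x : Bd) : Sh * x ≠ 1 := by
  intro h
  apply eS_ne_zero
  calc eS = eS * (Sh * x) := by rw [h, mul_one]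
    _ = 0 := by rw [← mul_assoc, eS_mul_Sh, zero_mul]

theorem Bd_proper (ι : Type) [Fintype ι] (a : ι → Bd) (h : ∑ i, star (a i) * a i = 0) (i : ι) :
    a i = 0 := by
  ext1 v
  have h1 : ∑ i, (‖a i v‖ : ℂ) ^ 2 = 0 := by
    have h2 : ⟪(∑ i, star (a i) * a i) v, v⟫_ℂ = 0 := by
      rw [h]
      simp
    rw [← h2, sum_apply, sum_inner]
    refine Finset.sum_congr rfl fun i _ => ?_
    show _ = ⟪(ContinuousLinearMap.adjoint (a i)) (a i v), v⟫_ℂ
    rw [ContinuousLinearMap.adjoint_inner_left, inner_self_eq_norm_sq_to_K]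
    rfl
  have h3 : ∑ i, ‖a i v‖ ^ 2 = 0 := by
    exact_mod_cast h1
  have h4 := (Finset.sum_eq_zero_iff_of_nonneg (fun i _ => by positivity)).1 h3 i (Finset.mem_univ i)
  have h5 : ‖a i v‖ = 0 := by simpa using h4
  simpa using h5

end

end Pool.Agent.H7
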