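import Mathlib
import Pool.Agent.H7.Shift

/-!
# The quotient of `B(ℓ²)` by the finite rank operators
-/

namespace Pool.Agent.H7

open Polynomial Filter Topology

noncomputable section

/-- Bounded operators modulo the ideal generated by the rank one projection `eS`. -/
abbrev QB : Type := Bd ⧸ (idealE eS)

/-- The quotient map. -/
def qmk : Bd →+* QB := Ideal.Quotient.mk (idealE eS)

theorem qmk_surjective : Function.Surjective qmk := Ideal.Quotient.mk_surjective

theorem qmk_eq_zero_iff {x : Bd} : qmk x = 0 ↔ x ∈ idealE eS := Ideal.Quotient.eq_zero_iff_mem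

/-- The involution of `QB` as a ring homomorphism to the opposite ring. -/
def qstar : QB →+* QBᵐᵒᵖ :=
  Ideal.Quotient.lift (idealE eS) ((RingHom.op qmk).comp (starRingEquiv : Bd ≃+* Bdᵐᵒᵖ).toRingHom)
    (by
      intro a ha
      show MulOpposite.op (qmk (star a)) = 0
      rw [qmk_eq_zero_iff.2 (InI.star star_eS ha), MulOpposite.op_zero])

theorem qstar_qmk (x : Bd) : qstar (qmk x) = MulOpposite.op (qmk (star x)) := rfl

instance : StarRing QB where
  star x := (qstar x).unop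
  star_involutive x := by
    obtain ⟨x, rfl⟩ := qmk_surjective x
    simp only [qstar_qmk, MulOpposite.unop_op, star_star]
  star_mul x y := by
    rw [RingHom.map_mul qstar]
    rfl
  star_add x y := by
    rw [RingHom.map_add qstar]
    rfl

theorem star_qmk (x : Bd) : star (qmk x) = qmk (star x) := rfl

theorem algebraMap_QB (c : ℂ) : algebraMap ℂ QB c = qmk (algebraMap ℂ Bd c) := rfl

theorem star_algebraMap_QB (c : ℂ) : star (algebraMap ℂ QB c) = algebraMap ℂ QB (star c) := by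
  rw [algebraMap_QB, star_qmk, algebraMap_QB]
  congr 1
  simp [Algebra.algebraMap_eq_smul_one]

theorem qmk_star_mul : qmk (star Sh) * qmk Sh = 1 := by
  rw [← map_mul, star_Sh_mul_Sh, map_one]

theorem qmk_mul_star : qmk Sh * qmk (star Sh) = 1 := by
  have h : qmk eS = 0 := qmk_eq_zero_iff.2 (InI.self eS)
  have h1 : (1 : Bd) = eS + Sh * star Sh := by
    rw [eS]
    abel
  rw [← map_mul, ← zero_add (qmk _), ← h, ← map_add, ← h1, map_one]

theorem isUnit_qmk_Sh : IsUnit (qmk Sh) :=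
  ⟨⟨qmk Sh, qmk (star Sh), qmk_mul_star, qmk_star_mul⟩, rfl⟩

theorem isUnit_qmk_star_Sh : IsUnit (qmk (star Sh)) :=
  ⟨⟨qmk (star Sh), qmk Sh, qmk_star_mul, qmk_mul_star⟩, rfl⟩

/-- The element `t S` of `QB`. -/
def uu (t : ℝ) : QB := qmk ((t : ℂ) • Sh)

/-- The element `t S*` of `QB`. -/
def vv (t : ℝ) : QB := qmk ((t : ℂ) • star Sh)

theorem qmk_smul (c : ℂ) (x : Bd) : qmk (c • x) = c • qmk x := by
  rw [Algebra.smul_def, map_mul, Algebra.smul_def, algebraMap_QB]

theorem star_uu (t : ℝ) : star (uu t) = vv t := by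
  rw [uu, star_qmk, star_smul, vv]
  simp

theorem commute_vv_uu (t : ℝ) : Commute (vv t) (uu t) := by
  unfold vv uu
  rw [qmk_smul, qmk_smul]
  refine Commute.smul_left (Commute.smul_right ?_ _) _
  show _ = _
  rw [qmk_star_mul, qmk_mul_star]

theorem isUnit_smul_of_ne {c : ℂ} (hc : c ≠ 0) {x : QB} (hx : IsUnit x) : IsUnit (c • x) := by
  rw [Algebra.smul_def]
  exact (((IsUnit.mk0 c hc).map (algebraMap ℂ QB))).mul hx

theorem isUnit_uu {t : ℝ} (ht : t ≠ 0) : IsUnit (uu t) := by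
  unfold uu
  rw [qmk_smul]
  exact isUnit_smul_of_ne (by exact_mod_cast ht) isUnit_qmk_Sh

theorem isUnit_vv {t : ℝ} (ht : t ≠ 0) : IsUnit (vv t) := by
  unfold vv
  rw [qmk_smul]
  exact isUnit_smul_of_ne (by exact_mod_cast ht) isUnit_qmk_star_Sh

/-- The inner evaluation `u' ↦ t S*`. -/
def evIn (t : ℝ) : ℂ[X] →+* QB :=
  eval₂RingHom' (algebraMap ℂ QB) (vv t) (fun a => Algebra.commutes a _)

theorem evIn_apply (t : ℝ) (p : ℂ[X]) :
    evIn t p = qmk (aeval ((t : ℂ) • star Sh) p) := by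
  show eval₂ (algebraMap ℂ QB) (vv t) p = _
  rw [aeval_def]
  have : (algebraMap ℂ QB) = qmk.comp (algebraMap ℂ Bd) := rfl
  rw [this, eval₂_eq_sum, eval₂_eq_sum, Polynomial.sum, Polynomial.sum, map_sum]
  refine Finset.sum_congr rfl fun i _ => ?_
  rw [map_mul, map_pow]
  rfl

theorem commute_evIn (t : ℝ) (p : ℂ[X]) : Commute (evIn t p) (uu t) := by
  induction p using Polynomial.induction_on' with
  | add p q hp hq => rw [map_add]; exact hp.add_left hq
  | monomial n a =>
    have : evIn t (monomial n a) = algebraMap ℂ QB a * vv t ^ n := eval₂_monomial _ _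
    rw [this]
    exact Commute.mul_left (Algebra.commutes a _) ((commute_vv_uu t).pow_left n)

/-- The evaluation `ℂ[u'][u] → QB`, `u ↦ t S`, `u' ↦ t S*`. -/
def evt (t : ℝ) : ℂ[X][X] →+* QB := eval₂RingHom' (evIn t) (uu t) (commute_evIn t)

theorem evt_X (t : ℝ) : evt t X = uu t := eval₂_X _ _

theorem evt_C (t : ℝ) (p : ℂ[X]) : evt t (C p) = evIn t p := eval₂_C _ _

theorem evIn_X (t : ℝ) : evIn t X = vv t := eval₂_X _ _

theorem evIn_C (t : ℝ) (a : ℂ) : evIn t (C a) = algebraMap ℂ QB a := eval₂_C _ _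

/-- A continuous lift of `evt t p` to bounded operators. -/
def lft (p : ℂ[X][X]) (t : ℝ) : Bd :=
  ∑ i ∈ p.support, aeval ((t : ℂ) • star Sh) (p.coeff i) * ((t : ℂ) • Sh) ^ i

theorem qmk_lft (p : ℂ[X][X]) (t : ℝ) : qmk (lft p t) = evt t p := by
  show _ = eval₂ (evIn t) (uu t) p
  rw [eval₂_eq_sum, Polynomial.sum, lft, map_sum]
  refine Finset.sum_congr rfl fun i _ => ?_
  rw [map_mul, map_pow, evIn_apply]
  rfl

theorem continuous_lft (p : ℂ[X][X]) : Continuous (lft p) := by
  unfold lft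
  refine continuous_finsetSum _ fun i _ => ?_
  refine Continuous.mul ?_ ?_
  · exact (Polynomial.continuous_aeval (p.coeff i)).comp
      (Complex.continuous_ofReal.smul continuous_const)
  · exact (Complex.continuous_ofReal.smul continuous_const).pow i

theorem lft_zero (p : ℂ[X][X]) : lft p 0 = algebraMap ℂ Bd ((p.coeff 0).coeff 0) := by
  unfold lft
  by_cases h : 0 ∈ p.support
  · rw [Finset.sum_eq_single_of_mem 0 h]
    · simp [aeval_def, eval₂_at_zero]
    · intro i _ hi
      simp [hi]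
  · rw [Finset.sum_eq_zero]
    · have : p.coeff 0 = 0 := by simpa using h
      simp [this]
    · intro i hi
      have hi0 : i ≠ 0 := by rintro rfl; exact h hi
      simp [hi0]

theorem eventually_isUnit_of_const (p : ℂ[X][X]) (h : (p.coeff 0).coeff 0 ≠ 0) :
    ∀ᶠ t in 𝓝 (0 : ℝ), IsUnit (evt t p) := by
  have h1 : IsUnit (lft p 0) := by
    rw [lft_zero]
    exact (IsUnit.mk0 _ h).map (algebraMap ℂ Bd)
  have h2 : ∀ᶠ x in 𝓝 (lft p 0), IsUnit x := Units.isOpen.mem_nhds h1
  have h3 := (continuous_lft p).continuousAt (x := (0 : ℝ))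
  refine (h3.eventually h2).mono fun t ht => ?_
  rw [← qmk_lft]
  exact ht.map qmk

/-- **Main invertibility criterion**: if `a`, `b` are the minimal exponents of `u`, `u'` in `p` and
the coefficient of `u^a u'^b` is nonzero, then `p(tS, tS*)` is invertible for small `t ≠ 0`. -/
theorem eventually_isUnit (p : ℂ[X][X]) (a b : ℕ) (h1 : ∀ i j, (i < a ∨ j < b) →
    (p.coeff i).coeff j = 0) (h2 : (p.coeff a).coeff b ≠ 0) :
    ∀ᶠ t in 𝓝[≠] (0 : ℝ), IsUnit (evt t p) := by
  obtain ⟨q, hq⟩ : (X : ℂ[X][X]) ^ a ∣ p := by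
    rw [X_pow_dvd_iff]
    intro i hi
    ext j
    rw [h1 i j (Or.inl hi), coeff_zero]
  have hqc : ∀ i, q.coeff i = p.coeff (i + a) := by
    intro i
    rw [hq, coeff_X_pow_mul]
  obtain ⟨r, hr⟩ : (C ((X : ℂ[X]) ^ b) : ℂ[X][X]) ∣ q := by
    rw [C_dvd_iff_dvd_coeff]
    intro i
    rw [X_pow_dvd_iff]
    intro j hj
    rw [hqc]
    exact h1 _ j (Or.inr hj)
  have hrc : (r.coeff 0).coeff 0 ≠ 0 := by
    have h3 : (q.coeff 0).coeff b ≠ 0 := by
      rw [hqc, zero_add]
      exact h2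
    have h4 : (q.coeff 0).coeff (0 + b) = (r.coeff 0).coeff 0 := by
      rw [hr, coeff_C_mul, coeff_X_pow_mul]
    rw [zero_add] at h4
    rwa [h4] at h3
  have h5 := (eventually_isUnit_of_const r hrc).filter_mono (nhdsWithin_le_nhds (s := {0}ᶜ))
  filter_upwards [h5, self_mem_nhdsWithin] with t ht ht0
  rw [hq, hr, map_mul, map_mul, map_pow, evt_X, evt_C, map_pow, evIn_X]
  exact ((isUnit_uu ht0).pow a).mul (((isUnit_vv ht0).pow b).mul ht)

end

end Pool.Agent.H7
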