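import Mathlib
import Pool.Agent.H7.KL
import Pool.Agent.H7.Toep

/-!
# Choice of the parameters
-/

namespace Pool.Agent.H7

open Matrix Filter Topology

set_option linter.unusedSectionVars false

noncomputable section

section Density

variable {n : Type} [Fintype n] [DecidableEq n]

/-- The matrix of the variables with first index `q`. -/
def mt {S : Type} (q : Fin 4) (p : Fin 4 × n × n → S) : Matrix n n S := of fun i k => p (q, i, k)

/-- The substitution to real coordinates. -/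
def th (n : Type) : Fin 4 × n × n → MvPolynomial (Fin 4 × n × n) ℂ := fun s =>
  if s.1 = 0 then MvPolynomial.X (0, s.2.1, s.2.2) + MvPolynomial.C Complex.I *
    MvPolynomial.X (1, s.2.1, s.2.2)
  else if s.1 = 1 then MvPolynomial.X (2, s.2.1, s.2.2) + MvPolynomial.C Complex.I *
    MvPolynomial.X (3, s.2.1, s.2.2)
  else if s.1 = 2 then MvPolynomial.X (2, s.2.2, s.2.1) - MvPolynomial.C Complex.I *
    MvPolynomial.X (3, s.2.2, s.2.1)
  else MvPolynomial.X (0, s.2.2, s.2.1) - MvPolynomial.C Complex.I *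
    MvPolynomial.X (1, s.2.2, s.2.1)

/-- The inverse substitution. -/
def ps (p : Fin 4 × n × n → ℂ) : Fin 4 × n × n → ℂ := fun s =>
  if s.1 = 0 then (p (0, s.2.1, s.2.2) + p (3, s.2.2, s.2.1)) / 2
  else if s.1 = 1 then (p (0, s.2.1, s.2.2) - p (3, s.2.2, s.2.1)) / (2 * Complex.I)
  else if s.1 = 2 then (p (1, s.2.1, s.2.2) + p (2, s.2.2, s.2.1)) / 2
  else (p (1, s.2.1, s.2.2) - p (2, s.2.2, s.2.1)) / (2 * Complex.I)

theorem eval_th_ps (p : Fin 4 × n × n → ℂ) (s : Fin 4 × n × n) :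
    MvPolynomial.eval (ps p) (th n s) = p s := by
  have hI : Complex.I ≠ 0 := Complex.I_ne_zero
  obtain ⟨q, i, k⟩ := s
  fin_cases q
  · have h : MvPolynomial.eval (ps p) (th n (0, i, k)) =
        (p (0, i, k) + p (3, k, i)) / 2 + Complex.I *
          ((p (0, i, k) - p (3, k, i)) / (2 * Complex.I)) := by
      simp [th, ps]
    refine h.trans ?_
    show _ = p (0, i, k)
    field_simp
    ring
  · have h : MvPolynomial.eval (ps p) (th n (1, i, k)) =
        (p (1, i, k) + p (2, k, i)) / 2 + Complex.I *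
          ((p (1, i, k) - p (2, k, i)) / (2 * Complex.I)) := by
      simp [th, ps]
    refine h.trans ?_
    show _ = p (1, i, k)
    field_simp
    ring
  · have h : MvPolynomial.eval (ps p) (th n (2, i, k)) =
        (p (1, k, i) + p (2, i, k)) / 2 - Complex.I *
          ((p (1, k, i) - p (2, i, k)) / (2 * Complex.I)) := by
      simp [th, ps]
    refine h.trans ?_
    show _ = p (2, i, k)
    field_simp
    ring
  · have h : MvPolynomial.eval (ps p) (th n (3, i, k)) =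
        (p (0, k, i) + p (3, i, k)) / 2 - Complex.I *
          ((p (0, k, i) - p (3, i, k)) / (2 * Complex.I)) := by
      simp [th, ps]
    refine h.trans ?_
    show _ = p (3, i, k)
    field_simp
    ring

theorem eval_bind (x : Fin 4 × n × n → ℂ) (f : MvPolynomial (Fin 4 × n × n) ℂ) :
    MvPolynomial.eval x (MvPolynomial.bind₁ (th n) f) =
      MvPolynomial.eval (fun s => MvPolynomial.eval x (th n s)) f :=
  MvPolynomial.eval₂Hom_bind₁ _ _ _ _

/-- Zariski density of the points `(G, G', star G', star G)`. -/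
theorem exists_star_point (f : MvPolynomial (Fin 4 × n × n) ℂ) (hf : f ≠ 0) :
    ∃ (p : Fin 4 × n × n → ℂ), MvPolynomial.eval p f ≠ 0 ∧ mt 2 p = star (mt 1 p) ∧
      mt 3 p = star (mt 0 p) := by
  have h1 : MvPolynomial.bind₁ (th n) f ≠ 0 := by
    intro h0
    apply hf
    apply MvPolynomial.funext
    intro p
    rw [map_zero]
    have h2 := congrArg (MvPolynomial.eval (ps p)) h0
    rw [map_zero, eval_bind] at h2
    simp only [eval_th_ps] at h2
    exact h2
  obtain ⟨r, hr⟩ : ∃ r : Fin 4 × n × n → ℝ,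
      MvPolynomial.eval (fun s => (r s : ℂ)) (MvPolynomial.bind₁ (th n) f) ≠ 0 := by
    by_contra hcon
    push Not at hcon
    apply h1
    apply MvPolynomial.funext_set (fun _ => Set.range ((↑) : ℝ → ℂ))
      (fun _ => Set.infinite_range_of_injective Complex.ofReal_injective)
    intro x hx
    choose r hr using fun i => hx i (Set.mem_univ i)
    have : x = fun s => (r s : ℂ) := by
      funext s
      exact (hr s).symm
    rw [this, hcon r, map_zero]
  refine ⟨fun s => MvPolynomial.eval (fun s => (r s : ℂ)) (th n s), ?_, ?_, ?_⟩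
  · rwa [eval_bind] at hr
  · ext i k
    simp [mt, th, Matrix.star_apply, sub_eq_add_neg]
  · ext i k
    simp [mt, th, Matrix.star_apply, sub_eq_add_neg]

end Density

section Level

variable {ι : Type} [Fintype ι] [DecidableEq ι]

/-- The coefficient as a polynomial in the entries. -/
def dpoly (A : Matrix ι ι FA) (a b : ℕ) {N : ℕ} (z : Fin N) :
    MvPolynomial (Fin 4 × Fin N × Fin N) ℂ :=
  cf (DD A z z (mt 0 MvPolynomial.X) (mt 1 MvPolynomial.X) (mt 2 MvPolynomial.X)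
    (mt 3 MvPolynomial.X)) a b

theorem mt_map {N : ℕ} (p : Fin 4 × Fin N × Fin N → ℂ) (q : Fin 4) :
    (mt q (MvPolynomial.X : Fin 4 × Fin N × Fin N → MvPolynomial _ ℂ)).map
      (MvPolynomial.eval p) = mt q p := by
  ext i k
  simp [mt]

theorem eval_dpoly (A : Matrix ι ι FA) (a b : ℕ) {N : ℕ} (z : Fin N)
    (p : Fin 4 × Fin N × Fin N → ℂ) : MvPolynomial.eval p (dpoly A a b z) =
      cf (DD A z z (mt 0 p) (mt 1 p) (mt 2 p) (mt 3 p)) a b := by
  unfold dpoly
  rw [← cf_DD_map, mt_map, mt_map, mt_map, mt_map]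

theorem dpoly_ne_zero {A : Matrix ι ι FA} {a b N : ℕ} (z : Fin N) (h : Att (Fin N) A a b) :
    dpoly A a b z ≠ 0 := by
  obtain ⟨i₀, i₁, G, G', H, H', h⟩ := h
  obtain ⟨G₁, G₁', hG⟩ : ∃ G₁ G₁', Form i₀ Polynomial.X (CC ℂ) G G' =
    Form z Polynomial.X (CC ℂ) G₁ G₁' :=
    ⟨G.submatrix id (Equiv.swap i₀ z), G'.submatrix (Equiv.swap i₀ z) id, Form_swap _ _ _ _ _ _⟩
  obtain ⟨H₁, H₁', hH⟩ : ∃ H₁ H₁', Form i₁ (Polynomial.C Polynomial.X) (CC ℂ) H H' =
    Form z (Polynomial.C Polynomial.X) (CC ℂ) H₁ H₁' :=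
    ⟨H.submatrix id (Equiv.swap i₁ z), H'.submatrix (Equiv.swap i₁ z) id, Form_swap _ _ _ _ _ _⟩
  have hDD : DD A i₀ i₁ G G' H H' = DD A z z G₁ G₁' H₁ H₁' := by
    unfold DD
    rw [hG, hH]
  rw [hDD] at h
  intro h0
  have h1 := eval_dpoly A a b z (fun s => if s.1 = 0 then G₁ s.2.1 s.2.2 else
    if s.1 = 1 then G₁' s.2.1 s.2.2 else if s.1 = 2 then H₁ s.2.1 s.2.2 else H₁' s.2.1 s.2.2)
  rw [h0, map_zero] at h1
  apply h
  rw [h1]
  rfl

/-- Square matrices over the free ring. -/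
abbrev Sq : Type := Σ l : ℕ, Matrix (Fin l) (Fin l) FA

/-- The choice at one level. -/
theorem exists_level {N : ℕ} (z : Fin N) (s : Finset Sq) (ab : Sq → ℕ × ℕ)
    (hlow : ∀ x ∈ s, ∀ (G G' H H' : Matrix (Fin N) (Fin N) ℂ) (i j : ℕ),
      (i < (ab x).1 ∨ j < (ab x).2) → cf (DD x.2 z z G G' H H') i j = 0)
    (hatt : ∀ x ∈ s, Att (Fin N) x.2 (ab x).1 (ab x).2) :
    ∃ (G G' : Matrix (Fin N) (Fin N) ℂ) (t : ℝ), IsUnit G ∧ IsUnit G' ∧ t ≠ 0 ∧
      ∀ x ∈ s, IsUnit (evt t (DD x.2 z z G G' (star G') (star G))) := by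
  classical
  obtain ⟨f, hf⟩ : ∃ f : MvPolynomial (Fin 4 × Fin N × Fin N) ℂ, f =
    (∏ x ∈ s, dpoly x.2 (ab x).1 (ab x).2 z) * (det (mt 0 MvPolynomial.X) *
      det (mt 1 MvPolynomial.X)) := ⟨_, rfl⟩
  have hdet : ∀ (q : Fin 4), det (mt q (MvPolynomial.X : Fin 4 × Fin N × Fin N →
      MvPolynomial _ ℂ)) ≠ 0 := by
    intro q h0
    have h1 := congrArg (MvPolynomial.eval (fun s : Fin 4 × Fin N × Fin N =>
      if s.2.1 = s.2.2 then (1 : ℂ) else 0)) h0
    rw [RingHom.map_det, RingHom.mapMatrix_apply, mt_map, map_zero] at h1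
    have h2 : mt q (fun s : Fin 4 × Fin N × Fin N => if s.2.1 = s.2.2 then (1 : ℂ) else 0) = 1 := by
      ext i k
      simp [mt, Matrix.one_apply]
    rw [h2, det_one] at h1
    exact one_ne_zero h1
  have hf0 : f ≠ 0 := by
    rw [hf]
    refine mul_ne_zero (Finset.prod_ne_zero_iff.2 fun x hx => dpoly_ne_zero z (hatt x hx))
      (mul_ne_zero (hdet 0) (hdet 1))
  obtain ⟨p, hp, h2, h3⟩ := exists_star_point f hf0
  rw [hf, map_mul, map_mul, map_prod, RingHom.map_det, RingHom.map_det, RingHom.mapMatrix_apply,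
    RingHom.mapMatrix_apply, mt_map, mt_map] at hp
  have hp1 := left_ne_zero_of_mul hp
  have hp2 := left_ne_zero_of_mul (right_ne_zero_of_mul hp)
  have hp3 := right_ne_zero_of_mul (right_ne_zero_of_mul hp)
  have hev : ∀ᶠ t in 𝓝[≠] (0 : ℝ), ∀ x ∈ s, IsUnit (evt t (DD x.2 z z (mt 0 p) (mt 1 p)
      (star (mt 1 p)) (star (mt 0 p)))) := by
    rw [Filter.eventually_all_finset]
    intro x hx
    apply eventually_isUnit _ (ab x).1 (ab x).2
    · intro i j hij
      exact hlow x hx _ _ _ _ i j hij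
    · have h4 := Finset.prod_ne_zero_iff.1 hp1 x hx
      rw [eval_dpoly, h2, h3] at h4
      exact h4
  obtain ⟨t, ht, ht0⟩ := (hev.and self_mem_nhdsWithin).exists
  refine ⟨mt 0 p, mt 1 p, t, ?_, ?_, ht0, ht⟩
  · rw [Matrix.isUnit_iff_isUnit_det]
    exact isUnit_iff_ne_zero.2 hp2
  · rw [Matrix.isUnit_iff_isUnit_det]
    exact isUnit_iff_ne_zero.2 hp3

instance : Countable FA := by
  rw [← Cardinal.mk_le_aleph0_iff]
  exact (FreeAlgebra.cardinalMk_le_max ℤ (Fin 2)).trans (by simp)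

instance (l : ℕ) : Countable (Matrix (Fin l) (Fin l) FA) :=
  inferInstanceAs (Countable (Fin l → Fin l → FA))

/-- The sizes. -/
def sz (j : ℕ) : ℕ := (j + 1).factorial

theorem sz_pos (j : ℕ) : 0 < sz j := Nat.factorial_pos _

/-- The distinguished index. -/
def zj (j : ℕ) : Fin (sz j) := ⟨0, sz_pos j⟩

theorem eventually_sz (s : ℕ) (hs : 0 < s) : ∀ᶠ j in atTop, s ∣ sz j ∧ 2 * s ≤ sz j := by
  filter_upwards [eventually_ge_atTop (2 * s)] with j hj
  constructor
  · exact Nat.dvd_factorial hs (by omega)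
  · exact le_trans (by omega) (Nat.self_le_factorial (j + 1))

/-- **The choice of all levels.** -/
theorem exists_levels : ∃ (G G' : ∀ j, Matrix (Fin (sz j)) (Fin (sz j)) ℂ) (t : ℕ → ℝ),
    (∀ j, IsUnit (G j) ∧ IsUnit (G' j) ∧ t j ≠ 0) ∧
    ∀ x : Sq, Good (Fin x.1) x.2 → ∀ᶠ j in atTop,
      IsUnit (evt (t j) (DD x.2 (zj j) (zj j) (G j) (G' j) (star (G' j)) (star (G j)))) := by
  classical
  have hmin : ∀ x : Sq, ∃ abs : ℕ × ℕ × ℕ, Good (Fin x.1) x.2 → 0 < abs.2.2 ∧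
    (∀ (N : ℕ) (i₀ i₁ : Fin N) (G G' H H' : Matrix (Fin N) (Fin N) ℂ) (i j : ℕ),
      (i < abs.1 ∨ j < abs.2.1) → cf (DD x.2 i₀ i₁ G G' H H') i j = 0) ∧
    ∀ N, abs.2.2 ∣ N → 2 * abs.2.2 ≤ N → Att (Fin N) x.2 abs.1 abs.2.1 := by
    intro x
    by_cases hx : Good (Fin x.1) x.2
    · obtain ⟨a, b, s, h⟩ := exists_min hx
      exact ⟨(a, b, s), fun _ => h⟩
    · exact ⟨(0, 0, 0), fun h => absurd h hx⟩
  choose abs habs using hmin
  obtain ⟨en, hen⟩ := exists_surjective_nat Sq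
  have hlev : ∀ j, ∃ (G G' : Matrix (Fin (sz j)) (Fin (sz j)) ℂ) (t : ℝ), IsUnit G ∧ IsUnit G' ∧
      t ≠ 0 ∧ ∀ x ∈ ((Finset.range (j + 1)).image en).filter (fun x : Sq => Good (Fin x.1) x.2 ∧
        Att (Fin (sz j)) x.2 (abs x).1 (abs x).2.1),
        IsUnit (evt t (DD x.2 (zj j) (zj j) G G' (star G') (star G))) := by
    intro j
    apply exists_level (zj j) _ (fun x => ((abs x).1, (abs x).2.1))
    · intro x hx G G' H H' i k hik
      rw [Finset.mem_filter] at hx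
      exact (habs x hx.2.1).2.1 _ _ _ _ _ _ _ i k hik
    · intro x hx
      rw [Finset.mem_filter] at hx
      exact hx.2.2
  choose G G' t h1 h2 h3 h4 using hlev
  refine ⟨G, G', t, fun j => ⟨h1 j, h2 j, h3 j⟩, fun x hx => ?_⟩
  obtain ⟨i, rfl⟩ := hen x
  obtain ⟨hs, _, hatt⟩ := habs (en i) hx
  filter_upwards [eventually_sz _ hs, eventually_ge_atTop i] with j hj hij
  apply h4
  rw [Finset.mem_filter]
  refine ⟨Finset.mem_image_of_mem _ (Finset.mem_range.2 (by omega)), hx, hatt _ hj.1 hj.2⟩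

end Level

end

end Pool.Agent.H7
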