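import Mathlib

/-!
# Extension of a division ring by a regular ideal

* `exists_of_extension`: an abstract way of producing a regular ring with proper involution which
  is not unit-regular.
* `EvProd`: the product of a sequence of rings modulo eventual equality along a filter.
-/

namespace Pool.Agent.H7

open Filter

/-- Let `π : E → Q` be a surjective ring homomorphism, `E` with a proper involution, such that the
kernel of `π` is regular and let `D` be a division subring of `Q`, with `π⁻¹ D` stable under the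
involution. If `π⁻¹ D` contains a left cancellable element which is not right invertible in `E`,
then the ring `π⁻¹ D` is regular with proper involution and is not unit-regular. -/
theorem exists_of_extension {E Q : Type} [Ring E] [StarRing E] [Ring Q] (π : E →+* Q)
    (hπ : Function.Surjective π) (D : Subring Q)
    (hD : ∀ q ∈ D, q = 0 ∨ ∃ q' ∈ D, q * q' = 1 ∧ q' * q = 1)
    (hstar : ∀ x : E, π x ∈ D → π (star x) ∈ D)
    (hI : ∀ x, π x = 0 → ∃ g, π g = 0 ∧ x * g * x = x)
    (hprop : ∀ x : E, star x * x = 0 → x = 0)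
    (Y : E) (hY : π Y ∈ D) (hYinj : ∀ x, Y * x = 0 → x = 0) (hYns : ∀ x, Y * x ≠ 1) :
    ∃ (R : Type) (_ : Ring R) (_ : StarRing R), (∀ a : R, ∃ x : R, a * x * a = a) ∧
      (∀ x : R, star x * x = 0 → x = 0) ∧ (∃ a : R, ∀ u : Rˣ, a * (u : R) * a ≠ a) ∧
      ∃ emb : R →+* E, Function.Injective emb ∧ (∀ x, emb (star x) = star (emb x)) ∧
        ∀ y, π y ∈ D → ∃ x, emb x = y := by
  let R := D.comap π
  let inst : StarRing R :=
    { star := fun x => ⟨star x.1, hstar _ x.2⟩
      star_involutive := fun x => Subtype.ext (star_star x.1)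
      star_mul := fun x y => Subtype.ext (star_mul x.1 y.1)
      star_add := fun x y => Subtype.ext (star_add x.1 y.1) }
  refine ⟨R, inferInstance, inst, ?_, ?_, ⟨⟨Y, hY⟩, ?_⟩, R.subtype, Subtype.val_injective,
    fun _ => rfl, fun y hy => ⟨⟨y, hy⟩, rfl⟩⟩
  · rintro ⟨a, ha⟩
    rcases hD _ ha with h0 | ⟨q', hq', h1, h2⟩
    · obtain ⟨g, hg, hag⟩ := hI a h0
      refine ⟨⟨g, ?_⟩, Subtype.ext hag⟩
      show π g ∈ D
      rw [hg]
      exact D.zero_mem
    · obtain ⟨x₀, rfl⟩ := hπ q'
      obtain ⟨g, hg, hag⟩ := hI (a - a * x₀ * a) (by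
        rw [map_sub, map_mul, map_mul, h1, one_mul, sub_self])
      refine ⟨⟨x₀ + (1 - x₀ * a) * g * (1 - a * x₀), ?_⟩, Subtype.ext ?_⟩
      · show π _ ∈ D
        rw [map_add, map_mul, map_mul, hg, mul_zero, zero_mul, add_zero]
        exact hq'
      · show a * (x₀ + (1 - x₀ * a) * g * (1 - a * x₀)) * a = a
        have e : a * (x₀ + (1 - x₀ * a) * g * (1 - a * x₀)) * a =
            a * x₀ * a + (a - a * x₀ * a) * g * (a - a * x₀ * a) := by noncomm_ring
        rw [e, hag]
        abel
  · rintro ⟨x, hx⟩ h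
    exact Subtype.ext (hprop x (congrArg Subtype.val h))
  · intro u hu
    have h1 : Y * u.1.1 * Y = Y := congrArg Subtype.val hu
    have h2 : u.1.1 * Y = 1 := by
      have : Y * (u.1.1 * Y - 1) = 0 := by
        rw [mul_sub, mul_one, ← mul_assoc, h1, sub_self]
      exact sub_eq_zero.1 (hYinj _ this)
    have h3 : u⁻¹.1.1 * u.1.1 = 1 := congrArg Subtype.val u.inv_mul
    have h4 : u.1.1 * u⁻¹.1.1 = 1 := congrArg Subtype.val u.mul_inv
    have h5 : Y = u⁻¹.1.1 := by
      calc Y = u⁻¹.1.1 * u.1.1 * Y := by rw [h3, one_mul]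
        _ = u⁻¹.1.1 * (u.1.1 * Y) := by rw [mul_assoc]
        _ = u⁻¹.1.1 := by rw [h2, mul_one]
    exact hYns u.1.1 (by rw [h5, h3])

section EvProd

variable (l : Filter ℕ) (M : ℕ → Type) [∀ j, Ring (M j)]

/-- Eventual equality of sequences, as a ring congruence. -/
def evCon : RingCon (∀ j, M j) where
  r x y := ∀ᶠ j in l, x j = y j
  iseqv :=
    { refl := fun _ => Eventually.of_forall fun _ => rfl
      symm := fun h => h.mono fun _ hj => hj.symm
      trans := fun h h' => h.mp (h'.mono fun j hj' hj => hj.trans hj') }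
  add' h h' := h.mp (h'.mono fun j hj' hj => by
    rw [Pi.add_apply, Pi.add_apply, hj, hj'])
  mul' h h' := h.mp (h'.mono fun j hj' hj => by
    rw [Pi.mul_apply, Pi.mul_apply, hj, hj'])

/-- Sequences modulo eventual equality. -/
abbrev EvProd : Type := (evCon l M).Quotient

/-- The class of a sequence. -/
def EvProd.mk : (∀ j, M j) →+* EvProd l M := (evCon l M).mk'

variable {l M}

theorem EvProd.mk_surjective : Function.Surjective (EvProd.mk l M) := Quotient.mk_surjective

theorem EvProd.mk_eq_iff {x y : ∀ j, M j} :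
    EvProd.mk l M x = EvProd.mk l M y ↔ ∀ᶠ j in l, x j = y j :=
  (evCon l M).eq

theorem EvProd.mk_eq_zero_iff {x : ∀ j, M j} :
    EvProd.mk l M x = 0 ↔ ∀ᶠ j in l, x j = 0 := by
  rw [← map_zero (EvProd.mk l M), EvProd.mk_eq_iff]
  rfl

/-- The involution on `EvProd`. -/
instance [∀ j, StarRing (M j)] : StarRing (EvProd l M) where
  star := Quotient.map' (fun x j => star (x j)) (fun x y h => by
    refine h.mono fun j hj => ?_
    show star (x j) = star (y j)
    rw [hj])
  star_involutive x := by
    obtain ⟨x, rfl⟩ := EvProd.mk_surjective x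
    exact EvProd.mk_eq_iff.2 (Eventually.of_forall fun j => star_star (x j))
  star_mul x y := by
    obtain ⟨x, rfl⟩ := EvProd.mk_surjective x
    obtain ⟨y, rfl⟩ := EvProd.mk_surjective y
    exact EvProd.mk_eq_iff.2 (Eventually.of_forall fun j => star_mul (x j) (y j))
  star_add x y := by
    obtain ⟨x, rfl⟩ := EvProd.mk_surjective x
    obtain ⟨y, rfl⟩ := EvProd.mk_surjective y
    exact EvProd.mk_eq_iff.2 (Eventually.of_forall fun j => star_add (x j) (y j))

theorem EvProd.star_mk [∀ j, StarRing (M j)] (x : ∀ j, M j) :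
    star (EvProd.mk l M x) = EvProd.mk l M (fun j => star (x j)) := rfl

variable {M' : ℕ → Type} [∀ j, Ring (M' j)]

/-- Functoriality. -/
def EvProd.map (l : Filter ℕ) (f : ∀ j, M j →+* M' j) : EvProd l M →+* EvProd l M' :=
  (evCon l M).lift ((EvProd.mk l M').comp (RingHom.pi fun j => (f j).comp (Pi.evalRingHom M j)))
    (fun x y h => EvProd.mk_eq_iff.2 (by
      have h' : ∀ᶠ j in l, x j = y j := h
      refine h'.mono fun j hj => ?_
      show f j (x j) = f j (y j)
      rw [hj]))

theorem EvProd.map_mk (f : ∀ j, M j →+* M' j) (x : ∀ j, M j) :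
    EvProd.map l f (EvProd.mk l M x) = EvProd.mk l M' (fun j => f j (x j)) := rfl

end EvProd

end Pool.Agent.H7
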