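import Mathlib
import Pool.Agent.H7.Choice
import Pool.Agent.H7.Amit
import Pool.Agent.H7.DivClosure
import Pool.Agent.H7.Extend

/-!
# A directly infinite *-regular ring
-/

namespace Pool.Agent.H7

open Matrix Filter Topology

set_option linter.unusedSectionVars false

noncomputable section

section Star

variable {n : Type} [Fintype n] [DecidableEq n] {S : Type} [Ring S] [StarRing S]

theorem star_Form (z : n) (w : S) (f : ℂ →+* S) (hf : ∀ c, star (f c) = f (star c))
    (G G' : Matrix n n ℂ) :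
    star (Form z w f G G') = Form z (star w) f (star G') (star G) := by
  unfold Form
  rw [star_mul, star_mul, mul_assoc]
  have h1 : ∀ M : Matrix n n ℂ, star (M.map f) = (star M).map f := by
    intro M
    ext i k
    simp [Matrix.star_apply, hf]
  have h2 : star (Dl z w) = Dl z (star w) := by
    unfold Dl
    rw [star_eq_conjTranspose, diagonal_conjTranspose]
    congr 1
    funext i
    simp only [Pi.star_apply, Function.update_apply, Pi.one_apply]
    split_ifs <;> simp
  rw [h1, h1, h2]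

end Star

/-- The data chosen at all levels. -/
structure Data where
  G : ∀ j, Matrix (Fin (sz j)) (Fin (sz j)) ℂ
  G' : ∀ j, Matrix (Fin (sz j)) (Fin (sz j)) ℂ
  t : ℕ → ℝ
  hG : ∀ j, IsUnit (G j)
  hG' : ∀ j, IsUnit (G' j)
  ht : ∀ j, t j ≠ 0
  hU : ∀ x : Sq, Good (Fin x.1) x.2 → ∀ᶠ j in atTop,
      IsUnit (evt (t j) (DD x.2 (zj j) (zj j) (G j) (G' j) (star (G' j)) (star (G j))))

theorem nonempty_data : Nonempty Data := by
  obtain ⟨G, G', t, h, hU⟩ := exists_levels
  exact ⟨⟨G, G', t, fun j => (h j).1, fun j => (h j).2.1, fun j => (h j).2.2, hU⟩⟩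

variable (d : Data)

/-- Operators at level `j`. -/
abbrev Ej (j : ℕ) : Type := Matrix (Fin (sz j)) (Fin (sz j)) Bd

/-- Operators modulo finite rank at level `j`. -/
abbrev Qj (j : ℕ) : Type := Matrix (Fin (sz j)) (Fin (sz j)) QB

/-- The quotient map at level `j`. -/
def pj (j : ℕ) : Ej j →+* Qj j := qmk.mapMatrix

theorem pj_surjective (j : ℕ) : Function.Surjective (pj j) := by
  intro x
  choose f hf using fun i k => qmk_surjective (x i k)
  exact ⟨of f, by ext1 i k; exact hf i k⟩

/-- The symbol of `x`. -/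
def PXj (j : ℕ) : Matrix (Fin (sz j)) (Fin (sz j)) (Polynomial (Polynomial ℂ)) :=
  Form (zj j) Polynomial.X (CC ℂ) (d.G j) (d.G' j)

/-- The symbol of `x*`. -/
def PYj (j : ℕ) : Matrix (Fin (sz j)) (Fin (sz j)) (Polynomial (Polynomial ℂ)) :=
  Form (zj j) (Polynomial.C Polynomial.X) (CC ℂ) (star (d.G' j)) (star (d.G j))

/-- The homomorphism at level `j`. -/
def rj (j : ℕ) : FA →+* Qj j :=
  ((evt (d.t j)).mapMatrix (m := Fin (sz j))).comp (evM (PXj d j) (PYj d j))

/-- The operator `Y`. -/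
def Yj (j : ℕ) : Ej j := Form (zj j) ((d.t j : ℂ) • Sh) (algebraMap ℂ Bd) (d.G j) (d.G' j)

theorem evt_comp_CC (t : ℝ) : (evt t).comp (CC ℂ) = algebraMap ℂ QB := by
  ext c
  show evt t (Polynomial.C (Polynomial.C c)) = _
  rw [evt_C, evIn_C]

theorem rj_zero (j : ℕ) : rj d j (FreeAlgebra.ι ℤ 0) = pj j (Yj d j) := by
  show ((evt (d.t j)).mapMatrix (m := Fin (sz j))) (evM (PXj d j) (PYj d j) _) = _
  rw [evM_zero]
  show (PXj d j).map (evt (d.t j)) = (Yj d j).map qmk
  unfold PXj Yj
  rw [Form_map, Form_map, evt_comp_CC, evt_X]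
  rfl

theorem rj_one (j : ℕ) : rj d j (FreeAlgebra.ι ℤ 1) = star (rj d j (FreeAlgebra.ι ℤ 0)) := by
  have h0 : rj d j (FreeAlgebra.ι ℤ 0) =
      Form (zj j) (uu (d.t j)) (algebraMap ℂ QB) (d.G j) (d.G' j) := by
    show ((evt (d.t j)).mapMatrix (m := Fin (sz j))) (evM (PXj d j) (PYj d j) _) = _
    rw [evM_zero]
    show (PXj d j).map (evt (d.t j)) = _
    unfold PXj
    rw [Form_map, evt_comp_CC, evt_X]
  rw [h0, star_Form _ _ _ star_algebraMap_QB, star_uu]
  show ((evt (d.t j)).mapMatrix (m := Fin (sz j))) (evM (PXj d j) (PYj d j) _) = _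
  rw [evM_one]
  show (PYj d j).map (evt (d.t j)) = _
  unfold PYj
  rw [Form_map, evt_comp_CC, evt_C, evIn_X]

theorem rj_sF (j : ℕ) (a : FA) : rj d j (sF a) = star (rj d j a) := by
  have h : rj d j = evM (rj d j (FreeAlgebra.ι ℤ 0)) (star (rj d j (FreeAlgebra.ι ℤ 0))) := by
    apply FA_hom_ext
    · rw [evM_zero]
    · rw [evM_one, rj_one]
  have h2 := evM_sF (rj d j (FreeAlgebra.ι ℤ 0)) (star (rj d j (FreeAlgebra.ι ℤ 0))) a
  rw [star_star, ← h] at h2
  exact h2

/-- The homomorphism to the product modulo eventual equality. -/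
def rho (l : Filter ℕ) : FA →+* EvProd l Qj := (EvProd.mk l Qj).comp (RingHom.pi (rj d))

theorem rho_apply (l : Filter ℕ) (a : FA) : rho d l a = EvProd.mk l Qj (fun j => rj d j a) := rfl

section Level

variable {ι : Type} [Fintype ι] [DecidableEq ι]

/-- Unit determinants at level `j`. -/
def UnitAt (j : ℕ) (A : Matrix ι ι FA) : Prop := IsUnit (evt (d.t j) (dd A (PXj d j) (PYj d j)))

theorem eventually_unitAt {A : Matrix ι ι FA} (hA : Good ι A) : ∀ᶠ j in atTop, UnitAt d j A := by
  let e := Fintype.equivFin ι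
  have h := d.hU ⟨Fintype.card ι, reindex e e A⟩ ((good_reindex_left e).2 hA)
  refine h.mono fun j hj => ?_
  unfold DD at hj
  rw [dd_reindex_left] at hj
  exact hj

/-- Inverse at level `j`. -/
theorem exists_inv {j : ℕ} {A : Matrix ι ι FA} (h : UnitAt d j A) :
    ∃ X : Matrix ι ι (Qj j), A.map (rj d j) * X = 1 ∧ X * A.map (rj d j) = 1 ∧
      ∀ c b : ι → FA, sch A c b (PXj d j) (PYj d j) = 0 →
        (fun i => rj d j (c i)) ⬝ᵥ (X *ᵥ fun i => rj d j (b i)) = 0 := by
  obtain ⟨⟨δ, δ', hδ, hδ'⟩, hδeq⟩ := h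
  simp only at hδeq
  -- the homomorphism on matrices of matrices
  obtain ⟨Φ, hΦ⟩ : ∃ Φ : Matrix (Fin (sz j)) (Fin (sz j)) (Polynomial (Polynomial ℂ)) →+* Qj j,
    Φ = (evt (d.t j)).mapMatrix (m := Fin (sz j)) := ⟨_, rfl⟩
  obtain ⟨Z, hZ⟩ : ∃ Z, Z = (adjM A (PXj d j) (PYj d j)).map Φ := ⟨_, rfl⟩
  have hM : A.map (rj d j) = (A.map (evM (PXj d j) (PYj d j))).map Φ := by
    rw [hΦ]
    rfl
  let Dδ : Qj j := diagonal fun _ => δ
  let Dδ' : Qj j := diagonal fun _ => δ'
  have hDD' : Dδ * Dδ' = 1 := by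
    show diagonal _ * diagonal _ = 1
    rw [diagonal_mul_diagonal, hδ]
    exact diagonal_one
  have hD'D : Dδ' * Dδ = 1 := by
    show diagonal _ * diagonal _ = 1
    rw [diagonal_mul_diagonal, hδ']
    exact diagonal_one
  have hΦδ : (dd A (PXj d j) (PYj d j) •
      (1 : Matrix ι ι (Matrix (Fin (sz j)) (Fin (sz j)) (Polynomial (Polynomial ℂ))))).map Φ =
      diagonal fun _ => Dδ := by
    ext1 i k
    rw [Matrix.map_apply, Matrix.smul_apply, Matrix.one_apply, diagonal_apply]
    split_ifs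
    · rw [hΦ, RingHom.mapMatrix_apply]
      ext1 p q
      rw [Matrix.map_apply, Matrix.smul_apply, Matrix.one_apply]
      show _ = diagonal (fun _ => δ) p q
      rw [diagonal_apply]
      split_ifs
      · rw [smul_eq_mul, mul_one, ← hδeq]
      · rw [smul_zero, map_zero]
    · rw [smul_zero, map_zero]
  have h1 : A.map (rj d j) * Z = diagonal fun _ => Dδ := by
    rw [hM, hZ, ← Matrix.map_mul, mul_adjM, hΦδ]
  have h2 : Z * A.map (rj d j) = diagonal fun _ => Dδ := by
    rw [hM, hZ, ← Matrix.map_mul, adjM_mul, hΦδ]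
  have hdd1 : (diagonal (fun _ => Dδ) : Matrix ι ι (Qj j)) * diagonal (fun _ => Dδ') = 1 := by
    rw [diagonal_mul_diagonal, hDD']
    exact diagonal_one
  have hdd2 : (diagonal (fun _ => Dδ') : Matrix ι ι (Qj j)) * diagonal (fun _ => Dδ) = 1 := by
    rw [diagonal_mul_diagonal, hD'D]
    exact diagonal_one
  have e1 : A.map (rj d j) * (Z * diagonal fun _ => Dδ') = 1 := by
    rw [← mul_assoc, h1, hdd1]
  have e2 : (diagonal (fun _ => Dδ') * Z) * A.map (rj d j) = 1 := by
    rw [mul_assoc, h2, hdd2]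
  have e3 : (diagonal (fun _ => Dδ') * Z) = Z * diagonal fun _ => Dδ' :=
    left_inv_eq_right_inv e2 e1
  refine ⟨Z * diagonal fun _ => Dδ', e1, by rw [← e3]; exact e2, ?_⟩
  intro c b hs
  -- `Dδ'` commutes with the image of `Φ`
  have hcomm : ∀ P, Commute (Φ P) Dδ' := by
    intro P
    have hc1 : Commute (Φ P) Dδ := by
      show _ = _
      rw [hΦ, RingHom.mapMatrix_apply]
      ext1 p q
      show ((P.map (evt (d.t j)) : Qj j) * (diagonal (fun _ => δ) : Qj j)) p q =
        ((diagonal (fun _ => δ) : Qj j) * (P.map (evt (d.t j)) : Qj j)) p q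
      rw [mul_diagonal, diagonal_mul, Matrix.map_apply, hδeq, ← map_mul, ← map_mul, mul_comm]
    calc Φ P * Dδ' = Dδ' * Dδ * Φ P * Dδ' := by rw [hD'D, one_mul]
      _ = Dδ' * (Φ P * Dδ) * Dδ' := by rw [hc1.eq]; simp only [mul_assoc]
      _ = Dδ' * Φ P * (Dδ * Dδ') := by simp only [mul_assoc]
      _ = Dδ' * Φ P := by rw [hDD', mul_one]
  have hr : ∀ a, rj d j a = Φ (evM (PXj d j) (PYj d j) a) := fun a => by rw [hΦ]; rfl
  have h3 : (fun i => rj d j (c i)) ⬝ᵥ ((Z * diagonal fun _ => Dδ') *ᵥ fun i => rj d j (b i)) =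
      Φ (sch A c b (PXj d j) (PYj d j)) * Dδ' := by
    unfold sch
    simp only [dotProduct, mulVec, map_sum, map_mul, mul_diagonal, hr, hZ, Matrix.map_apply,
      Finset.sum_mul, Finset.mul_sum]
    refine Finset.sum_congr rfl fun i _ => Finset.sum_congr rfl fun k _ => ?_
    simp only [mul_assoc]
    rw [(hcomm _).eq]
  rw [h3, hs, map_zero, zero_mul]

end Level

/-- The family of good matrices. -/
theorem goodFam (l : Filter ℕ) (hl : l ≤ atTop) : GoodFam (rho d l) Good where
  good_one := good_one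
  unit := by
    classical
    intro ι _ _ A hA
    have h : ∀ j, ∃ X : Matrix ι ι (Qj j), UnitAt d j A → A.map (rj d j) * X = 1 ∧
        X * A.map (rj d j) = 1 := by
      intro j
      by_cases hj : UnitAt d j A
      · obtain ⟨X, h1, h2, _⟩ := exists_inv d hj
        exact ⟨X, fun _ => ⟨h1, h2⟩⟩
      · exact ⟨0, fun h => absurd h hj⟩
    choose X hX using h
    refine ⟨of fun i k => EvProd.mk l Qj (fun j => X j i k), ?_, ?_⟩
    · ext1 i k
      rw [Matrix.mul_apply]
      simp only [Matrix.map_apply, Matrix.of_apply, rho_apply, ← map_mul, ← map_sum]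
      rw [Matrix.one_apply, ← map_one (EvProd.mk l Qj), ← map_zero (EvProd.mk l Qj), ← apply_ite,
        EvProd.mk_eq_iff]
      refine ((eventually_unitAt d hA).filter_mono hl).mono fun j hj => ?_
      have h := congrFun (congrFun (hX j hj).1 i) k
      rw [Matrix.mul_apply, Matrix.one_apply] at h
      rw [Finset.sum_apply]
      refine Eq.trans ?_ (h.trans ?_)
      · rfl
      · split_ifs <;> rfl
    · ext1 i k
      rw [Matrix.mul_apply]
      simp only [Matrix.map_apply, Matrix.of_apply, rho_apply, ← map_mul, ← map_sum]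
      rw [Matrix.one_apply, ← map_one (EvProd.mk l Qj), ← map_zero (EvProd.mk l Qj), ← apply_ite,
        EvProd.mk_eq_iff]
      refine ((eventually_unitAt d hA).filter_mono hl).mono fun j hj => ?_
      have h := congrFun (congrFun (hX j hj).2 i) k
      rw [Matrix.mul_apply, Matrix.one_apply] at h
      rw [Finset.sum_apply]
      refine Eq.trans ?_ (h.trans ?_)
      · rfl
      · split_ifs <;> rfl
  blocks := fun ι κ _ _ _ _ A B D hA hD => good_fromBlocks hA hD
  bord := by
    classical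
    intro ι _ _ A c b hA hB X h1 h2
    -- representatives
    have hsurj : ∀ i k, ∃ x : ∀ j, Qj j, EvProd.mk l Qj x = X i k := fun i k =>
      EvProd.mk_surjective _
    choose x hx using hsurj
    have hXx : X = of fun i k => EvProd.mk l Qj (x i k) := by
      ext1 i k
      exact (hx i k).symm
    subst hXx
    have h1' : ∀ i k, ∀ᶠ j in l, (A.map (rj d j) * of fun i k => x i k j) i k =
        (1 : Matrix ι ι (Qj j)) i k := by
      intro i k
      have h := congrFun (congrFun h1 i) k
      rw [Matrix.mul_apply] at h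
      simp only [Matrix.map_apply, Matrix.of_apply, rho_apply, ← map_mul, ← map_sum] at h
      rw [Matrix.one_apply, ← map_one (EvProd.mk l Qj), ← map_zero (EvProd.mk l Qj), ← apply_ite,
        EvProd.mk_eq_iff] at h
      refine h.mono fun j hj => ?_
      rw [Matrix.mul_apply, Matrix.one_apply]
      rw [Finset.sum_apply] at hj
      refine Eq.trans ?_ (hj.trans ?_)
      · rfl
      · split_ifs <;> rfl
    have h1'' : ∀ᶠ j in l, (A.map (rj d j) * of fun i k => x i k j) = 1 := by
      have h3 : ∀ᶠ j in l, ∀ i k, (A.map (rj d j) * of fun i k => x i k j) i k =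
        (1 : Matrix ι ι (Qj j)) i k := by
        rw [eventually_all]
        intro i
        rw [eventually_all]
        exact h1' i
      refine h3.mono fun j hj => ?_
      ext1 i k
      exact hj i k
    have hfull : ∀ᶠ j in l, Full (Fin (sz j)) A := by
      obtain ⟨N, hN, hF⟩ := hA
      refine ((eventually_sz N hN).filter_mono hl).mono fun j hj => full_dvd hF hj.1
    have hnot : ∀ j, ¬ Full (Fin (sz j)) (border A c b) := fun j hj => hB ⟨sz j, sz_pos j, hj⟩
    simp only [dotProduct, mulVec, rho_apply, Matrix.of_apply, ← map_mul, ← map_sum]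
    rw [EvProd.mk_eq_zero_iff]
    filter_upwards [h1'', hfull, (eventually_unitAt d hA).filter_mono hl] with j hj1 hj2 hj3
    obtain ⟨Z, hZ1, hZ2, hZ3⟩ := exists_inv d hj3
    have hZx : Z = of fun i k => x i k j := left_inv_eq_right_inv hZ2 hj1
    have hs : sch A c b (PXj d j) (PYj d j) = 0 := by
      have key : ∀ (M : ℕ), 0 < M → Full (Fin M) A → ¬ Full (Fin M) (border A c b) →
          ∀ (P Q : Matrix (Fin M) (Fin M) (Polynomial (Polynomial ℂ))), sch A c b P Q = 0 := by
        intro M hM h1 h2 P Q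
        obtain ⟨M, rfl⟩ : ∃ M', M = M' + 1 := ⟨M - 1, by omega⟩
        exact sch_eq_zero M A c b h1 h2 P Q
      exact key _ (sz_pos j) hj2 (hnot j) _ _
    have := hZ3 c b hs
    rw [hZx] at this
    rw [← this]
    simp only [dotProduct, mulVec, Finset.sum_apply, Pi.mul_apply, Matrix.of_apply]

end

end Pool.Agent.H7
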