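import Mathlib
import Pool.Agent.H7.RegIdeal

/-!
# Matrices of operators on finite-dimensional Hilbert spaces
-/

namespace Pool.Agent.H7

open scoped InnerProductSpace
open Matrix

set_option linter.unusedSectionVars false

noncomputable section

section Gen

variable {V : Type} [NormedAddCommGroup V] [InnerProductSpace ℂ V] [CompleteSpace V]

theorem op_proper (ι : Type) [Fintype ι] (a : ι → (V →L[ℂ] V)) (h : ∑ i, star (a i) * a i = 0)
    (i : ι) : a i = 0 := by
  ext1 v
  have h1 : ∑ i, (‖a i v‖ : ℂ) ^ 2 = 0 := by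
    have h2 : ⟪(∑ i, star (a i) * a i) v, v⟫_ℂ = 0 := by
      rw [h]
      simp
    rw [← h2, _root_.sum_apply, sum_inner]
    refine Finset.sum_congr rfl fun i _ => ?_
    show _ = ⟪(ContinuousLinearMap.adjoint (a i)) (a i v), v⟫_ℂ
    rw [ContinuousLinearMap.adjoint_inner_left, inner_self_eq_norm_sq_to_K]
    rfl
  have h3 : ∑ i, ‖a i v‖ ^ 2 = 0 := by
    exact_mod_cast h1
  have h4 := (Finset.sum_eq_zero_iff_of_nonneg (fun i _ => by positivity)).1 h3 i (Finset.mem_univ i)
  have h5 : ‖a i v‖ = 0 := by simpa using h4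
  simpa using h5

/-- The rank one operator `z ↦ ⟪y, z⟫ x`. -/
def r1 (x y : V) : V →L[ℂ] V := (innerSL ℂ y).smulRight x

theorem r1_apply (x y z : V) : r1 x y z = ⟪y, z⟫_ℂ • x := rfl

theorem mul_r1 (T : V →L[ℂ] V) (x y : V) : T * r1 x y = r1 (T x) y := by
  ext1 z
  show T (r1 x y z) = r1 (T x) y z
  rw [r1_apply, r1_apply, map_smul]

theorem star_r1 (x y : V) : star (r1 x y) = r1 y x := by
  ext1 z
  apply ext_inner_right ℂ
  intro w
  show ⟪(ContinuousLinearMap.adjoint (r1 x y)) z, w⟫_ℂ = _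
  rw [ContinuousLinearMap.adjoint_inner_left, r1_apply, r1_apply, inner_smul_right,
    inner_smul_left, inner_conj_symm, mul_comm]

theorem r1_mul_r1 (a b c d : V) : r1 a b * r1 c d = ⟪b, c⟫_ℂ • r1 a d := by
  rw [mul_r1]
  ext1 z
  rw [r1_apply, r1_apply, _root_.smul_apply, r1_apply, smul_smul, smul_smul, mul_comm]

theorem r1_mul_mul_r1 (u : V) (x : V →L[ℂ] V) : r1 u u * x * r1 u u = ⟪u, x u⟫_ℂ • r1 u u := by
  rw [mul_assoc, mul_r1, r1_mul_r1]

end Gen

section FD

variable {V : Type} [NormedAddCommGroup V] [InnerProductSpace ℂ V] [CompleteSpace V]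
  [FiniteDimensional ℂ V] {n : Type} [Fintype n] [DecidableEq n]

theorem inI_all {u : V} (hu : ‖u‖ = 1) (x : V →L[ℂ] V) : InI (r1 u u) x := by
  let b := stdOrthonormalBasis ℂ V
  refine ⟨Fin (Module.finrank ℂ V), inferInstance, fun i => r1 (x (b i)) u, fun i => r1 u (b i), ?_⟩
  have huu : ⟪u, u⟫_ℂ = 1 := by
    rw [inner_self_eq_norm_sq_to_K, hu]
    simp
  ext1 z
  rw [_root_.sum_apply]
  have h1 : ∀ i, (r1 (x (b i)) u * r1 u u * r1 u (b i)) z = ⟪b i, z⟫_ℂ • x (b i) := by
    intro i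
    rw [r1_mul_r1, huu, one_smul, r1_mul_r1, huu, one_smul, r1_apply]
  simp only [h1]
  conv_lhs => rw [← b.sum_repr' z, map_sum]
  simp only [map_smul]

theorem matrix_fd_quasi_inverse [Nonempty n] (x : Matrix n n (V →L[ℂ] V)) :
    ∃ y, x * y * x = x := by
  rcases subsingleton_or_nontrivial V with hV | hV
  · refine ⟨0, ?_⟩
    ext i k v
    exact Subsingleton.elim _ _
  · obtain ⟨u, hu⟩ : ∃ u : V, ‖u‖ = 1 := by
      obtain ⟨w, hw⟩ := exists_ne (0 : V)
      refine ⟨((‖w‖ : ℂ)⁻¹) • w, ?_⟩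
      rw [norm_smul, norm_inv, Complex.norm_real, norm_norm, inv_mul_cancel₀ (norm_ne_zero_iff.2 hw)]
    have huu : ⟪u, u⟫_ℂ = 1 := by
      rw [inner_self_eq_norm_sq_to_K, hu]
      simp
    obtain ⟨g, _, hg⟩ := matrix_quasi_inverse (k := ℂ) (n := n) (B := V →L[ℂ] V) (e := r1 u u)
      (by rw [r1_mul_r1, huu, one_smul]) (star_r1 u u)
      (fun x => ⟨_, r1_mul_mul_r1 u x⟩) op_proper (f := x) (fun i k => inI_all hu _)
    exact ⟨g, hg⟩

instance : Module.Finite ℂ (V →L[ℂ] V) :=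
  Module.Finite.equiv (LinearMap.toContinuousLinearMap : (V →ₗ[ℂ] V) ≃ₗ[ℂ] (V →L[ℂ] V))

theorem artinian_matrix : IsArtinianRing (Matrix n n (V →L[ℂ] V)) :=
  IsArtinianRing.of_finite ℂ _

/-- In a ring with proper involution in which quasi-inverses exist, `δ` has a quasi-inverse in
`δ* S δ*`. -/
theorem exists_mp {S : Type} [Ring S] [StarRing S] (hprop : ∀ x : S, star x * x = 0 → x = 0)
    (hreg : ∀ x : S, ∃ y, x * y * x = x) (δ : S) :
    ∃ m, δ * (star δ * m * star δ) * δ = δ := by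
  obtain ⟨κ, hκ⟩ := hreg (δ * star δ)
  obtain ⟨κ', hκ'⟩ := hreg (star δ * δ)
  have h1 : δ * (star δ * κ) * δ = δ := by
    have h2 : (δ * (star δ * κ) * δ - δ) * star δ = 0 := by
      rw [sub_mul]
      calc δ * (star δ * κ) * δ * star δ - δ * star δ
          = (δ * star δ) * κ * (δ * star δ) - δ * star δ := by simp only [mul_assoc]
        _ = 0 := by rw [hκ, sub_self]
    have h3 : star (star (δ * (star δ * κ) * δ - δ)) * star (δ * (star δ * κ) * δ - δ) = 0 := by
      rw [star_star]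
      have hs : star (δ * (star δ * κ) * δ - δ) = star δ * (star (δ * (star δ * κ)) - 1) := by
        rw [star_sub, star_mul, mul_sub, mul_one]
      rw [hs, ← mul_assoc, h2, zero_mul]
    have h4 := hprop _ h3
    exact sub_eq_zero.1 (star_eq_zero.1 h4)
  have h1' : δ * (κ' * star δ) * δ = δ := by
    have h2 : star δ * (δ * (κ' * star δ) * δ - δ) = 0 := by
      rw [mul_sub]
      calc star δ * (δ * (κ' * star δ) * δ) - star δ * δ
          = (star δ * δ) * κ' * (star δ * δ) - star δ * δ := by simp only [mul_assoc]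
        _ = 0 := by rw [hκ', sub_self]
    have h3 : star (δ * (κ' * star δ) * δ - δ) * (δ * (κ' * star δ) * δ - δ) = 0 := by
      have hs : star (δ * (κ' * star δ) * δ - δ) = (star ((κ' * star δ) * δ) - 1) * star δ := by
        rw [star_sub, mul_assoc, star_mul, sub_mul, one_mul]
      rw [hs, mul_assoc, h2, mul_zero]
    exact sub_eq_zero.1 (hprop _ h3)
  refine ⟨κ * δ * κ', ?_⟩
  calc δ * (star δ * (κ * δ * κ') * star δ) * δ
      = (δ * (star δ * κ) * δ) * (κ' * star δ) * δ := by simp only [mul_assoc]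
    _ = δ := by rw [h1, h1']

end FD

end

end Pool.Agent.H7
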