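import Mathlib
import Pool.Agent.H7.FinDim
import Pool.Agent.H7.Shift

/-!
# Discrete strong convergence of compressions to finite-dimensional subspaces
-/

namespace Pool.Agent.H7

open scoped InnerProductSpace
open Matrix Filter

set_option linter.unusedSectionVars false

noncomputable section

/-- Finite-dimensional subspaces of `ℓ²`. -/
abbrev FS : Type := {U : Submodule ℂ Hs // FiniteDimensional ℂ U}

instance : IsDirectedOrder FS where
  directed U V := by
    have := U.2
    have := V.2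
    exact ⟨⟨U.1 ⊔ V.1, inferInstance⟩, (le_sup_left : U.1 ≤ U.1 ⊔ V.1),
      (le_sup_right : V.1 ≤ U.1 ⊔ V.1)⟩

instance : Nonempty FS := ⟨⟨⊥, inferInstance⟩⟩

instance (U : FS) : FiniteDimensional ℂ U.1 := U.2

instance (U : FS) : CompleteSpace U.1 := FiniteDimensional.complete ℂ U.1

/-- Operators on `U`. -/
def BU (U : FS) : Type := U.1 →L[ℂ] U.1

instance (U : FS) : Ring (BU U) := inferInstanceAs (Ring (U.1 →L[ℂ] U.1))

instance (U : FS) : StarRing (BU U) := inferInstanceAs (StarRing (U.1 →L[ℂ] U.1))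

instance (U : FS) : Algebra ℂ (BU U) := inferInstanceAs (Algebra ℂ (U.1 →L[ℂ] U.1))

/-- Application of an operator on `U`. -/
def ap {U : FS} (x : BU U) (v : U.1) : U.1 := (show U.1 →L[ℂ] U.1 from x) v

theorem eventually_mem (v : Hs) : ∀ᶠ U : FS in atTop, v ∈ U.1 := by
  have : FiniteDimensional ℂ (ℂ ∙ v) := inferInstance
  refine (eventually_ge_atTop (⟨ℂ ∙ v, this⟩ : FS)).mono fun U hU => ?_
  exact hU (Submodule.mem_span_singleton_self v)

/-- Discrete strong convergence. -/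
def HC (x : ∀ U : FS, BU U) (T : Bd) : Prop :=
  ∀ v : Hs, ∀ᶠ U : FS in atTop, ∃ hv : v ∈ U.1, ((ap (x U) ⟨v, hv⟩ : U.1) : Hs) = T v

theorem HC.one : HC (fun _ => 1) 1 := fun v =>
  (eventually_mem v).mono fun _ hv => ⟨hv, rfl⟩

theorem HC.zero : HC (fun _ => 0) 0 := fun v =>
  (eventually_mem v).mono fun _ hv => ⟨hv, rfl⟩

theorem HC.add {x y : ∀ U : FS, BU U} {S T : Bd} (hx : HC x S) (hy : HC y T) :
    HC (fun U => x U + y U) (S + T) := fun v => by
  filter_upwards [hx v, hy v] with U h1 h2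
  obtain ⟨hv, h1⟩ := h1
  obtain ⟨_, h2⟩ := h2
  refine ⟨hv, ?_⟩
  show ((ap (x U) ⟨v, hv⟩ : U.1) : Hs) + ((ap (y U) ⟨v, hv⟩ : U.1) : Hs) = S v + T v
  rw [h1, h2]

theorem HC.neg {x : ∀ U : FS, BU U} {S : Bd} (hx : HC x S) : HC (fun U => - x U) (-S) :=
  fun v => by
  filter_upwards [hx v] with U h1
  obtain ⟨hv, h1⟩ := h1
  refine ⟨hv, ?_⟩
  show -((ap (x U) ⟨v, hv⟩ : U.1) : Hs) = - S v
  rw [h1]

theorem HC.mul {x y : ∀ U : FS, BU U} {S T : Bd} (hx : HC x S) (hy : HC y T) :
    HC (fun U => x U * y U) (S * T) := fun v => by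
  filter_upwards [hx (T v), hy v] with U h1 h2
  obtain ⟨hv', h1⟩ := h1
  obtain ⟨hv, h2⟩ := h2
  refine ⟨hv, ?_⟩
  have h3 : ap (y U) ⟨v, hv⟩ = ⟨T v, hv'⟩ := Subtype.ext h2
  show ((ap (x U) (ap (y U) ⟨v, hv⟩) : U.1) : Hs) = S (T v)
  rw [h3, h1]

theorem HC.congr {x y : ∀ U : FS, BU U} {S : Bd} (hx : HC x S) (h : ∀ U, x U = y U) : HC y S := by
  have : x = y := funext h
  rw [← this]
  exact hx

theorem HC.sum {ι : Type} (s : Finset ι) {x : ι → ∀ U : FS, BU U} {T : ι → Bd}
    (h : ∀ i, HC (x i) (T i)) : HC (fun U => ∑ i ∈ s, x i U) (∑ i ∈ s, T i) := by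
  classical
  induction s using Finset.induction_on with
  | empty => exact HC.zero
  | insert a s ha ih =>
    have := (h a).add ih
    rw [Finset.sum_insert ha]
    exact this.congr fun U => (Finset.sum_insert (f := fun i => x i U) ha).symm

theorem HC.unique {x : ∀ U : FS, BU U} {S T : Bd} (hS : HC x S) (hT : HC x T) : S = T := by
  ext1 v
  obtain ⟨U, ⟨h1, h2⟩, ⟨h3, h4⟩⟩ := ((hS v).and (hT v)).exists
  rw [← h2, ← h4]

/-- Left multiplication by anything preserves convergence to zero. -/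
theorem HC.zero_mul_left {x : ∀ U : FS, BU U} (hx : HC x 0) (y : ∀ U : FS, BU U) :
    HC (fun U => y U * x U) 0 := fun v => by
  filter_upwards [hx v] with U h1
  obtain ⟨hv, h1⟩ := h1
  refine ⟨hv, ?_⟩
  have h3 : ap (x U) ⟨v, hv⟩ = 0 := Subtype.ext h1
  show ((ap (y U) (ap (x U) ⟨v, hv⟩) : U.1) : Hs) = 0
  rw [h3]
  exact congrArg Subtype.val (map_zero (show U.1 →L[ℂ] U.1 from y U))

/-- Compression. -/
def cmp (T : Bd) (U : FS) : BU U :=
  (U.1.orthogonalProjectionOnto ∘L T ∘L U.1.subtypeL : U.1 →L[ℂ] U.1)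

theorem cmp_conv (T : Bd) : HC (cmp T) T := fun v => by
  filter_upwards [eventually_mem v, eventually_mem (T v)] with U h1 h2
  refine ⟨h1, ?_⟩
  show ((U.1.orthogonalProjectionOnto (T v) : U.1) : Hs) = T v
  exact congrArg Subtype.val (Submodule.orthogonalProjectionOnto_mem_subspace_eq_self ⟨T v, h2⟩)

theorem star_cmp (T : Bd) (U : FS) : star (cmp T U) = cmp (star T) U := by
  show ContinuousLinearMap.adjoint
    (U.1.orthogonalProjectionOnto ∘L T ∘L U.1.subtypeL : U.1 →L[ℂ] U.1) =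
    (U.1.orthogonalProjectionOnto ∘L (star T) ∘L U.1.subtypeL : U.1 →L[ℂ] U.1)
  ext1 v
  apply ext_inner_right ℂ
  intro w
  rw [ContinuousLinearMap.adjoint_inner_left]
  show ⟪v, U.1.orthogonalProjectionOnto (T w)⟫_ℂ =
    ⟪U.1.orthogonalProjectionOnto ((ContinuousLinearMap.adjoint T) v), w⟫_ℂ
  rw [Submodule.inner_orthogonalProjectionOnto_eq_of_mem_left,
    Submodule.inner_orthogonalProjectionOnto_eq_of_mem_right,
    ContinuousLinearMap.adjoint_inner_left]

/-- Two-sided convergence. -/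
def Cv (x : ∀ U : FS, BU U) (T : Bd) : Prop := HC x T ∧ HC (fun U => star (x U)) (star T)

theorem Cv.one : Cv (fun _ => 1) 1 :=
  ⟨HC.one, by rw [star_one]; exact HC.one.congr fun U => (star_one (BU U)).symm⟩

theorem Cv.zero : Cv (fun _ => 0) 0 :=
  ⟨HC.zero, by rw [star_zero]; exact HC.zero.congr fun U => (star_zero (BU U)).symm⟩

theorem Cv.add {x y : ∀ U : FS, BU U} {S T : Bd} (hx : Cv x S) (hy : Cv y T) :
    Cv (fun U => x U + y U) (S + T) :=
  ⟨hx.1.add hy.1, by rw [star_add]; exact (hx.2.add hy.2).congr fun U => (star_add _ _).symm⟩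

theorem Cv.neg {x : ∀ U : FS, BU U} {S : Bd} (hx : Cv x S) : Cv (fun U => - x U) (-S) :=
  ⟨hx.1.neg, by rw [star_neg]; exact (hx.2.neg).congr fun U => (star_neg _).symm⟩

theorem Cv.mul {x y : ∀ U : FS, BU U} {S T : Bd} (hx : Cv x S) (hy : Cv y T) :
    Cv (fun U => x U * y U) (S * T) :=
  ⟨hx.1.mul hy.1, by rw [star_mul]; exact (hy.2.mul hx.2).congr fun U => (star_mul _ _).symm⟩

theorem Cv.star {x : ∀ U : FS, BU U} {S : Bd} (hx : Cv x S) :
    Cv (fun U => Star.star (x U)) (Star.star S) :=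
  ⟨hx.2, by rw [star_star]; exact hx.1.congr fun U => (star_star _).symm⟩

theorem Cv.sum {ι : Type} (s : Finset ι) {x : ι → ∀ U : FS, BU U} {T : ι → Bd}
    (h : ∀ i, Cv (x i) (T i)) : Cv (fun U => ∑ i ∈ s, x i U) (∑ i ∈ s, T i) :=
  ⟨HC.sum s fun i => (h i).1, by
    rw [star_sum]
    exact (HC.sum s fun i => (h i).2).congr fun U => (star_sum _ _).symm⟩

theorem Cv.unique {x : ∀ U : FS, BU U} {S T : Bd} (hS : Cv x S) (hT : Cv x T) : S = T :=
  hS.1.unique hT.1

theorem cmp_cv (T : Bd) : Cv (cmp T) T :=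
  ⟨cmp_conv T, (cmp_conv (star T)).congr fun U => (star_cmp T U).symm⟩

section Mat

variable {n : Type} [Fintype n] [DecidableEq n]

/-- Entrywise convergence. -/
def CM (x : ∀ U : FS, Matrix n n (BU U)) (T : Matrix n n Bd) : Prop :=
  ∀ i k, Cv (fun U => x U i k) (T i k)

theorem CM.congr {x y : ∀ U : FS, Matrix n n (BU U)} {S : Matrix n n Bd} (hx : CM x S)
    (h : ∀ U, x U = y U) : CM y S := by
  have : x = y := funext h
  rw [← this]
  exact hx

theorem CM.zero : CM (fun _ => (0 : Matrix n n _)) 0 := fun _ _ => Cv.zero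

theorem CM.one : CM (fun _ => (1 : Matrix n n _)) 1 := fun i k => by
  by_cases h : i = k
  · subst h
    simp only [Matrix.one_apply_eq]
    exact Cv.one
  · simp only [Matrix.one_apply_ne h]
    exact Cv.zero

theorem CM.add {x y : ∀ U : FS, Matrix n n (BU U)} {S T : Matrix n n Bd} (hx : CM x S)
    (hy : CM y T) : CM (fun U => x U + y U) (S + T) := fun i k => (hx i k).add (hy i k)

theorem CM.neg {x : ∀ U : FS, Matrix n n (BU U)} {S : Matrix n n Bd} (hx : CM x S) :
    CM (fun U => - x U) (-S) := fun i k => (hx i k).neg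

theorem CM.sub {x y : ∀ U : FS, Matrix n n (BU U)} {S T : Matrix n n Bd} (hx : CM x S)
    (hy : CM y T) : CM (fun U => x U - y U) (S - T) := by
  rw [sub_eq_add_neg]
  exact (hx.add hy.neg).congr fun U => (sub_eq_add_neg _ _).symm

theorem CM.mul {x y : ∀ U : FS, Matrix n n (BU U)} {S T : Matrix n n Bd} (hx : CM x S)
    (hy : CM y T) : CM (fun U => x U * y U) (S * T) := fun i k => by
  simp only [Matrix.mul_apply]
  exact Cv.sum _ fun a => (hx i a).mul (hy a k)

theorem CM.star {x : ∀ U : FS, Matrix n n (BU U)} {S : Matrix n n Bd} (hx : CM x S) :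
    CM (fun U => Star.star (x U)) (Star.star S) := fun i k => by
  simp only [Matrix.star_apply]
  exact (hx k i).star

theorem CM.unique {x : ∀ U : FS, Matrix n n (BU U)} {S T : Matrix n n Bd} (hS : CM x S)
    (hT : CM x T) : S = T := by
  ext1 i k
  exact (hS i k).unique (hT i k)

/-- Compression of a matrix. -/
def cmpM (T : Matrix n n Bd) (U : FS) : Matrix n n (BU U) := of fun i k => cmp (T i k) U

theorem cmpM_cm (T : Matrix n n Bd) : CM (cmpM T) T := fun i k => cmp_cv (T i k)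

theorem CM.mul_left_zero {x : ∀ U : FS, Matrix n n (BU U)}
    (hx : CM x 0) (y : ∀ U : FS, Matrix n n (BU U)) (i k : n) :
    HC (fun U => (y U * x U) i k) 0 := by
  simp only [Matrix.mul_apply]
  have := HC.sum Finset.univ (x := fun a U => y U i a * x U a k) (T := fun _ => 0)
    (fun a => HC.zero_mul_left (hx a k).1 (fun U => y U i a))
  rw [Finset.sum_const_zero] at this
  exact this

/-- `δ* m δ*` tends to zero if `δ` does, whatever `m`. -/
theorem CM.sandwich {δ : ∀ U : FS, Matrix n n (BU U)} (hδ : CM δ 0)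
    (m : ∀ U : FS, Matrix n n (BU U)) :
    CM (fun U => Star.star (δ U) * m U * Star.star (δ U)) 0 := by
  have hδ' : CM (fun U => Star.star (δ U)) 0 := by
    have h := hδ.star
    rw [star_zero] at h
    exact h
  intro i k
  refine ⟨CM.mul_left_zero hδ' (fun U => Star.star (δ U) * m U) i k, ?_⟩
  have h := CM.mul_left_zero hδ (fun U => δ U * Star.star (m U)) k i
  have e0 : Star.star ((0 : Matrix n n Bd) i k) = 0 := star_zero _
  rw [e0]
  refine h.congr fun U => ?_
  have e1 : Star.star (Star.star (δ U) * m U * Star.star (δ U)) =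
      δ U * Star.star (m U) * δ U := by
    rw [star_mul, star_mul, star_star, mul_assoc]
  rw [← e1, Matrix.star_apply]

theorem quasi_aux {S : Type} [Ring S] (x c g : S)
    (h : (x - x * c * x) * g * (x - x * c * x) = x - x * c * x) :
    x * (c + (1 - c * x) * g * (1 - x * c)) * x = x := by
  have e : x * (c + (1 - c * x) * g * (1 - x * c)) * x =
      x * c * x + (x - x * c * x) * g * (x - x * c * x) := by noncomm_ring
  rw [e, h]
  abel

theorem BU_proper (U : FS) (ι : Type) [Fintype ι] (a : ι → BU U)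
    (h : ∑ i, star (a i) * a i = 0) (i : ι) : a i = 0 :=
  op_proper (V := U.1) ι a h i

theorem BU_matrix_regular [Nonempty n] (U : FS) (x : Matrix n n (BU U)) :
    ∃ y, x * y * x = x := matrix_fd_quasi_inverse (V := U.1) x

theorem BU_artinian (U : FS) : IsArtinianRing (Matrix n n (BU U)) :=
  artinian_matrix (V := U.1)

theorem exists_m [Nonempty n] (U : FS) (δ : Matrix n n (BU U)) :
    ∃ m, δ * (Star.star δ * m * Star.star δ) * δ = δ :=
  exists_mp (matrix_proper (BU_proper U)) (BU_matrix_regular U) δ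

/-- **Regularity of convergent nets**. -/
theorem exists_quasi_inverse_net [Nonempty n] {x : ∀ U : FS, Matrix n n (BU U)}
    {r s : Matrix n n Bd} (hx : CM x r) (hrs : r * s * r = r) :
    ∃ ψ : ∀ U : FS, Matrix n n (BU U), (∀ U, x U * ψ U * x U = x U) ∧ CM ψ s := by
  obtain ⟨c, hc⟩ : ∃ c : ∀ U : FS, Matrix n n (BU U), CM c s := ⟨cmpM s, cmpM_cm s⟩
  obtain ⟨δ, hδd⟩ : ∃ δ : ∀ U : FS, Matrix n n (BU U), ∀ U, δ U = x U - x U * c U * x U :=
    ⟨_, fun U => rfl⟩
  have hδ : CM δ 0 := by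
    have h := hx.sub ((hx.mul hc).mul hx)
    rw [hrs, sub_self] at h
    exact h.congr fun U => (hδd U).symm
  choose m hm using fun U => exists_m U (δ U)
  obtain ⟨γ, hγd⟩ : ∃ γ : ∀ U : FS, Matrix n n (BU U), ∀ U,
    γ U = Star.star (δ U) * m U * Star.star (δ U) := ⟨_, fun U => rfl⟩
  have hγ : CM γ 0 := (hδ.sandwich m).congr fun U => (hγd U).symm
  refine ⟨fun U => c U + (1 - c U * x U) * γ U * (1 - x U * c U), fun U => ?_, ?_⟩
  · apply quasi_aux
    rw [← hδd, hγd]
    exact hm U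
  · have h1 := hc.add (((CM.one.sub (hc.mul hx)).mul hγ).mul (CM.one.sub (hx.mul hc)))
    rw [mul_zero, zero_mul, add_zero] at h1
    exact h1

end Mat

end

end Pool.Agent.H7
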