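import Mathlib
import Pool.Agent.H7.Assemble

/-!
# A directly infinite *-regular ring: the conclusion
-/

namespace Pool.Agent.H7

open Matrix Filter Topology

set_option linter.unusedSectionVars false

noncomputable section

variable (d : Data)

variable {l : Filter ℕ}

/-- The quotient map. -/
def piE (l : Filter ℕ) : EvProd l Ej →+* EvProd l Qj := EvProd.map l pj

theorem piE_mk (x : ∀ j, Ej j) :
    piE l (EvProd.mk l Ej x) = EvProd.mk l Qj (fun j => pj j (x j)) := rfl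

theorem piE_surjective : Function.Surjective (piE l) := by
  intro q
  obtain ⟨q, rfl⟩ := EvProd.mk_surjective q
  choose x hx using fun j => pj_surjective j (q j)
  refine ⟨EvProd.mk l Ej x, ?_⟩
  rw [piE_mk]
  congr 1
  funext j
  exact hx j

theorem piE_star (x : EvProd l Ej) : piE l (star x) = star (piE l x) := by
  obtain ⟨x, rfl⟩ := EvProd.mk_surjective x
  rw [EvProd.star_mk, piE_mk, piE_mk, EvProd.star_mk]
  congr 1

theorem rho_sF (a : FA) : rho d l (sF a) = star (rho d l a) := by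
  rw [rho_apply, rho_apply, EvProd.star_mk]
  congr 1
  funext j
  exact rj_sF d j a

theorem algMap_mul_mul (j : ℕ) (P P' : Matrix (Fin (sz j)) (Fin (sz j)) ℂ) :
    (P * P').map (algebraMap ℂ Bd) = P.map (algebraMap ℂ Bd) * P'.map (algebraMap ℂ Bd) :=
  Matrix.map_mul

theorem Yj_left_inv (j : ℕ) : ∃ L : Ej j, L * Yj d j = 1 := by
  obtain ⟨⟨G, Gi, h1, h2⟩, hG⟩ := d.hG j
  obtain ⟨⟨G', Gi', h1', h2'⟩, hG'⟩ := d.hG' j
  simp only at hG hG'
  refine ⟨Gi'.map (algebraMap ℂ Bd) * Dl (zj j) ((d.t j : ℂ)⁻¹ • star Sh) *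
    Gi.map (algebraMap ℂ Bd), ?_⟩
  have ht : (d.t j : ℂ) ≠ 0 := by exact_mod_cast d.ht j
  have hD : Dl (zj j) ((d.t j : ℂ)⁻¹ • star Sh) * Dl (zj j) ((d.t j : ℂ) • Sh) = (1 : Ej j) := by
    unfold Dl
    rw [diagonal_mul_diagonal, ← diagonal_one]
    congr 1
    funext i
    simp only [Function.update_apply, Pi.one_apply]
    split_ifs
    · rw [smul_mul_smul_comm, inv_mul_cancel₀ ht, star_Sh_mul_Sh, one_smul]
    · rw [one_mul]
  have hg : Gi.map (algebraMap ℂ Bd) * (d.G j).map (algebraMap ℂ Bd) = 1 := by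
    rw [← Matrix.map_mul, ← hG, h2, Matrix.map_one _ (map_zero _) (map_one _)]
  have hg' : Gi'.map (algebraMap ℂ Bd) * (d.G' j).map (algebraMap ℂ Bd) = 1 := by
    rw [← Matrix.map_mul, ← hG', h2', Matrix.map_one _ (map_zero _) (map_one _)]
  unfold Yj Form
  calc Gi'.map (algebraMap ℂ Bd) * Dl (zj j) ((d.t j : ℂ)⁻¹ • star Sh) *
        Gi.map (algebraMap ℂ Bd) * ((d.G j).map (algebraMap ℂ Bd) *
          Dl (zj j) ((d.t j : ℂ) • Sh) * (d.G' j).map (algebraMap ℂ Bd))
      = Gi'.map (algebraMap ℂ Bd) * Dl (zj j) ((d.t j : ℂ)⁻¹ • star Sh) *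
        (Gi.map (algebraMap ℂ Bd) * (d.G j).map (algebraMap ℂ Bd)) *
          Dl (zj j) ((d.t j : ℂ) • Sh) * (d.G' j).map (algebraMap ℂ Bd) := by
        simp only [mul_assoc]
    _ = Gi'.map (algebraMap ℂ Bd) * (Dl (zj j) ((d.t j : ℂ)⁻¹ • star Sh) *
          Dl (zj j) ((d.t j : ℂ) • Sh)) * (d.G' j).map (algebraMap ℂ Bd) := by
        rw [hg, mul_one]
        simp only [mul_assoc]
    _ = 1 := by rw [hD, mul_one, hg']

theorem Yj_not_right_inv (j : ℕ) (x : Ej j) : Yj d j * x ≠ 1 := by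
  intro hx
  obtain ⟨⟨G, Gi, h1, h2⟩, hG⟩ := d.hG j
  simp only at hG
  have hg : Gi.map (algebraMap ℂ Bd) * (d.G j).map (algebraMap ℂ Bd) = 1 := by
    rw [← Matrix.map_mul, ← hG, h2, Matrix.map_one _ (map_zero _) (map_one _)]
  obtain ⟨W, hW⟩ : ∃ W : Ej j, W = (d.G' j).map (algebraMap ℂ Bd) * x *
    (d.G j).map (algebraMap ℂ Bd) := ⟨_, rfl⟩
  have h3 : Dl (zj j) ((d.t j : ℂ) • Sh) * W = 1 := by
    unfold Yj Form at hx
    calc Dl (zj j) ((d.t j : ℂ) • Sh) * W
        = (Gi.map (algebraMap ℂ Bd) * (d.G j).map (algebraMap ℂ Bd)) *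
          (Dl (zj j) ((d.t j : ℂ) • Sh) * W) := by rw [hg, one_mul]
      _ = Gi.map (algebraMap ℂ Bd) * ((d.G j).map (algebraMap ℂ Bd) *
          Dl (zj j) ((d.t j : ℂ) • Sh) * (d.G' j).map (algebraMap ℂ Bd) * x) *
          (d.G j).map (algebraMap ℂ Bd) := by
          rw [hW]
          simp only [mul_assoc]
      _ = 1 := by rw [hx, mul_one, hg]
  have h4 := congrFun (congrFun h3 (zj j)) (zj j)
  unfold Dl at h4
  rw [diagonal_mul, Function.update_self, Matrix.one_apply_eq, smul_mul_assoc,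
    ← mul_smul_comm] at h4
  exact Sh_not_right_inv _ h4

/-- **A *-regular ring which is not unit-regular**, with its embedding in a product of rings of
operators modulo equality along the filter `l`. -/
theorem exists_ring (l : Filter ℕ) [l.NeBot] (hl : l ≤ atTop) :
    ∃ (R : Type) (_ : Ring R) (_ : StarRing R), (∀ a : R, ∃ x : R, a * x * a = a) ∧
      (∀ x : R, star x * x = 0 → x = 0) ∧ (∃ a : R, ∀ u : Rˣ, a * (u : R) * a ≠ a) ∧
      ∃ emb : R →+* EvProd l Ej, Function.Injective emb ∧ (∀ x, emb (star x) = star (emb x)) ∧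
        ∀ y, piE l y = 0 → ∃ x, emb x = y := by
  obtain ⟨d⟩ := nonempty_data
  have key := exists_of_extension (piE l) piE_surjective (entrySubring (goodFam d l hl)) ?_ ?_ ?_ ?_
    (EvProd.mk l Ej (Yj d)) ?_ ?_ ?_
  · obtain ⟨R, i1, i2, h1, h2, h3, emb, h4, h5, h6⟩ := key
    refine ⟨R, i1, i2, h1, h2, h3, emb, h4, h5, fun y hy => h6 y ?_⟩
    rw [hy]
    exact Subring.zero_mem _
  · intro q hq
    exact isEntry_inv (goodFam d l hl) hq
  · intro x hx
    rw [piE_star]
    exact isEntry_star sF (rho_sF d) (fun ι _ _ A hA => good_star hA) hx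
  · intro x hx
    obtain ⟨x, rfl⟩ := EvProd.mk_surjective x
    rw [piE_mk, EvProd.mk_eq_zero_iff] at hx
    have h : ∀ j, ∃ g : Ej j, pj j (x j) = 0 → pj j g = 0 ∧ x j * g * x j = x j := by
      intro j
      by_cases hj : pj j (x j) = 0
      · have : Nonempty (Fin (sz j)) := ⟨zj j⟩
        obtain ⟨g, hg, hgx⟩ := matrix_quasi_inverse (k := ℂ) eS_mul_eS star_eS eS_rank_one
          Bd_proper (f := x j) (fun i k => qmk_eq_zero_iff.1 (congrFun (congrFun hj i) k))
        refine ⟨g, fun _ => ⟨?_, hgx⟩⟩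
        ext1 i k
        exact qmk_eq_zero_iff.2 (hg i k)
      · exact ⟨0, fun h => absurd h hj⟩
    choose g hg using h
    refine ⟨EvProd.mk l Ej g, ?_, ?_⟩
    · rw [piE_mk, EvProd.mk_eq_zero_iff]
      exact hx.mono fun j hj => (hg j hj).1
    · rw [← map_mul, ← map_mul, EvProd.mk_eq_iff]
      exact hx.mono fun j hj => (hg j hj).2
  · intro x hx
    obtain ⟨x, rfl⟩ := EvProd.mk_surjective x
    rw [EvProd.star_mk, ← map_mul, EvProd.mk_eq_zero_iff] at hx
    rw [EvProd.mk_eq_zero_iff]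
    exact hx.mono fun j hj => matrix_proper Bd_proper (x j) hj
  · have h : piE l (EvProd.mk l Ej (Yj d)) = rho d l (FreeAlgebra.ι ℤ 0) := by
      rw [piE_mk, rho_apply]
      congr 1
      funext j
      exact (rj_zero d j).symm
    rw [h]
    exact isEntry_map (goodFam d l hl) _
  · intro x hx
    obtain ⟨x, rfl⟩ := EvProd.mk_surjective x
    rw [← map_mul, EvProd.mk_eq_zero_iff] at hx
    rw [EvProd.mk_eq_zero_iff]
    refine hx.mono fun j hj => ?_
    obtain ⟨L, hL⟩ := Yj_left_inv d j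
    have hj' : Yj d j * x j = 0 := hj
    calc x j = L * Yj d j * x j := by rw [hL, one_mul]
      _ = 0 := by rw [mul_assoc, hj', mul_zero]
  · intro x hx
    obtain ⟨x, rfl⟩ := EvProd.mk_surjective x
    rw [← map_mul, ← map_one (EvProd.mk l Ej), EvProd.mk_eq_iff] at hx
    obtain ⟨j, hj⟩ := hx.exists
    exact Yj_not_right_inv d j (x j) hj

/-- **A *-regular ring which is not unit-regular.** -/
theorem exists_star_regular_not_unit_regular :
    ∃ (R : Type) (_ : Ring R) (_ : StarRing R), (∀ a : R, ∃ x : R, a * x * a = a) ∧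
      (∀ x : R, star x * x = 0 → x = 0) ∧ ∃ a : R, ∀ u : Rˣ, a * (u : R) * a ≠ a := by
  obtain ⟨R, i1, i2, h1, h2, h3, _⟩ := exists_ring atTop le_rfl
  exact ⟨R, i1, i2, h1, h2, h3⟩

end

end Pool.Agent.H7
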