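import Mathlib
import Pool.Agent.H7.Conv
import Pool.Agent.H7.FinalDI

/-!
# The directly infinite ring is subdirectly irreducible and lies in the variety generated by
# artinian *-regular rings
-/

namespace Pool.Agent.H7

open scoped InnerProductSpace
open Matrix Filter

set_option linter.unusedSectionVars false

noncomputable section

theorem eS_eq_r1 : eS = r1 (bs 0) (bs 0) := by
  ext1 x
  rw [eS_apply, r1_apply]

theorem inner_bs_zero : ⟪(bs 0 : Hs), bs 0⟫_ℂ = 1 := by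
  rw [inner_self_eq_norm_sq_to_K, bs.orthonormal.1 0]
  simp

theorem InI_r1 (u v : Hs) : InI eS (r1 u v) := by
  refine ⟨Unit, inferInstance, fun _ => r1 u (bs 0), fun _ => r1 (bs 0) v, ?_⟩
  rw [Finset.univ_unique, Finset.sum_singleton, eS_eq_r1, r1_mul_r1, inner_bs_zero, one_smul,
    r1_mul_r1, inner_bs_zero, one_smul]

theorem InI.smul {x : Bd} (hx : InI eS x) (c : ℂ) : InI eS (c • x) := by
  have : c • x = (algebraMap ℂ Bd c) * x := Algebra.smul_def c x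
  rw [this]
  exact hx.mul_left _

theorem pj_single_eq_zero {j : ℕ} (i k : Fin (sz j)) {x : Bd} (hx : InI eS x) :
    pj j (Matrix.single i k x) = 0 := by
  ext1 p q
  show qmk (Matrix.single i k x p q) = 0
  rw [Matrix.single_apply]
  split_ifs
  · exact qmk_eq_zero_iff.2 hx
  · exact map_zero _

theorem exists_sandwich {j : ℕ} {x : Ej j} (hx : x ≠ 0) :
    ∃ a b : Ej j, pj j a = 0 ∧ pj j b = 0 ∧ a * x * b = Matrix.single (zj j) (zj j) eS := by
  obtain ⟨i, k, hik⟩ : ∃ i k, x i k ≠ 0 := by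
    by_contra hcon
    push Not at hcon
    exact hx (by ext1 i k; exact hcon i k)
  obtain ⟨h, hh⟩ : ∃ h : Hs, x i k h ≠ 0 := by
    by_contra hcon
    push Not at hcon
    exact hik (by ext1 h; exact hcon h)
  have hg : ⟪x i k h, x i k h⟫_ℂ ≠ 0 := inner_self_ne_zero.2 hh
  refine ⟨Matrix.single (zj j) i ((⟪x i k h, x i k h⟫_ℂ)⁻¹ • r1 (bs 0) (x i k h)),
    Matrix.single k (zj j) (r1 h (bs 0)), pj_single_eq_zero _ _ ((InI_r1 _ _).smul _),
    pj_single_eq_zero _ _ (InI_r1 _ _), ?_⟩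
  rw [Matrix.single_mul_mul_single, mul_assoc, mul_r1, smul_mul_assoc, r1_mul_r1, smul_smul,
    inv_mul_cancel₀ hg, one_smul, eS_eq_r1]

section Main

variable {l : Ultrafilter ℕ} {R : Type} [Ring R] [StarRing R] {emb : R →+* EvProd (l : Filter ℕ) Ej}

/-- Subdirect irreducibility. -/
theorem subdirectly_irreducible (hinj : Function.Injective emb)
    (hran : ∀ y, piE (l : Filter ℕ) y = 0 → ∃ x, emb x = y) :
    ∃ a : R, a ≠ 0 ∧ ∀ J : TwoSidedIdeal R, (∃ x ∈ J, x ≠ 0) → a ∈ J := by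
  have hker : ∀ y : ∀ j, Ej j, (∀ j, pj j (y j) = 0) → ∃ x, emb x = EvProd.mk l Ej y := by
    intro y hy
    apply hran
    rw [piE_mk, EvProd.mk_eq_zero_iff]
    exact Eventually.of_forall hy
  obtain ⟨a, ha⟩ := hker (fun j => Matrix.single (zj j) (zj j) eS)
    (fun j => pj_single_eq_zero _ _ (InI.self eS))
  refine ⟨a, ?_, ?_⟩
  · rintro rfl
    rw [map_zero] at ha
    have h1 := EvProd.mk_eq_zero_iff.1 ha.symm
    obtain ⟨j, hj⟩ := h1.exists
    have h2 := congrFun (congrFun hj (zj j)) (zj j)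
    rw [Matrix.single_apply_same] at h2
    exact eS_ne_zero h2
  · rintro J ⟨x, hxJ, hx⟩
    obtain ⟨y, hy⟩ := EvProd.mk_surjective (emb x)
    have hy0 : ∀ᶠ j in (l : Filter ℕ), y j ≠ 0 := by
      have h1 : ¬ ∀ᶠ j in (l : Filter ℕ), y j = 0 := by
        intro h0
        apply hx
        apply hinj
        rw [← hy, map_zero]
        exact EvProd.mk_eq_zero_iff.2 h0
      exact Ultrafilter.eventually_not.2 h1
    have h2 : ∀ j, ∃ a b : Ej j, pj j a = 0 ∧ pj j b = 0 ∧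
        (y j ≠ 0 → a * y j * b = Matrix.single (zj j) (zj j) eS) := by
      intro j
      by_cases hj : y j = 0
      · exact ⟨0, 0, map_zero _, map_zero _, fun h => absurd hj h⟩
      · obtain ⟨a, b, h1, h2, h3⟩ := exists_sandwich hj
        exact ⟨a, b, h1, h2, fun _ => h3⟩
    choose p q hp hq hpq using h2
    obtain ⟨p', hp'⟩ := hker p hp
    obtain ⟨q', hq'⟩ := hker q hq
    have h3 : p' * x * q' = a := by
      apply hinj
      rw [map_mul, map_mul, hp', hq', ← hy, ha, ← map_mul, ← map_mul, EvProd.mk_eq_iff]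
      exact hy0.mono fun j hj => hpq j hj
    rw [← h3]
    exact J.mul_mem_right _ _ (J.mul_mem_left _ _ hxJ)

/-- The artinian factors. -/
abbrev SI (i : ℕ × FS) : Type := Matrix (Fin (sz i.1)) (Fin (sz i.1)) (BU i.2)

/-- `x` approximates `ρ`. -/
def Apx (emb : R →+* EvProd (l : Filter ℕ) Ej) (x : ∀ i, SI i) (ρ : R) : Prop :=
  ∃ r : ∀ j, Ej j, emb ρ = EvProd.mk l Ej r ∧ ∀ᶠ j in (l : Filter ℕ), CM (fun U => x (j, U)) (r j)

theorem Apx.unique (hinj : Function.Injective emb) {x : ∀ i, SI i} {ρ ρ' : R}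
    (h : Apx emb x ρ) (h' : Apx emb x ρ') : ρ = ρ' := by
  obtain ⟨r, h1, h2⟩ := h
  obtain ⟨r', h1', h2'⟩ := h'
  apply hinj
  rw [h1, h1', EvProd.mk_eq_iff]
  exact (h2.and h2').mono fun j hj => hj.1.unique hj.2

theorem Apx.one : Apx emb 1 1 :=
  ⟨1, by rw [map_one, map_one], Eventually.of_forall fun _ => CM.one⟩

theorem Apx.zero : Apx emb 0 0 :=
  ⟨0, by rw [map_zero, map_zero], Eventually.of_forall fun _ => CM.zero⟩

theorem Apx.add {x y : ∀ i, SI i} {ρ σ : R} (hx : Apx emb x ρ) (hy : Apx emb y σ) :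
    Apx emb (x + y) (ρ + σ) := by
  obtain ⟨r, h1, h2⟩ := hx
  obtain ⟨s, h1', h2'⟩ := hy
  exact ⟨r + s, by rw [map_add, map_add, h1, h1'], (h2.and h2').mono fun j hj => hj.1.add hj.2⟩

theorem Apx.mul {x y : ∀ i, SI i} {ρ σ : R} (hx : Apx emb x ρ) (hy : Apx emb y σ) :
    Apx emb (x * y) (ρ * σ) := by
  obtain ⟨r, h1, h2⟩ := hx
  obtain ⟨s, h1', h2'⟩ := hy
  exact ⟨r * s, by rw [map_mul, map_mul, h1, h1'], (h2.and h2').mono fun j hj => hj.1.mul hj.2⟩

theorem Apx.neg {x : ∀ i, SI i} {ρ : R} (hx : Apx emb x ρ) : Apx emb (-x) (-ρ) := by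
  obtain ⟨r, h1, h2⟩ := hx
  exact ⟨-r, by rw [map_neg, map_neg, h1], h2.mono fun j hj => hj.neg⟩

theorem Apx.star (hstar : ∀ x, emb (star x) = star (emb x)) {x : ∀ i, SI i} {ρ : R}
    (hx : Apx emb x ρ) : Apx emb (Star.star x) (Star.star ρ) := by
  obtain ⟨r, h1, h2⟩ := hx
  exact ⟨Star.star r, by rw [hstar, h1, EvProd.star_mk]; rfl, h2.mono fun j hj => hj.star⟩

/-- The regular subring of the product. -/
def TT (emb : R →+* EvProd (l : Filter ℕ) Ej) : Subring (∀ i, SI i) where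
  carrier := {x | ∃ ρ, Apx emb x ρ}
  mul_mem' := fun ⟨_, h⟩ ⟨_, h'⟩ => ⟨_, h.mul h'⟩
  one_mem' := ⟨_, Apx.one⟩
  add_mem' := fun ⟨_, h⟩ ⟨_, h'⟩ => ⟨_, h.add h'⟩
  zero_mem' := ⟨_, Apx.zero⟩
  neg_mem' := fun ⟨_, h⟩ => ⟨_, h.neg⟩

open Classical in
/-- The homomorphism. -/
def ff (emb : R →+* EvProd (l : Filter ℕ) Ej) (x : ∀ i, SI i) : R :=
  if h : ∃ ρ, Apx emb x ρ then h.choose else 0

theorem ff_eq (hinj : Function.Injective emb) {x : ∀ i, SI i} {ρ : R} (h : Apx emb x ρ) :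
    ff emb x = ρ := by
  have h' : ∃ ρ, Apx emb x ρ := ⟨ρ, h⟩
  unfold ff
  rw [dif_pos h']
  exact Apx.unique hinj h'.choose_spec h

/-- Membership in the variety generated by artinian *-regular rings. -/
theorem mem_variety (hinj : Function.Injective emb)
    (hstar : ∀ x, emb (star x) = star (emb x)) (hreg : ∀ a : R, ∃ x : R, a * x * a = a) :
    ∃ (I : Type) (S : I → Type) (_ : ∀ i, Ring (S i)) (_ : ∀ i, StarRing (S i)),
        (∀ i, IsArtinianRing (S i)) ∧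
        (∀ i, ∀ x : S i, ∃ y : S i, x * y * x = x) ∧
        (∀ i, ∀ x : S i, star x * x = 0 → x = 0) ∧
        ∃ (T : Subring ((i : I) → S i)) (f : ((i : I) → S i) → R),
          (∀ x ∈ T, star x ∈ T) ∧
          (∀ x ∈ T, ∃ y ∈ T, x * y * x = x) ∧
          f 1 = 1 ∧
          (∀ x ∈ T, ∀ y ∈ T, f (x + y) = f x + f y) ∧
          (∀ x ∈ T, ∀ y ∈ T, f (x * y) = f x * f y) ∧
          (∀ x ∈ T, f (star x) = star (f x)) ∧
          (∀ r : R, ∃ x ∈ T, f x = r) := by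
  have hne : ∀ j, Nonempty (Fin (sz j)) := fun j => ⟨zj j⟩
  refine ⟨ℕ × FS, SI, inferInstance, inferInstance, fun i => BU_artinian i.2,
    fun i x => BU_matrix_regular i.2 x, fun i x hx => matrix_proper (BU_proper i.2) x hx,
    TT emb, ff emb, ?_, ?_, ?_, ?_, ?_, ?_, ?_⟩
  · rintro x ⟨ρ, h⟩
    exact ⟨_, h.star hstar⟩
  · rintro x ⟨ρ, r, h1, h2⟩
    obtain ⟨σ, hσ⟩ := hreg ρ
    obtain ⟨s, hs⟩ := EvProd.mk_surjective (emb σ)
    have h3 : ∀ᶠ j in (l : Filter ℕ), r j * s j * r j = r j := by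
      have h4 : emb (ρ * σ * ρ) = emb ρ := by rw [hσ]
      rw [map_mul, map_mul, h1, ← hs, ← map_mul, ← map_mul, EvProd.mk_eq_iff] at h4
      exact h4
    have h5 : ∀ j, ∃ ψ : ∀ U : FS, Matrix (Fin (sz j)) (Fin (sz j)) (BU U),
        (∀ U, x (j, U) * ψ U * x (j, U) = x (j, U)) ∧
        (CM (fun U => x (j, U)) (r j) → r j * s j * r j = r j → CM ψ (s j)) := by
      intro j
      by_cases hj : CM (fun U => x (j, U)) (r j) ∧ r j * s j * r j = r j
      · obtain ⟨ψ, hψ1, hψ2⟩ := exists_quasi_inverse_net hj.1 hj.2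
        exact ⟨ψ, hψ1, fun _ _ => hψ2⟩
      · choose ψ hψ using fun U => BU_matrix_regular U (x (j, U))
        exact ⟨ψ, hψ, fun a b => absurd ⟨a, b⟩ hj⟩
    choose ψ hψ1 hψ2 using h5
    refine ⟨fun i => ψ i.1 i.2, ⟨σ, s, hs.symm, ?_⟩, ?_⟩
    · exact (h2.and h3).mono fun j hj => hψ2 j hj.1 hj.2
    · funext i
      exact hψ1 i.1 i.2
  · exact ff_eq hinj Apx.one
  · rintro x ⟨ρ, h⟩ y ⟨σ, h'⟩
    rw [ff_eq hinj h, ff_eq hinj h', ff_eq hinj (h.add h')]
  · rintro x ⟨ρ, h⟩ y ⟨σ, h'⟩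
    rw [ff_eq hinj h, ff_eq hinj h', ff_eq hinj (h.mul h')]
  · rintro x ⟨ρ, h⟩
    rw [ff_eq hinj h, ff_eq hinj (h.star hstar)]
  · intro ρ
    obtain ⟨r, hr⟩ := EvProd.mk_surjective (emb ρ)
    have h : Apx emb (fun i => cmpM (r i.1) i.2) ρ :=
      ⟨r, hr.symm, Eventually.of_forall fun j => cmpM_cm (r j)⟩
    exact ⟨_, ⟨ρ, h⟩, ff_eq hinj h⟩

end Main

end

end Pool.Agent.H7
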